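import Pool.Agent.BK21.Siegel

/-!
# Lower bound for a linear form in three logarithms
-/

set_option autoImplicit false

namespace BK21

open Finset

/-- The final numerical estimate. -/
theorem small_aux {Z R M : ℕ} {S Y Ω₁ D E : ℝ} (hZ : 1 ≤ Z) (hN : R * M = 256 * Z)
    (hS : S = 15 * Z) (hY : Y = 10 * Z) (hE0 : 0 ≤ ((R * M : ℕ) : ℝ) * (2 * R) ^ (R * M) * Ω₁ ^ M)
    (hE : ((R * M : ℕ) : ℝ) * (2 * R) ^ (R * M) * Ω₁ ^ M + 1 ≤ Real.exp E) (hD0 : 0 ≤ D)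
    (hD : D ≤ Real.exp (-(280 * Z + E + 2))) :
    Real.exp (8 * S + 15 * Y) * (Y ^ (R * M) / (R * M).factorial * Real.exp Y +
      (((R * M : ℕ) : ℝ) * (2 * R) ^ (R * M) * Ω₁ ^ M + 1) * (Real.exp Y * (2 * D))) < 1 := by
  have hZ' : (1 : ℝ) ≤ Z := by exact_mod_cast hZ
  have he : Real.exp 1 < 2.7182818286 := Real.exp_one_lt_d9
  have he0 : 2.7182818283 < Real.exp 1 := Real.exp_one_gt_d9
  have A : Y ^ (R * M) / (R * M).factorial ≤ Real.exp (-(512 * Z)) := by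
    rw [hN, hY]
    have h1 : ((256 * Z : ℕ) : ℝ) ^ (256 * Z) / ((256 * Z).factorial : ℝ) ≤
        Real.exp ((256 * Z : ℕ) : ℝ) := Real.pow_div_factorial_le_exp _ (Nat.cast_nonneg _) _
    have h2 : (10 * (Z : ℝ)) ^ (256 * Z) / ((256 * Z).factorial : ℝ) =
        (10 / 256) ^ (256 * Z) * (((256 * Z : ℕ) : ℝ) ^ (256 * Z) /
          ((256 * Z).factorial : ℝ)) := by
      rw [← mul_div_assoc, ← mul_pow]
      congr 2
      push_cast
      ring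
    rw [h2]
    have h3 : (10 / 256 : ℝ) ≤ Real.exp (-3) := by
      rw [Real.exp_neg, le_inv_comm₀ (by norm_num) (Real.exp_pos _)]
      have : Real.exp 3 = Real.exp 1 ^ 3 := by
        rw [← Real.exp_nat_mul]
        norm_num
      rw [this]
      calc Real.exp 1 ^ 3 ≤ 2.7182818286 ^ 3 := pow_le_pow_left₀ (Real.exp_pos _).le he.le _
        _ ≤ (10 / 256)⁻¹ := by norm_num
    have h4 : (10 / 256 : ℝ) ^ (256 * Z) ≤ Real.exp (-(768 * Z)) := by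
      calc (10 / 256 : ℝ) ^ (256 * Z) ≤ Real.exp (-3) ^ (256 * Z) :=
            pow_le_pow_left₀ (by norm_num) h3 _
        _ = Real.exp (-(768 * Z)) := by
            rw [← Real.exp_nat_mul]
            congr 1
            push_cast
            ring
    calc (10 / 256 : ℝ) ^ (256 * Z) * (((256 * Z : ℕ) : ℝ) ^ (256 * Z) /
          ((256 * Z).factorial : ℝ)) ≤ Real.exp (-(768 * Z)) * Real.exp ((256 * Z : ℕ) : ℝ) :=
          mul_le_mul h4 h1 (by positivity) (Real.exp_pos _).le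
      _ = Real.exp (-(512 * Z)) := by
          rw [← Real.exp_add]
          congr 1
          push_cast
          ring
  have h5 : Real.exp (8 * S + 15 * Y) * (Y ^ (R * M) / (R * M).factorial * Real.exp Y) ≤
      Real.exp (-1) := by
    calc Real.exp (8 * S + 15 * Y) * (Y ^ (R * M) / (R * M).factorial * Real.exp Y) ≤
        Real.exp (8 * S + 15 * Y) * (Real.exp (-(512 * Z)) * Real.exp Y) :=
          mul_le_mul_of_nonneg_left (mul_le_mul_of_nonneg_right A (Real.exp_pos _).le)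
            (Real.exp_pos _).le
      _ = Real.exp (8 * S + 15 * Y + (-(512 * Z) + Y)) := by
          rw [← Real.exp_add, ← Real.exp_add]
      _ ≤ Real.exp (-1) := by
          apply Real.exp_le_exp.2
          rw [hS, hY]
          linarith
  have h6 : Real.exp (8 * S + 15 * Y) * ((((R * M : ℕ) : ℝ) * (2 * R) ^ (R * M) * Ω₁ ^ M + 1) *
      (Real.exp Y * (2 * D))) ≤ 2 * Real.exp (-2) := by
    calc Real.exp (8 * S + 15 * Y) * ((((R * M : ℕ) : ℝ) * (2 * R) ^ (R * M) * Ω₁ ^ M + 1) *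
        (Real.exp Y * (2 * D))) ≤ Real.exp (8 * S + 15 * Y) * (Real.exp E *
          (Real.exp Y * (2 * Real.exp (-(280 * Z + E + 2))))) := by
          refine mul_le_mul_of_nonneg_left ?_ (Real.exp_pos _).le
          refine mul_le_mul hE ?_ (by positivity) (Real.exp_pos _).le
          refine mul_le_mul_of_nonneg_left ?_ (Real.exp_pos _).le
          linarith
      _ = 2 * Real.exp (8 * S + 15 * Y + (E + (Y + -(280 * Z + E + 2)))) := by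
          rw [Real.exp_add (8 * S + 15 * Y), Real.exp_add E, Real.exp_add Y]
          ring
      _ = 2 * Real.exp (-2) := by
          congr 2
          rw [hS, hY]
          ring
  rw [mul_add]
  have h7 : Real.exp (-1) ≤ 1 / 2.7 := by
    rw [Real.exp_neg, inv_le_comm₀ (Real.exp_pos _) (by norm_num)]
    refine le_trans ?_ he0.le
    norm_num
  have h8 : Real.exp (-2) = Real.exp (-1) ^ 2 := by
    rw [← Real.exp_nat_mul]
    norm_num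
  have h9 : Real.exp (-2) ≤ (1 / 2.7) ^ 2 := by
    rw [h8]
    exact pow_le_pow_left₀ (Real.exp_pos _).le h7 _
  norm_num at h7 h9
  linarith

theorem num1 {r Z : ℝ} (hr : 0 ≤ r) (hZ : 1 ≤ Z) :
    2 * r + 24 + -(1000 * (2 * r + 24) * Z) ≤
      -(280 * Z + (256 * Z + 256 * Z * (2 * r + 24) + 2 * Z + 1) + 2) := by
  have h1 : 0 ≤ r * (Z - 1) := mul_nonneg hr (by linarith)
  nlinarith

theorem bigE {Z N M : ℕ} {R L Ω w : ℝ} (hN : N = 256 * Z) (hR0 : 0 ≤ R)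
    (hR : 2 * R ≤ Real.exp w) (hΩ0 : 0 ≤ Ω) (hΩ : Ω ≤ Real.exp (2 + L))
    (hM : (M : ℝ) * (2 + L) ≤ 2 * Z) (hw : 0 ≤ w) :
    (N : ℝ) * (2 * R) ^ N * Ω ^ M + 1 ≤ Real.exp (256 * Z + 256 * Z * w + 2 * Z + 1) := by
  have hZ0 : (0 : ℝ) ≤ Z := Nat.cast_nonneg _
  have e1 : (N : ℝ) ≤ Real.exp (256 * Z) := by
    have := Real.add_one_le_exp (256 * (Z : ℝ))
    rw [hN]
    push_cast
    linarith
  have e2 : (2 * R) ^ N ≤ Real.exp (256 * Z * w) := by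
    calc (2 * R) ^ N ≤ Real.exp w ^ N := pow_le_pow_left₀ (by linarith) hR _
      _ = Real.exp (N * w) := (Real.exp_nat_mul _ _).symm
      _ = Real.exp (256 * Z * w) := by
          rw [hN]
          push_cast
          rfl
  have e3 : Ω ^ M ≤ Real.exp (2 * Z) := by
    calc Ω ^ M ≤ Real.exp (2 + L) ^ M := pow_le_pow_left₀ hΩ0 hΩ _
      _ = Real.exp (M * (2 + L)) := (Real.exp_nat_mul _ _).symm
      _ ≤ _ := Real.exp_le_exp.2 hM
  have p1 : 0 ≤ (2 * R) ^ N := pow_nonneg (by linarith) _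
  have p2 : 0 ≤ Ω ^ M := pow_nonneg hΩ0 _
  have e4 : (N : ℝ) * (2 * R) ^ N * Ω ^ M ≤ Real.exp (256 * Z + 256 * Z * w + 2 * Z) := by
    rw [Real.exp_add, Real.exp_add]
    exact mul_le_mul (mul_le_mul e1 e2 p1 (Real.exp_pos _).le) e3 p2
      (mul_pos (Real.exp_pos _) (Real.exp_pos _)).le
  have e5 : (1 : ℝ) ≤ Real.exp (256 * Z + 256 * Z * w + 2 * Z) :=
    Real.one_le_exp (by positivity)
  have e7 : (2 : ℝ) ≤ Real.exp 1 := by linarith [Real.exp_one_gt_d9]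
  rw [Real.exp_add (256 * Z + 256 * Z * w + 2 * Z) 1]
  have e8 := mul_le_mul_of_nonneg_left e7
    (Real.exp_pos (256 * (Z : ℝ) + 256 * Z * w + 2 * Z)).le
  linarith

theorem five_le : (5 : ℝ) ≤ Real.exp 2 := by
  have : Real.exp 2 = Real.exp 1 ^ 2 := by
    rw [← Real.exp_nat_mul]
    norm_num
  rw [this]
  calc (5 : ℝ) ≤ 2.7182818283 ^ 2 := by norm_num
    _ ≤ _ := pow_le_pow_left₀ (by norm_num) Real.exp_one_gt_d9.le _

theorem two_pow_le (n : ℕ) : (2 : ℝ) ^ n ≤ Real.exp n := by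
  have : Real.exp n = Real.exp 1 ^ n := by
    rw [← Real.exp_nat_mul, mul_one]
  rw [this]
  exact pow_le_pow_left₀ (by norm_num) (by linarith [Real.exp_one_gt_d9]) _

/-- Parameters. -/
structure Par (d : Dat) where
  h : ℕ
  r : ℕ
  X : ℝ
  L : ℝ
  hh : 1 ≤ h
  hPQ : d.P * d.Q ≤ 10
  hlA : Real.log d.A ≤ h
  hlB : Real.log d.B ≤ h
  hX : 1 ≤ X
  hbX : |(d.b : ℝ)| ≤ X
  hxX : |(d.x : ℝ)| ≤ X
  hyX : |(d.y : ℝ)| ≤ X
  hL : 1 ≤ L
  hr : 2 ^ 10 * L ≤ 2 ^ r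
  hμ : 2 * X * (h * 2 ^ (r + 23)) ≤ Real.exp L
  hLam : |d.Lam| ≤ Real.exp (-(1000 * (2 * r + 24) * (h * 2 ^ (2 * r + 23))))

namespace Par

variable {d : Dat} (q : Par d)

/-- Number of steps. -/
@[irreducible] def J : ℕ := q.r + 23

/-- Main parameter. -/
@[irreducible] def Z : ℕ := q.h * 2 ^ (2 * q.r + 23)

theorem Z_eq {s u : ℕ} (hsu : s + u = q.J) : q.Z = 2 ^ (q.r + s) * (q.h * 2 ^ u) := by
  unfold Z J at *
  have : 2 * q.r + 23 = (q.r + s) + u := by omega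
  rw [this, pow_add]
  ring

theorem one_le_Z : 1 ≤ q.Z := by
  have := q.hh
  unfold Z
  exact Nat.mul_pos this (by positivity)

theorem hJ : (q.h : ℝ) * 2 ^ q.J ≤ Real.exp q.L := by
  have h1 := q.hμ
  have h2 := q.hX
  have h3 : (0 : ℝ) ≤ (q.h : ℝ) * 2 ^ (q.r + 23) := by positivity
  unfold J
  nlinarith

theorem hTL : (q.h : ℝ) * 2 ^ (q.J + 10) * q.L ≤ q.Z := by
  have h1 := q.hr
  unfold Z J
  push_cast
  have : (2 : ℝ) ^ (2 * q.r + 23) = 2 ^ (q.r + 23) * 2 ^ q.r := by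
    rw [← pow_add]
    congr 1
    omega
  have h2 : (2 : ℝ) ^ (q.r + 23 + 10) = 2 ^ (q.r + 23) * 2 ^ 10 := pow_add _ _ _
  rw [this, h2]
  have h3 : (0 : ℝ) ≤ (q.h : ℝ) * 2 ^ (q.r + 23) := by positivity
  have h4 := mul_le_mul_of_nonneg_left h1 h3
  linarith

theorem hL6 : 6 * q.L ≤ q.Z := by
  have h1 := q.hTL
  have h2 := q.hL
  have h3 : (1 : ℝ) ≤ q.h := by exact_mod_cast q.hh
  have h4 : (6 : ℝ) ≤ 2 ^ (q.J + 10) := by
    calc (6 : ℝ) ≤ 2 ^ 10 := by norm_num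
      _ ≤ 2 ^ (q.J + 10) := pow_le_pow_right₀ (by norm_num) (by omega)
  refine le_trans ?_ h1
  have h5 : (6 : ℝ) ≤ q.h * 2 ^ (q.J + 10) := by nlinarith
  nlinarith

include q in
theorem log_PQ : Real.log d.P + Real.log d.Q ≤ 3 := by
  have h1 := d.P_pos
  have h2 := d.Q_pos
  rw [← Real.log_mul h1.ne' h2.ne']
  have h3 : ((d.P : ℝ) * d.Q) ≤ 10 := by exact_mod_cast q.hPQ
  rw [Real.log_le_iff_le_exp (by positivity)]
  refine h3.trans ?_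
  have he0 : 2.7182818283 < Real.exp 1 := Real.exp_one_gt_d9
  have : Real.exp 3 = Real.exp 1 ^ 3 := by
    rw [← Real.exp_nat_mul]
    norm_num
  rw [this]
  calc (10 : ℝ) ≤ 2.7182818283 ^ 3 := by norm_num
    _ ≤ Real.exp 1 ^ 3 := pow_le_pow_left₀ (by norm_num) he0.le _

theorem log_P_nonneg : 0 ≤ Real.log d.P := by
  apply Real.log_nonneg
  have := d.hP
  exact_mod_cast (by omega : 1 ≤ d.P)

theorem log_Q_nonneg : 0 ≤ Real.log d.Q := by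
  apply Real.log_nonneg
  have := d.hQ
  exact_mod_cast (by omega : 1 ≤ d.Q)

theorem log_AB : |Real.log ((d.A : ℝ) / d.B)| ≤ q.h := by
  rw [Real.log_div d.A_pos.ne' d.B_pos.ne']
  have h1 := q.hlA
  have h2 := q.hlB
  have h3 : 0 ≤ Real.log d.A := Real.log_nonneg (by exact_mod_cast d.hA)
  have h4 : 0 ≤ Real.log d.B := Real.log_nonneg (by exact_mod_cast d.hB)
  rw [abs_le]
  constructor <;> linarith

theorem log_W_le {u i j k : ℕ} (hi : i < q.h * 2 ^ u) (hj : j < q.h * 2 ^ u) (hk : k < 2 ^ u) :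
    |Real.log (d.W i j k)| ≤ 2 ^ u * (4 * q.h) := by
  rw [d.log_W]
  have h1 := log_PQ q
  have h2 := log_P_nonneg (d := d)
  have h3 := log_Q_nonneg (d := d)
  have h4 := q.log_AB
  have hi' : (i : ℝ) ≤ q.h * 2 ^ u := by exact_mod_cast hi.le
  have hj' : (j : ℝ) ≤ q.h * 2 ^ u := by exact_mod_cast hj.le
  have hk' : (k : ℝ) ≤ 2 ^ u := by exact_mod_cast hk.le
  refine (abs_add_le _ _).trans ?_
  have t1 : |(i : ℝ) * Real.log d.P + j * Real.log d.Q| ≤ (q.h * 2 ^ u) * 3 := by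
    rw [abs_of_nonneg (by positivity)]
    calc (i : ℝ) * Real.log d.P + j * Real.log d.Q ≤
        (q.h * 2 ^ u) * Real.log d.P + (q.h * 2 ^ u) * Real.log d.Q :=
          add_le_add (mul_le_mul_of_nonneg_right hi' h2) (mul_le_mul_of_nonneg_right hj' h3)
      _ = (q.h * 2 ^ u) * (Real.log d.P + Real.log d.Q) := by ring
      _ ≤ (q.h * 2 ^ u) * 3 := mul_le_mul_of_nonneg_left h1 (by positivity)
  have t2 : |(k : ℝ) * Real.log ((d.A : ℝ) / d.B)| ≤ 2 ^ u * q.h := by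
    rw [abs_mul, abs_of_nonneg (Nat.cast_nonneg k)]
    exact mul_le_mul hk' h4 (abs_nonneg _) (by positivity)
  linarith

include q in
theorem Lam_le : |d.Lam| ≤ 1 := by
  refine q.hLam.trans ?_
  rw [Real.exp_le_one_iff, neg_nonpos]
  positivity

theorem om_le {u i j k : ℕ} (hi : i < q.h * 2 ^ u) (hj : j < q.h * 2 ^ u) (hk : k < 2 ^ u) :
    |d.om i j k| ≤ 2 ^ u * (5 * q.h) := by
  rw [d.om_eq]
  have h1 := q.log_W_le hi hj hk
  have hk' : (k : ℝ) ≤ 2 ^ u := by exact_mod_cast hk.le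
  have hb : (1 : ℝ) ≤ |(d.b : ℝ)| := by exact_mod_cast Int.one_le_abs d.hb
  have hh : (1 : ℝ) ≤ q.h := by exact_mod_cast q.hh
  have h2 : |(k : ℝ) * (d.Lam / d.b)| ≤ 2 ^ u * 1 := by
    rw [abs_mul, abs_of_nonneg (Nat.cast_nonneg k)]
    refine mul_le_mul hk' ?_ (abs_nonneg _) (by positivity)
    rw [abs_div]
    exact (div_le_self (abs_nonneg _) hb).trans (Lam_le q)
  have h3 := abs_sub (Real.log (d.W i j k)) ((k : ℝ) * (d.Lam / d.b))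
  have h4 : (0 : ℝ) < 2 ^ u := by positivity
  nlinarith

theorem m1_le {u i k : ℕ} (hu : u ≤ q.J) (hi : i < q.h * 2 ^ u) (hk : k < 2 ^ u) :
    |(d.m1 i k : ℝ)| ≤ Real.exp q.L := by
  have h1 := q.hbX
  have h2 := q.hxX
  have h3 := q.hX
  have hp : (2 : ℝ) ^ u ≤ 2 ^ q.J := pow_le_pow_right₀ (by norm_num) hu
  have hh : (1 : ℝ) ≤ q.h := by exact_mod_cast q.hh
  have hi' : (i : ℝ) ≤ q.h * 2 ^ q.J := by
    have : (i : ℝ) ≤ q.h * 2 ^ u := by exact_mod_cast hi.le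
    exact this.trans (mul_le_mul_of_nonneg_left hp (by linarith))
  have hk' : (k : ℝ) ≤ q.h * 2 ^ q.J := by
    have : (k : ℝ) ≤ 2 ^ u := by exact_mod_cast hk.le
    have h5 : (0 : ℝ) < 2 ^ q.J := by positivity
    nlinarith
  refine le_trans ?_ q.hμ
  unfold Dat.m1
  push_cast
  refine (abs_sub _ _).trans ?_
  rw [abs_mul, abs_mul, abs_of_nonneg (Nat.cast_nonneg (α := ℝ) i),
    abs_of_nonneg (Nat.cast_nonneg (α := ℝ) k)]
  have t1 : |(d.b : ℝ)| * i ≤ q.X * (q.h * 2 ^ q.J) :=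
    mul_le_mul h1 hi' (Nat.cast_nonneg _) (by linarith)
  have t2 : |(d.x : ℝ)| * k ≤ q.X * (q.h * 2 ^ q.J) :=
    mul_le_mul h2 hk' (Nat.cast_nonneg _) (by linarith)
  unfold J at t1 t2
  linarith

theorem m2_le {u i k : ℕ} (hu : u ≤ q.J) (hi : i < q.h * 2 ^ u) (hk : k < 2 ^ u) :
    |(d.m2 i k : ℝ)| ≤ Real.exp q.L := by
  have h1 := q.hbX
  have h2 := q.hyX
  have h3 := q.hX
  have hp : (2 : ℝ) ^ u ≤ 2 ^ q.J := pow_le_pow_right₀ (by norm_num) hu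
  have hh : (1 : ℝ) ≤ q.h := by exact_mod_cast q.hh
  have hi' : (i : ℝ) ≤ q.h * 2 ^ q.J := by
    have : (i : ℝ) ≤ q.h * 2 ^ u := by exact_mod_cast hi.le
    exact this.trans (mul_le_mul_of_nonneg_left hp (by linarith))
  have hk' : (k : ℝ) ≤ q.h * 2 ^ q.J := by
    have : (k : ℝ) ≤ 2 ^ u := by exact_mod_cast hk.le
    have h5 : (0 : ℝ) < 2 ^ q.J := by positivity
    nlinarith
  refine le_trans ?_ q.hμ
  unfold Dat.m2
  push_cast
  refine (abs_sub _ _).trans ?_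
  rw [abs_mul, abs_mul, abs_of_nonneg (Nat.cast_nonneg (α := ℝ) i),
    abs_of_nonneg (Nat.cast_nonneg (α := ℝ) k)]
  have t1 : |(d.b : ℝ)| * i ≤ q.X * (q.h * 2 ^ q.J) :=
    mul_le_mul h1 hi' (Nat.cast_nonneg _) (by linarith)
  have t2 : |(d.y : ℝ)| * k ≤ q.X * (q.h * 2 ^ q.J) :=
    mul_le_mul h2 hk' (Nat.cast_nonneg _) (by linarith)
  unfold J at t1 t2
  linarith

/-- Degree available with `u` steps to go. -/
@[irreducible] def T (u : ℕ) : ℕ := q.h * (2 ^ (q.J + 9) + 2 ^ (u + 9))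

theorem T_le {u : ℕ} (hu : u ≤ q.J) : q.T u ≤ q.h * 2 ^ (q.J + 10) := by
  unfold T
  refine Nat.mul_le_mul_left _ ?_
  have : 2 ^ (u + 9) ≤ 2 ^ (q.J + 9) := Nat.pow_le_pow_right (by norm_num) (by omega)
  have h2 : 2 ^ (q.J + 10) = 2 * 2 ^ (q.J + 9) := by ring
  omega

theorem T_top : q.T q.J = q.h * 2 ^ (q.J + 10) := by
  unfold T
  ring

theorem expT {u : ℕ} (hu : u ≤ q.J) : Real.exp q.L ^ q.T u ≤ Real.exp q.Z := by
  rw [← Real.exp_nat_mul]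
  apply Real.exp_le_exp.2
  refine le_trans ?_ q.hTL
  have h1 := q.hL
  have h2 : (q.T u : ℝ) ≤ q.h * 2 ^ (q.J + 10) := by exact_mod_cast q.T_le hu
  exact mul_le_mul_of_nonneg_right h2 (by linarith)

/-- The invariant. -/
def Inv (s u : ℕ) : Prop := ∃ p : ℕ → ℕ → ℕ → ℤ,
  (∃ i < q.h * 2 ^ u, ∃ j < q.h * 2 ^ u, ∃ k < 2 ^ u, p i j k ≠ 0) ∧
  (∀ i < q.h * 2 ^ u, ∀ j < q.h * 2 ^ u, ∀ k < 2 ^ u, |(p i j k : ℝ)| ≤ Real.exp (13 * q.Z)) ∧
  ∀ f ∈ V (q.T u), ∀ l < 2 ^ (q.r + s), bs (q.h * 2 ^ u) (2 ^ u) (fun i j k =>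
      (p i j k : ℝ) * f (d.m1 i k) (d.m2 j k) * d.W i j k ^ (2 * l + 1)) = 0

theorem Dle {s u : ℕ} (hsu : s + u + 1 = q.J) :
    (2 * ((2 ^ (q.r + s) : ℕ) : ℝ)) * ((2 * 2 ^ u : ℕ) : ℝ) * |d.Lam| ≤
      Real.exp (-(280 * q.Z + (256 * q.Z + 256 * q.Z * (2 * q.r + 24) + 2 * q.Z + 1) + 2)) := by
  have hDe : (2 * ((2 ^ (q.r + s) : ℕ) : ℝ)) * ((2 * 2 ^ u : ℕ) : ℝ) = 2 ^ (2 * q.r + 24) := by
    push_cast
    have : 2 * q.r + 24 = (q.r + s) + u + 2 := by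
      unfold J at hsu
      omega
    rw [this]
    ring
  have hZ1' : (1 : ℝ) ≤ q.Z := by exact_mod_cast q.one_le_Z
  rw [hDe]
  have h1 := q.hLam
  have h2 : ((q.h : ℝ) * 2 ^ (2 * q.r + 23)) = q.Z := by
    unfold Z
    push_cast
    ring
  rw [h2] at h1
  have h3 := two_pow_le (2 * q.r + 24)
  push_cast at h3
  calc (2 : ℝ) ^ (2 * q.r + 24) * |d.Lam| ≤
      Real.exp (2 * q.r + 24) * Real.exp (-(1000 * (2 * q.r + 24) * q.Z)) :=
        mul_le_mul h3 h1 (abs_nonneg _) (Real.exp_pos _).le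
    _ = Real.exp (2 * q.r + 24 + -(1000 * (2 * q.r + 24) * q.Z)) := (Real.exp_add _ _).symm
    _ ≤ _ := Real.exp_le_exp.2 (num1 (Nat.cast_nonneg _) hZ1')

theorem MN {s u : ℕ} (hsu : s + u + 1 = q.J) :
    2 ^ (q.r + s) * (q.h * 2 ^ (u + 9)) = 256 * q.Z := by
  rw [q.Z_eq (s := s) (u := u + 1) (by omega)]
  ring

theorem T_succ (u : ℕ) : q.T u + q.h * 2 ^ (u + 9) = q.T (u + 1) := by
  unfold T
  ring

theorem hsmall {s u : ℕ} (hsu : s + u + 1 = q.J) :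
    Real.exp (8 * (15 * (q.Z : ℝ)) + 15 * (10 * (q.Z : ℝ))) *
      ((10 * (q.Z : ℝ)) ^ (2 ^ (q.r + s) * (q.h * 2 ^ (u + 9))) /
        (2 ^ (q.r + s) * (q.h * 2 ^ (u + 9))).factorial * Real.exp (10 * (q.Z : ℝ)) +
      (((2 ^ (q.r + s) * (q.h * 2 ^ (u + 9)) : ℕ) : ℝ) * (2 * ((2 ^ (q.r + s) : ℕ) : ℝ)) ^
        (2 ^ (q.r + s) * (q.h * 2 ^ (u + 9))) * (2 ^ q.J * (5 * (q.h : ℝ))) ^
          (q.h * 2 ^ (u + 9)) + 1) *
        (Real.exp (10 * (q.Z : ℝ)) * (2 * ((2 * ((2 ^ (q.r + s) : ℕ) : ℝ)) *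
          ((2 * 2 ^ u : ℕ) : ℝ) * |d.Lam|)))) < 1 := by
  have huJ : u + 1 ≤ q.J := by omega
  have hΩ0 : (0 : ℝ) ≤ 2 ^ q.J * (5 * (q.h : ℝ)) :=
    mul_nonneg (pow_nonneg (by norm_num) _) (mul_nonneg (by norm_num) (Nat.cast_nonneg _))
  have hR0 : (0 : ℝ) ≤ ((2 ^ (q.r + s) : ℕ) : ℝ) := Nat.cast_nonneg _
  have hr0 : (0 : ℝ) ≤ q.r := Nat.cast_nonneg _
  have hw0 : (0 : ℝ) ≤ 2 * (q.r : ℝ) + 24 := by linarith
  have hR : 2 * ((2 ^ (q.r + s) : ℕ) : ℝ) ≤ Real.exp (2 * q.r + 24) := by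
    have h3 := two_pow_le (2 * q.r + 24)
    push_cast at h3
    refine le_trans ?_ h3
    push_cast
    rw [← pow_succ']
    refine pow_le_pow_right₀ (by norm_num) ?_
    unfold J at hsu
    omega
  have hΩ : (2 : ℝ) ^ q.J * (5 * (q.h : ℝ)) ≤ Real.exp (2 + q.L) := by
    rw [Real.exp_add]
    calc (2 : ℝ) ^ q.J * (5 * q.h) = 5 * (q.h * 2 ^ q.J) := by ring
      _ ≤ Real.exp 2 * Real.exp q.L :=
        mul_le_mul five_le q.hJ (mul_nonneg (Nat.cast_nonneg _) (pow_nonneg (by norm_num) _))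
          (Real.exp_pos _).le
  have hM : ((q.h * 2 ^ (u + 9) : ℕ) : ℝ) * (2 + q.L) ≤ 2 * q.Z := by
    have g1 := q.hTL
    have g2 : ((q.h * 2 ^ (u + 9) : ℕ) : ℝ) * 2 ≤ q.h * 2 ^ (q.J + 10) := by
      push_cast
      calc (q.h : ℝ) * 2 ^ (u + 9) * 2 = q.h * 2 ^ (u + 10) := by ring
        _ ≤ q.h * 2 ^ (q.J + 10) := by
            refine mul_le_mul_of_nonneg_left (pow_le_pow_right₀ (by norm_num) (by omega))
              (Nat.cast_nonneg _)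
    have g3 := q.hL
    have g4 : (0 : ℝ) ≤ ((q.h * 2 ^ (u + 9) : ℕ) : ℝ) := Nat.cast_nonneg _
    have g5 : ((q.h * 2 ^ (u + 9) : ℕ) : ℝ) * 2 * q.L ≤ q.h * 2 ^ (q.J + 10) * q.L :=
      mul_le_mul_of_nonneg_right g2 (by linarith)
    have g6 : ((q.h * 2 ^ (u + 9) : ℕ) : ℝ) * (2 + q.L) ≤
        ((q.h * 2 ^ (u + 9) : ℕ) : ℝ) * (4 * q.L) :=
      mul_le_mul_of_nonneg_left (by linarith) g4
    linarith
  refine small_aux q.one_le_Z (q.MN hsu) rfl rfl ?_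
    (bigE (q.MN hsu) hR0 hR hΩ0 hΩ hM hw0) ?_ (q.Dle hsu)
  · exact mul_nonneg (mul_nonneg (Nat.cast_nonneg _) (pow_nonneg (by linarith) _))
      (pow_nonneg hΩ0 _)
  · exact mul_nonneg (mul_nonneg (by linarith) (Nat.cast_nonneg _)) (abs_nonneg _)

theorem hS {u : ℕ} (huJ : u + 1 ≤ q.J) :
    (((2 * (q.h * 2 ^ u)) * (2 * (q.h * 2 ^ u)) * (2 * 2 ^ u) : ℕ) : ℝ) *
      (Real.exp (13 * q.Z) * Real.exp q.L ^ q.T (u + 1)) ≤ Real.exp (15 * q.Z) := by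
  have e1 : (((2 * (q.h * 2 ^ u)) * (2 * (q.h * 2 ^ u)) * (2 * 2 ^ u) : ℕ) : ℝ) ≤
      Real.exp (3 * q.L) := by
    have f0 := q.hJ
    have f1 : (2 : ℝ) * (q.h * 2 ^ u) ≤ Real.exp q.L := by
      refine le_trans ?_ f0
      calc (2 : ℝ) * (q.h * 2 ^ u) = q.h * 2 ^ (u + 1) := by ring
        _ ≤ q.h * 2 ^ q.J := mul_le_mul_of_nonneg_left
          (pow_le_pow_right₀ (by norm_num) huJ) (Nat.cast_nonneg _)
    have f2 : (2 : ℝ) * 2 ^ u ≤ Real.exp q.L := by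
      refine le_trans ?_ f1
      have h2 : (1 : ℝ) ≤ q.h := by exact_mod_cast q.hh
      have h3 : (0 : ℝ) < 2 ^ u := by positivity
      nlinarith
    have f3 : Real.exp (3 * q.L) = Real.exp q.L * Real.exp q.L * Real.exp q.L := by
      rw [← Real.exp_add, ← Real.exp_add]
      congr 1
      ring
    rw [f3]
    push_cast
    exact mul_le_mul (mul_le_mul f1 f1 (by positivity) (Real.exp_pos _).le) f2
      (by positivity) (by positivity)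
  have e2 := q.expT huJ
  have e3 := q.hL6
  have e4 := q.hL
  calc (((2 * (q.h * 2 ^ u)) * (2 * (q.h * 2 ^ u)) * (2 * 2 ^ u) : ℕ) : ℝ) *
      (Real.exp (13 * q.Z) * Real.exp q.L ^ q.T (u + 1)) ≤
      Real.exp (3 * q.L) * (Real.exp (13 * q.Z) * Real.exp q.Z) :=
        mul_le_mul e1 (mul_le_mul_of_nonneg_left e2 (Real.exp_pos _).le) (by positivity)
          (Real.exp_pos _).le
    _ = Real.exp (3 * q.L + (13 * q.Z + q.Z)) := by rw [Real.exp_add, Real.exp_add]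
    _ ≤ Real.exp (15 * q.Z) := by
        apply Real.exp_le_exp.2
        linarith

theorem hBY {s u : ℕ} (hsu : s + u + 1 = q.J) :
    (d.B : ℝ) ^ (4 * 2 ^ (q.r + s) * 2 ^ u) ≤ Real.exp (10 * q.Z) := by
  have hB0 := d.B_pos
  have e1 : (d.B : ℝ) ^ (4 * 2 ^ (q.r + s) * 2 ^ u) =
      Real.exp ((4 * 2 ^ (q.r + s) * 2 ^ u : ℕ) * Real.log d.B) := by
    rw [Real.exp_nat_mul, Real.exp_log hB0]
  rw [e1]
  apply Real.exp_le_exp.2
  rw [q.Z_eq (s := s) (u := u + 1) (by omega)]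
  push_cast
  have e2 := q.hlB
  have e3 : (0 : ℝ) < 2 ^ (q.r + s) * 2 ^ u := by positivity
  have e4 : (0 : ℝ) ≤ q.h := Nat.cast_nonneg _
  have e5 : (0 : ℝ) ≤ (2 ^ (q.r + s) * 2 ^ u) * q.h := mul_nonneg e3.le e4
  have e6 := mul_le_mul_of_nonneg_left e2 e3.le
  have e7 : (10 : ℝ) * (2 ^ (q.r + s) * (q.h * 2 ^ (u + 1))) =
      20 * ((2 ^ (q.r + s) * 2 ^ u) * q.h) := by ring
  rw [e7]
  linarith

theorem hYe {s u : ℕ} (hsu : s + u + 1 = q.J) :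
    2 * ((2 ^ (q.r + s) : ℕ) : ℝ) * (2 ^ (u + 1) * (5 * (q.h : ℝ))) ≤ 10 * q.Z := by
  rw [q.Z_eq (s := s) (u := u + 1) (by omega)]
  push_cast
  apply le_of_eq
  ring

theorem hone : (1 : ℝ) ≤ 2 ^ q.J * (5 * (q.h : ℝ)) := by
  have h1 : (1 : ℝ) ≤ 2 ^ q.J := one_le_pow₀ (by norm_num)
  have h2 : (1 : ℝ) ≤ q.h := by exact_mod_cast q.hh
  nlinarith

theorem hsm {s u : ℕ} (hsu : s + u + 1 = q.J) :
    (2 * ((2 ^ (q.r + s) : ℕ) : ℝ)) * ((2 * 2 ^ u : ℕ) : ℝ) * |d.Lam| ≤ 1 := by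
  refine (q.Dle hsu).trans ?_
  rw [Real.exp_le_one_iff, neg_nonpos]
  have h1 : (0 : ℝ) ≤ q.Z := Nat.cast_nonneg _
  have h2 : (0 : ℝ) ≤ q.r := Nat.cast_nonneg _
  have h3 : (0 : ℝ) ≤ 256 * (q.Z : ℝ) * (2 * (q.r : ℝ) + 24) :=
    mul_nonneg (by linarith) (by linarith)
  linarith

theorem inv_step {s u : ℕ} (hsu : s + u + 1 = q.J) (hI : q.Inv s (u + 1)) :
    q.Inv (s + 1) u := by
  obtain ⟨p, ⟨i₁, hi₁, j₁, hj₁, k₁, hk₁, hp₁⟩, hpb, hpv⟩ := hI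
  have hn2 : q.h * 2 ^ (u + 1) = 2 * (q.h * 2 ^ u) := by ring
  have hm2 : 2 ^ (u + 1) = 2 * 2 ^ u := by ring
  have huJ : u + 1 ≤ q.J := by omega
  have hTT := q.T_succ u
  have hmu : (1 : ℝ) ≤ Real.exp q.L := Real.one_le_exp (by linarith [q.hL])
  have c1 : ∀ f ∈ V (q.T (u + 1)), ∀ l < 2 ^ (q.r + s),
      bs (2 * (q.h * 2 ^ u)) (2 * 2 ^ u) (fun i j k =>
        (p i j k : ℝ) * f (d.m1 i k) (d.m2 j k) * d.W i j k ^ (2 * l + 1)) = 0 := by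
    rw [← hn2, ← hm2]
    exact hpv
  have c2 : ∀ i < 2 * (q.h * 2 ^ u), ∀ j < 2 * (q.h * 2 ^ u), ∀ k < 2 * 2 ^ u,
      |(p i j k : ℝ)| ≤ Real.exp (13 * q.Z) := by
    rw [← hn2, ← hm2]
    exact hpb
  have c3 : ∀ i < 2 * (q.h * 2 ^ u), ∀ k < 2 * 2 ^ u, |(d.m1 i k : ℝ)| ≤ Real.exp q.L := by
    rw [← hn2, ← hm2]
    exact fun i hi k hk => q.m1_le huJ hi hk
  have c4 : ∀ j < 2 * (q.h * 2 ^ u), ∀ k < 2 * 2 ^ u, |(d.m2 j k : ℝ)| ≤ Real.exp q.L := by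
    rw [← hn2, ← hm2]
    exact fun i hi k hk => q.m2_le huJ hi hk
  have c5 : ∀ i < 2 * (q.h * 2 ^ u), ∀ j < 2 * (q.h * 2 ^ u), ∀ k < 2 * 2 ^ u,
      |d.om i j k| ≤ 2 ^ (u + 1) * (5 * (q.h : ℝ)) := by
    rw [← hn2, ← hm2]
    exact fun i hi j hj k hk => q.om_le hi hj hk
  have h0 : (0 : ℝ) ≤ q.h := Nat.cast_nonneg _
  have c6 : ∀ i < 2 * (q.h * 2 ^ u), ∀ j < 2 * (q.h * 2 ^ u), ∀ k < 2 * 2 ^ u,
      |Real.log (d.W i j k)| ≤ 2 ^ (u + 1) * (5 * (q.h : ℝ)) := by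
    rw [← hn2, ← hm2]
    intro i hi j hj k hk
    refine (q.log_W_le hi hj hk).trans ?_
    exact mul_le_mul_of_nonneg_left (by linarith) (pow_nonneg (by norm_num) _)
  have c7 : (2 : ℝ) ^ (u + 1) * (5 * (q.h : ℝ)) ≤ 2 ^ q.J * (5 * (q.h : ℝ)) :=
    mul_le_mul_of_nonneg_right (pow_le_pow_right₀ (by norm_num) huJ) (by linarith)
  have c8 : (0 : ℝ) ≤ 2 ^ (u + 1) * (5 * (q.h : ℝ)) :=
    mul_nonneg (pow_nonneg (by norm_num) _) (by linarith)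
  have hcore := fun (e₁ e₂ e₃ : Fin 2) (l : ℕ) (hl : l < 2 * 2 ^ (q.r + s)) (i0 j0 : ℕ)
      (hij : i0 + j0 ≤ q.T (u + 1) - q.h * 2 ^ (u + 9)) =>
    d.core (n := q.h * 2 ^ u) (m := 2 ^ u) (M := q.h * 2 ^ (u + 9)) (T := q.T (u + 1))
      (R := 2 ^ (q.r + s)) p (Nat.pow_pos (by norm_num)) (by omega) hmu c1 c2 c3 c4 c5 c6 q.hone
      c7 c8 (q.hS huJ) (q.hYe hsu) (q.hBY hsu) (q.hsm hsu) (q.hsmall hsu)
      (i0 := i0) (j0 := j0) (l := l) hij hl e₁ e₂ e₃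
  have hTM : q.T (u + 1) - q.h * 2 ^ (u + 9) = q.T u := by omega
  rw [hTM] at hcore
  refine ⟨fun i j k => p (2 * i + i₁ % 2) (2 * j + j₁ % 2) (2 * k + k₁ % 2), ?_, ?_, ?_⟩
  · refine ⟨i₁ / 2, by omega, j₁ / 2, by omega, k₁ / 2, by omega, ?_⟩
    have a1 : 2 * (i₁ / 2) + i₁ % 2 = i₁ := by omega
    have a2 : 2 * (j₁ / 2) + j₁ % 2 = j₁ := by omega
    have a3 : 2 * (k₁ / 2) + k₁ % 2 = k₁ := by omega
    simp only [a1, a2, a3]
    exact hp₁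
  · intro i hi j hj k hk
    exact hpb _ (by omega) _ (by omega) _ (by omega)
  · intro f hf l hl
    have hl' : l < 2 * 2 ^ (q.r + s) := by
      refine lt_of_lt_of_eq hl ?_
      rw [← add_assoc, pow_succ]
      ring
    exact d.span_van (e₁ := i₁ % 2) (e₂ := j₁ % 2) (e₃ := k₁ % 2) p
      (fun i0 j0 hij => hcore ⟨i₁ % 2, by omega⟩ ⟨j₁ % 2, by omega⟩ ⟨k₁ % 2, by omega⟩ l hl'
        i0 j0 hij) hf

end Par

end BK21
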