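import Mathlib

/-!
# Sums of three square roots
-/

set_option autoImplicit false

namespace BK21

open Finset

/-- Adjoin a square root to a subfield of the reals. -/
def quad (K : Subfield ℝ) (y : ℝ) (hy : y ^ 2 ∈ K) : Subfield ℝ where
  carrier := {r | ∃ p ∈ K, ∃ q ∈ K, r = p + q * y}
  zero_mem' := ⟨0, K.zero_mem, 0, K.zero_mem, by ring⟩
  one_mem' := ⟨1, K.one_mem, 0, K.zero_mem, by ring⟩
  add_mem' := by
    rintro r r' ⟨p, hp, q, hq, rfl⟩ ⟨p', hp', q', hq', rfl⟩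
    exact ⟨p + p', K.add_mem hp hp', q + q', K.add_mem hq hq', by ring⟩
  neg_mem' := by
    rintro r ⟨p, hp, q, hq, rfl⟩
    exact ⟨-p, K.neg_mem hp, -q, K.neg_mem hq, by ring⟩
  mul_mem' := by
    rintro r r' ⟨p, hp, q, hq, rfl⟩ ⟨p', hp', q', hq', rfl⟩
    exact ⟨p * p' + q * q' * y ^ 2, K.add_mem (K.mul_mem hp hp')
      (K.mul_mem (K.mul_mem hq hq') hy), p * q' + q * p',
      K.add_mem (K.mul_mem hp hq') (K.mul_mem hq hp'), by ring⟩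
  inv_mem' := by
    rintro r ⟨p, hp, q, hq, rfl⟩
    by_cases h : p ^ 2 - q ^ 2 * y ^ 2 = 0
    · have h1 : (p + q * y) * (p - q * y) = 0 := by rw [← h]; ring
      rcases mul_eq_zero.1 h1 with h2 | h2
      · exact ⟨0, K.zero_mem, 0, K.zero_mem, by rw [h2]; simp⟩
      · have h3 : p + q * y = 2 * p := by linarith
        have h4 : (2 : ℝ) * p ∈ K := K.mul_mem (by exact_mod_cast natCast_mem K 2) hp
        exact ⟨(2 * p)⁻¹, K.inv_mem h4, 0, K.zero_mem, by rw [h3]; ring⟩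
    · have h1 : p ^ 2 - q ^ 2 * y ^ 2 ∈ K :=
        K.sub_mem (K.pow_mem hp 2) (K.mul_mem (K.pow_mem hq 2) hy)
      refine ⟨p * (p ^ 2 - q ^ 2 * y ^ 2)⁻¹, K.mul_mem hp (K.inv_mem h1),
        -q * (p ^ 2 - q ^ 2 * y ^ 2)⁻¹, K.mul_mem (K.neg_mem hq) (K.inv_mem h1), ?_⟩
      have h2 : p + q * y ≠ 0 := by
        intro h2
        apply h
        have : (p + q * y) * (p - q * y) = 0 := by rw [h2]; ring
        rw [← this]
        ring
      field_simp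
      ring

theorem mem_quad {K : Subfield ℝ} {y : ℝ} (hy : y ^ 2 ∈ K) {p q : ℝ} (hp : p ∈ K) (hq : q ∈ K) :
    p + q * y ∈ quad K y hy := ⟨p, hp, q, hq, rfl⟩

theorem le_quad {K : Subfield ℝ} {y : ℝ} (hy : y ^ 2 ∈ K) {p : ℝ} (hp : p ∈ K) :
    p ∈ quad K y hy := ⟨p, hp, 0, K.zero_mem, by ring⟩

theorem ind_quad {K : Subfield ℝ} {y : ℝ} (hyK : y ∉ K) {p q : ℝ} (hp : p ∈ K)
    (hq : q ∈ K) (h : p + q * y = 0) : p = 0 ∧ q = 0 := by
  by_cases hq0 : q = 0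
  · rw [hq0] at h
    exact ⟨by linarith, hq0⟩
  · exfalso
    apply hyK
    have : y = -p * q⁻¹ := by
      field_simp
      linarith
    rw [this]
    exact K.mul_mem (K.neg_mem hp) (K.inv_mem hq)

theorem sq_quad {K : Subfield ℝ} {y : ℝ} (hy : y ^ 2 ∈ K) (hyK : y ∉ K) {z : ℝ}
    (hz : z ^ 2 ∈ K) (h : z ∈ quad K y hy) : z ∈ K ∨ z * y ∈ K := by
  obtain ⟨p, hp, q, hq, rfl⟩ := h
  have h1 : (p ^ 2 + q ^ 2 * y ^ 2 - (p + q * y) ^ 2) + 2 * (p * q) * y = 0 := by ring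
  have h2 := (ind_quad hyK (K.sub_mem (K.add_mem (K.pow_mem hp 2)
    (K.mul_mem (K.pow_mem hq 2) hy)) hz) (K.mul_mem (by exact_mod_cast natCast_mem K 2)
      (K.mul_mem hp hq)) h1).2
  have h3 : p * q = 0 := by linarith
  rcases mul_eq_zero.1 h3 with h4 | h4
  · right
    rw [h4]
    have : (0 + q * y) * y = q * y ^ 2 := by ring
    rw [this]
    exact K.mul_mem hq hy
  · left
    rw [h4]
    simpa using hp

/-- The rational numbers. -/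
noncomputable def K0 : Subfield ℝ := (algebraMap ℚ ℝ).fieldRange

theorem nat_mem_K0 (n : ℕ) : (n : ℝ) ∈ K0 := natCast_mem K0 n

theorem int_mem_K0 (n : ℤ) : (n : ℝ) ∈ K0 := intCast_mem K0 n

theorem not_mem_K0 {n : ℕ} (hn : ¬ IsSquare n) {x : ℝ} (hx : x ^ 2 = n) : x ∉ K0 := by
  rintro ⟨q, rfl⟩
  apply hn
  have h1 : q ^ 2 = (n : ℚ) := by
    have : ((q : ℝ)) ^ 2 = n := by simpa using hx
    exact_mod_cast this
  rw [← Rat.isSquare_natCast_iff]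
  exact ⟨q, by rw [← h1]; ring⟩

/-- The numbers `a`, `b`, `c` are independent modulo squares. -/
structure Ind (a b c : ℕ) : Prop where
  ha : ¬ IsSquare a
  hb : ¬ IsSquare b
  hc : ¬ IsSquare c
  hab : ¬ IsSquare (a * b)
  hac : ¬ IsSquare (a * c)
  hbc : ¬ IsSquare (b * c)
  habc : ¬ IsSquare (a * b * c)

/-- The sum. -/
noncomputable def F (n : Fin 2 → Fin 2 → Fin 2 → ℤ) (x y z : ℝ) : ℝ :=
  ∑ i, ∑ j, ∑ k, n i j k * x ^ (i : ℕ) * y ^ (j : ℕ) * z ^ (k : ℕ)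

theorem F_eq (n : Fin 2 → Fin 2 → Fin 2 → ℤ) (x y z : ℝ) : F n x y z =
    ((n 0 0 0 + n 1 0 0 * x) + (n 0 1 0 + n 1 1 0 * x) * y) +
    ((n 0 0 1 + n 1 0 1 * x) + (n 0 1 1 + n 1 1 1 * x) * y) * z := by
  simp only [F, Fin.sum_univ_two, Fin.val_zero, Fin.val_one, pow_zero, pow_one]
  ring

theorem F_zero {a b c : ℕ} (h : Ind a b c) {x y z : ℝ} (hx : x ^ 2 = a) (hy : y ^ 2 = b)
    (hz : z ^ 2 = c) {n : Fin 2 → Fin 2 → Fin 2 → ℤ} (hF : F n x y z = 0) : n = 0 := by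
  have hx0 : x ∉ K0 := not_mem_K0 h.ha hx
  have hxx : x ^ 2 ∈ K0 := by rw [hx]; exact nat_mem_K0 a
  have hyy : y ^ 2 ∈ K0 := by rw [hy]; exact nat_mem_K0 b
  have hzz : z ^ 2 ∈ K0 := by rw [hz]; exact nat_mem_K0 c
  have hy1 : y ∉ quad K0 x hxx := by
    intro h1
    rcases sq_quad hxx hx0 hyy h1 with h2 | h2
    · exact not_mem_K0 h.hb hy h2
    · refine not_mem_K0 h.hab ?_ h2
      push_cast
      rw [mul_pow, hx, hy]
      ring
  have hyy1 : y ^ 2 ∈ quad K0 x hxx := le_quad hxx hyy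
  have hzz1 : z ^ 2 ∈ quad K0 x hxx := le_quad hxx hzz
  have hz2 : z ∉ quad (quad K0 x hxx) y hyy1 := by
    intro h1
    rcases sq_quad hyy1 hy1 hzz1 h1 with h2 | h2
    · rcases sq_quad hxx hx0 hzz h2 with h3 | h3
      · exact not_mem_K0 h.hc hz h3
      · refine not_mem_K0 h.hac ?_ h3
        push_cast
        rw [mul_pow, hx, hz]
        ring
    · have hzy : (z * y) ^ 2 ∈ K0 := by
        rw [mul_pow]
        exact K0.mul_mem hzz hyy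
      rcases sq_quad hxx hx0 hzy h2 with h3 | h3
      · refine not_mem_K0 h.hbc ?_ h3
        push_cast
        rw [mul_pow, hy, hz]
        ring
      · refine not_mem_K0 h.habc ?_ h3
        push_cast
        rw [mul_pow, mul_pow, hx, hy, hz]
        ring
  have m1 : ∀ p q : ℤ, (p : ℝ) + q * x ∈ quad K0 x hxx := fun p q =>
    mem_quad hxx (int_mem_K0 p) (int_mem_K0 q)
  rw [F_eq] at hF
  obtain ⟨h1, h2⟩ := ind_quad hz2 (mem_quad hyy1 (m1 _ _) (m1 _ _))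
    (mem_quad hyy1 (m1 _ _) (m1 _ _)) hF
  obtain ⟨h3, h4⟩ := ind_quad hy1 (m1 _ _) (m1 _ _) h1
  obtain ⟨h5, h6⟩ := ind_quad hy1 (m1 _ _) (m1 _ _) h2
  obtain ⟨e1, e2⟩ := ind_quad hx0 (int_mem_K0 _) (int_mem_K0 _) h3
  obtain ⟨e3, e4⟩ := ind_quad hx0 (int_mem_K0 _) (int_mem_K0 _) h4
  obtain ⟨e5, e6⟩ := ind_quad hx0 (int_mem_K0 _) (int_mem_K0 _) h5
  obtain ⟨e7, e8⟩ := ind_quad hx0 (int_mem_K0 _) (int_mem_K0 _) h6
  have c1 : n 0 0 0 = 0 := by exact_mod_cast e1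
  have c2 : n 1 0 0 = 0 := by exact_mod_cast e2
  have c3 : n 0 1 0 = 0 := by exact_mod_cast e3
  have c4 : n 1 1 0 = 0 := by exact_mod_cast e4
  have c5 : n 0 0 1 = 0 := by exact_mod_cast e5
  have c6 : n 1 0 1 = 0 := by exact_mod_cast e6
  have c7 : n 0 1 1 = 0 := by exact_mod_cast e7
  have c8 : n 1 1 1 = 0 := by exact_mod_cast e8
  funext i j k
  fin_cases i <;> fin_cases j <;> fin_cases k <;> simp_all

theorem F_prod_int {a b c : ℕ} {x y z : ℝ} (hx : x ^ 2 = a) (hy : y ^ 2 = b)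
    (hz : z ^ 2 = c) (n : Fin 2 → Fin 2 → Fin 2 → ℤ) :
    ∃ m : ℤ, (m : ℝ) = (F n x y z * F n x y (-z)) * (F n x (-y) z * F n x (-y) (-z)) *
      ((F n (-x) y z * F n (-x) y (-z)) * (F n (-x) (-y) z * F n (-x) (-y) (-z))) := by
  -- first step
  set u0 := n 0 0 0
  set u1 := n 1 0 0
  set u2 := n 0 1 0
  set u3 := n 1 1 0
  set v0 := n 0 0 1
  set v1 := n 1 0 1
  set v2 := n 0 1 1
  set v3 := n 1 1 1
  obtain ⟨w0, hw0⟩ : ∃ w : ℤ, w = (u0 ^ 2 + a * u1 ^ 2 + b * u2 ^ 2 + a * b * u3 ^ 2) -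
    c * (v0 ^ 2 + a * v1 ^ 2 + b * v2 ^ 2 + a * b * v3 ^ 2) := ⟨_, rfl⟩
  obtain ⟨w1, hw1⟩ : ∃ w : ℤ, w = (2 * u0 * u1 + 2 * b * u2 * u3) -
    c * (2 * v0 * v1 + 2 * b * v2 * v3) := ⟨_, rfl⟩
  obtain ⟨w2, hw2⟩ : ∃ w : ℤ, w = (2 * u0 * u2 + 2 * a * u1 * u3) -
    c * (2 * v0 * v2 + 2 * a * v1 * v3) := ⟨_, rfl⟩
  obtain ⟨w3, hw3⟩ : ∃ w : ℤ, w = (2 * u0 * u3 + 2 * u1 * u2) -
    c * (2 * v0 * v3 + 2 * v1 * v2) := ⟨_, rfl⟩
  have s1 : ∀ x y : ℝ, x ^ 2 = a → y ^ 2 = b → F n x y z * F n x y (-z) =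
      (w0 + w1 * x) + (w2 + w3 * x) * y := by
    intro x y hx hy
    rw [F_eq, F_eq, hw0, hw1, hw2, hw3]
    push_cast
    rw [← hx, ← hy, ← hz]
    ring
  obtain ⟨r0, hr0⟩ : ∃ r : ℤ, r = (w0 ^ 2 + a * w1 ^ 2) - b * (w2 ^ 2 + a * w3 ^ 2) := ⟨_, rfl⟩
  obtain ⟨r1, hr1⟩ : ∃ r : ℤ, r = 2 * w0 * w1 - b * (2 * w2 * w3) := ⟨_, rfl⟩
  have s2 : ∀ x : ℝ, x ^ 2 = a → (F n x y z * F n x y (-z)) * (F n x (-y) z * F n x (-y) (-z)) =
      r0 + r1 * x := by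
    intro x hx
    rw [s1 x y hx hy, s1 x (-y) hx (by rw [neg_sq]; exact hy), hr0, hr1]
    push_cast
    rw [← hx, ← hy]
    ring
  refine ⟨r0 ^ 2 - a * r1 ^ 2, ?_⟩
  rw [s2 x hx, s2 (-x) (by rw [neg_sq]; exact hx)]
  push_cast
  rw [← hx]
  ring

/-- Lower bound for a sum of square roots. -/
theorem liou {a b c : ℕ} (h : Ind a b c) (n : Fin 2 → Fin 2 → Fin 2 → ℤ) (hn : n ≠ 0) {M : ℝ}
    (hM : ∑ i, ∑ j, ∑ k, |(n i j k : ℝ)| * √a ^ (i : ℕ) * √b ^ (j : ℕ) * √c ^ (k : ℕ) ≤ M) :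
    1 ≤ |F n √a √b √c| * M ^ 7 := by
  have hx : √(a : ℝ) ^ 2 = a := Real.sq_sqrt (Nat.cast_nonneg _)
  have hy : √(b : ℝ) ^ 2 = b := Real.sq_sqrt (Nat.cast_nonneg _)
  have hz : √(c : ℝ) ^ 2 = c := Real.sq_sqrt (Nat.cast_nonneg _)
  have hbd : ∀ x y z : ℝ, |x| = √a → |y| = √b → |z| = √c → |F n x y z| ≤ M := by
    intro x y z h1 h2 h3
    refine le_trans ?_ hM
    unfold F
    refine (abs_sum_le_sum_abs _ _).trans (sum_le_sum fun i _ => ?_)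
    refine (abs_sum_le_sum_abs _ _).trans (sum_le_sum fun j _ => ?_)
    refine (abs_sum_le_sum_abs _ _).trans (sum_le_sum fun k _ => ?_)
    rw [abs_mul, abs_mul, abs_mul, abs_pow, abs_pow, abs_pow, h1, h2, h3]
  have hax : |√(a : ℝ)| = √a := abs_of_nonneg (Real.sqrt_nonneg _)
  have hay : |√(b : ℝ)| = √b := abs_of_nonneg (Real.sqrt_nonneg _)
  have haz : |√(c : ℝ)| = √c := abs_of_nonneg (Real.sqrt_nonneg _)
  have hax' : |-√(a : ℝ)| = √a := by rw [abs_neg]; exact hax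
  have hay' : |-√(b : ℝ)| = √b := by rw [abs_neg]; exact hay
  have haz' : |-√(c : ℝ)| = √c := by rw [abs_neg]; exact haz
  have hx' : (-√(a : ℝ)) ^ 2 = a := by rw [neg_sq]; exact hx
  have hy' : (-√(b : ℝ)) ^ 2 = b := by rw [neg_sq]; exact hy
  have hz' : (-√(c : ℝ)) ^ 2 = c := by rw [neg_sq]; exact hz
  obtain ⟨m, hm⟩ := F_prod_int hx hy hz n
  have hm0 : m ≠ 0 := by
    intro h0
    rw [h0, Int.cast_zero] at hm
    have hm := hm.symm
    simp only [mul_eq_zero] at hm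
    rcases hm with ((h1 | h1) | (h1 | h1)) | ((h1 | h1) | (h1 | h1))
    · exact hn (F_zero h hx hy hz h1)
    · exact hn (F_zero h hx hy hz' h1)
    · exact hn (F_zero h hx hy' hz h1)
    · exact hn (F_zero h hx hy' hz' h1)
    · exact hn (F_zero h hx' hy hz h1)
    · exact hn (F_zero h hx' hy hz' h1)
    · exact hn (F_zero h hx' hy' hz h1)
    · exact hn (F_zero h hx' hy' hz' h1)
  have h1 : (1 : ℝ) ≤ |(m : ℝ)| := by exact_mod_cast Int.one_le_abs hm0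
  rw [hm] at h1
  have hM0 : 0 ≤ M := (abs_nonneg _).trans (hbd _ _ _ hax hay haz)
  refine h1.trans ?_
  simp only [abs_mul]
  have key : ∀ {p q P Q : ℝ}, 0 ≤ p → 0 ≤ q → p ≤ P → q ≤ Q → p * q ≤ P * Q := by
    intro p q P Q hp hq h1 h2
    exact mul_le_mul h1 h2 hq (hp.trans h1)
  calc _ ≤ ((|F n √a √b √c| * M) * (M * M)) * ((M * M) * (M * M)) := by
        refine key (by positivity) (by positivity) (key (by positivity) (by positivity)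
          (key (abs_nonneg _) (abs_nonneg _) le_rfl (hbd _ _ _ hax hay haz'))
          (key (abs_nonneg _) (abs_nonneg _) (hbd _ _ _ hax hay' haz) (hbd _ _ _ hax hay' haz')))
          (key (by positivity) (by positivity)
          (key (abs_nonneg _) (abs_nonneg _) (hbd _ _ _ hax' hay haz) (hbd _ _ _ hax' hay haz'))
          (key (abs_nonneg _) (abs_nonneg _) (hbd _ _ _ hax' hay' haz)
            (hbd _ _ _ hax' hay' haz')))
    _ = |F n √a √b √c| * M ^ 7 := by ring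

end BK21
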