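import Pool.Agent.BK21.Interp
import Pool.Agent.BK21.Liou

/-!
# Setting for lower bounds of linear forms in three logarithms
-/

set_option autoImplicit false

namespace BK21

open Finset

/-- Sum over a box. -/
def bs {α : Type} [AddCommMonoid α] (n m : ℕ) (F : ℕ → ℕ → ℕ → α) : α :=
  ∑ i ∈ range n, ∑ j ∈ range n, ∑ k ∈ range m, F i j k

theorem sum_range_two_mul {α : Type} [AddCommMonoid α] (n : ℕ) (f : ℕ → α) :
    ∑ i ∈ range (2 * n), f i = ∑ e : Fin 2, ∑ i ∈ range n, f (2 * i + e) := by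
  rw [Fin.sum_univ_two]
  induction n with
  | zero => simp
  | succ n ih =>
    rw [show 2 * (n + 1) = 2 * n + 1 + 1 by ring, sum_range_succ, sum_range_succ, ih,
      sum_range_succ, sum_range_succ]
    simp only [Fin.val_zero, Fin.val_one, add_zero]
    abel

theorem bs_two {α : Type} [AddCommMonoid α] (n m : ℕ) (F : ℕ → ℕ → ℕ → α) :
    bs (2 * n) (2 * m) F = ∑ e₁ : Fin 2, ∑ e₂ : Fin 2, ∑ e₃ : Fin 2,
      bs n m (fun i j k => F (2 * i + e₁) (2 * j + e₂) (2 * k + e₃)) := by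
  unfold bs
  rw [sum_range_two_mul]
  refine sum_congr rfl fun e₁ _ => ?_
  simp only [sum_range_two_mul]
  rw [sum_comm]
  refine sum_congr rfl fun e₂ _ => ?_
  rw [sum_comm]
  have : ∀ j ∈ range n, ∑ i ∈ range n, ∑ e₃ : Fin 2, ∑ k ∈ range m,
      F (2 * i + e₁) (2 * j + e₂) (2 * k + e₃) = ∑ e₃ : Fin 2, ∑ i ∈ range n, ∑ k ∈ range m,
      F (2 * i + e₁) (2 * j + e₂) (2 * k + e₃) := fun j _ => sum_comm
  rw [sum_congr rfl this, sum_comm]
  refine sum_congr rfl fun e₃ _ => ?_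
  exact sum_comm

theorem bs_congr {α : Type} [AddCommMonoid α] {n m : ℕ} {F G : ℕ → ℕ → ℕ → α}
    (h : ∀ i < n, ∀ j < n, ∀ k < m, F i j k = G i j k) : bs n m F = bs n m G :=
  sum_congr rfl fun i hi => sum_congr rfl fun j hj => sum_congr rfl fun k hk =>
    h i (mem_range.1 hi) j (mem_range.1 hj) k (mem_range.1 hk)

theorem bs_mul_left (n m : ℕ) (c : ℝ) (F : ℕ → ℕ → ℕ → ℝ) :
    bs n m (fun i j k => c * F i j k) = c * bs n m F := by
  simp only [bs, mul_sum]

theorem bs_add (n m : ℕ) (F G : ℕ → ℕ → ℕ → ℝ) :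
    bs n m (fun i j k => F i j k + G i j k) = bs n m F + bs n m G := by
  simp only [bs, sum_add_distrib]

theorem bs_sub (n m : ℕ) (F G : ℕ → ℕ → ℕ → ℝ) :
    bs n m (fun i j k => F i j k - G i j k) = bs n m F - bs n m G := by
  simp only [bs, sum_sub_distrib]

theorem bs_sum {ι : Type} (n m : ℕ) (s : Finset ι) (F : ι → ℕ → ℕ → ℕ → ℝ) :
    bs n m (fun i j k => ∑ a ∈ s, F a i j k) = ∑ a ∈ s, bs n m (F a) := by
  classical
  induction s using Finset.induction_on with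
  | empty => simp [bs]
  | insert a s ha ih =>
    simp only [sum_insert ha]
    rw [bs_add, ih]

theorem bs_mono {n m : ℕ} {F G : ℕ → ℕ → ℕ → ℝ}
    (h : ∀ i < n, ∀ j < n, ∀ k < m, F i j k ≤ G i j k) : bs n m F ≤ bs n m G :=
  sum_le_sum fun i hi => sum_le_sum fun j hj => sum_le_sum fun k hk =>
    h i (mem_range.1 hi) j (mem_range.1 hj) k (mem_range.1 hk)

theorem abs_bs_le (n m : ℕ) (F : ℕ → ℕ → ℕ → ℝ) :
    |bs n m F| ≤ bs n m (fun i j k => |F i j k|) :=
  (abs_sum_le_sum_abs _ _).trans (sum_le_sum fun i _ => (abs_sum_le_sum_abs _ _).trans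
    (sum_le_sum fun j _ => abs_sum_le_sum_abs _ _))

theorem bs_const (n m : ℕ) (c : ℝ) : bs n m (fun _ _ _ => c) = (n * n * m : ℕ) * c := by
  simp only [bs, sum_const, card_range, nsmul_eq_mul]
  push_cast
  ring

theorem abs_bs_le_card {n m : ℕ} {F : ℕ → ℕ → ℕ → ℝ} {c : ℝ}
    (h : ∀ i < n, ∀ j < n, ∀ k < m, |F i j k| ≤ c) : |bs n m F| ≤ (n * n * m : ℕ) * c := by
  rw [← bs_const]
  exact (abs_bs_le _ _ _).trans (bs_mono h)

/-- Polynomial functions of degree at most `T` of two variables. -/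
def V (T : ℕ) : Submodule ℝ (ℝ → ℝ → ℝ) :=
  Submodule.span ℝ {f | ∃ i j, i + j ≤ T ∧ f = fun u v => u ^ i * v ^ j}

theorem V_mono {T T' : ℕ} (h : T ≤ T') : V T ≤ V T' := by
  apply Submodule.span_mono
  rintro f ⟨i, j, hij, rfl⟩
  exact ⟨i, j, hij.trans h, rfl⟩

theorem mono_mem_V {i j T : ℕ} (h : i + j ≤ T) : (fun u v : ℝ => u ^ i * v ^ j) ∈ V T :=
  Submodule.subset_span ⟨i, j, h, rfl⟩

theorem V_mul {T T' : ℕ} {f g : ℝ → ℝ → ℝ} (hf : f ∈ V T) (hg : g ∈ V T') :
    (fun u v => f u v * g u v) ∈ V (T + T') := by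
  induction hf using Submodule.span_induction with
  | mem f hf =>
    obtain ⟨i, j, hij, rfl⟩ := hf
    induction hg using Submodule.span_induction with
    | mem g hg =>
      obtain ⟨i', j', hij', rfl⟩ := hg
      have : (fun u v : ℝ => u ^ i * v ^ j * (u ^ i' * v ^ j')) =
          fun u v => u ^ (i + i') * v ^ (j + j') := by
        funext u v
        ring
      rw [this]
      exact mono_mem_V (by omega)
    | zero =>
      have : (fun u v : ℝ => u ^ i * v ^ j * (0 : ℝ → ℝ → ℝ) u v) = 0 := by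
        funext u v
        simp
      rw [this]
      exact Submodule.zero_mem _
    | add g g' _ _ h h' =>
      have : (fun u v : ℝ => u ^ i * v ^ j * (g + g') u v) =
          (fun u v : ℝ => u ^ i * v ^ j * g u v) + fun u v : ℝ => u ^ i * v ^ j * g' u v := by
        funext u v
        simp [mul_add]
      rw [this]
      exact Submodule.add_mem _ h h'
    | smul c g _ h =>
      have : (fun u v : ℝ => u ^ i * v ^ j * (c • g) u v) =
          c • fun u v : ℝ => u ^ i * v ^ j * g u v := by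
        funext u v
        simp
        ring
      rw [this]
      exact Submodule.smul_mem _ _ h
  | zero =>
    have : (fun u v : ℝ => (0 : ℝ → ℝ → ℝ) u v * g u v) = 0 := by
      funext u v
      simp
    rw [this]
    exact Submodule.zero_mem _
  | add f f' _ _ h h' =>
    have : (fun u v : ℝ => (f + f') u v * g u v) =
        (fun u v : ℝ => f u v * g u v) + fun u v : ℝ => f' u v * g u v := by
      funext u v
      simp [add_mul]
    rw [this]
    exact Submodule.add_mem _ h h'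
  | smul c f _ h =>
    have : (fun u v : ℝ => (c • f) u v * g u v) = c • fun u v : ℝ => f u v * g u v := by
      funext u v
      simp
      ring
    rw [this]
    exact Submodule.smul_mem _ _ h

theorem V_lin (α β γ : ℝ) : (fun u v => α * u + β * v + γ) ∈ V 1 := by
  have : (fun u v : ℝ => α * u + β * v + γ) = α • (fun u v : ℝ => u ^ 1 * v ^ 0) +
      β • (fun u v : ℝ => u ^ 0 * v ^ 1) + γ • (fun u v : ℝ => u ^ 0 * v ^ 0) := by
    funext u v
    simp
  rw [this]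
  exact Submodule.add_mem _ (Submodule.add_mem _ (Submodule.smul_mem _ _ (mono_mem_V (by norm_num)))
    (Submodule.smul_mem _ _ (mono_mem_V (by norm_num))))
    (Submodule.smul_mem _ _ (mono_mem_V (by norm_num)))

theorem V_pow {f : ℝ → ℝ → ℝ} (hf : f ∈ V 1) (n : ℕ) : (fun u v => f u v ^ n) ∈ V n := by
  induction n with
  | zero =>
    have : (fun u v : ℝ => f u v ^ 0) = fun u v : ℝ => u ^ 0 * v ^ 0 := by
      funext u v
      simp
    rw [this]
    exact mono_mem_V le_rfl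
  | succ n ih =>
    have : (fun u v : ℝ => f u v ^ (n + 1)) = fun u v => f u v ^ n * f u v := by
      funext u v
      ring
    rw [this]
    exact V_mul ih hf

theorem V_comp {T : ℕ} {f : ℝ → ℝ → ℝ} (hf : f ∈ V T) (a b c : ℝ) :
    (fun u v => f (a * u + b) (a * v + c)) ∈ V T := by
  induction hf using Submodule.span_induction with
  | mem f hf =>
    obtain ⟨i, j, hij, rfl⟩ := hf
    have h1 := V_pow (V_lin a 0 b) i
    have h2 := V_pow (V_lin 0 a c) j
    have h3 := V_mono hij (V_mul h1 h2)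
    have : (fun u v : ℝ => (a * u + b) ^ i * (a * v + c) ^ j) =
        fun u v => (a * u + 0 * v + b) ^ i * (0 * u + a * v + c) ^ j := by
      funext u v
      ring
    rw [this]
    exact h3
  | zero => exact Submodule.zero_mem _
  | add f f' _ _ h h' => exact Submodule.add_mem _ h h'
  | smul c f _ h => exact Submodule.smul_mem _ _ h

/-- The data of a linear form. -/
structure Dat where
  P : ℕ
  Q : ℕ
  A : ℕ
  B : ℕ
  b : ℤ
  x : ℤ
  y : ℤ
  hP : 2 ≤ P
  hQ : 2 ≤ Q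
  hA : 1 ≤ A
  hB : 1 ≤ B
  hb : b ≠ 0
  hind : Ind P Q (A * B)

namespace Dat

variable (d : Dat)

/-- The numbers. -/
noncomputable def W (i j k : ℕ) : ℝ := (d.P : ℝ) ^ i * (d.Q : ℝ) ^ j * ((d.A : ℝ) / d.B) ^ k

/-- First integer. -/
def m1 (i k : ℕ) : ℤ := d.b * i - d.x * k

/-- Second integer. -/
def m2 (j k : ℕ) : ℤ := d.b * j - d.y * k

/-- The linear form. -/
noncomputable def Lam : ℝ :=
  d.b * Real.log ((d.A : ℝ) / d.B) + d.x * Real.log d.P + d.y * Real.log d.Q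

/-- The frequencies. -/
noncomputable def om (i j k : ℕ) : ℝ :=
  (d.m1 i k * Real.log d.P + d.m2 j k * Real.log d.Q) / d.b

theorem P_pos : (0 : ℝ) < d.P := by
  have := d.hP
  exact_mod_cast (by omega : 0 < d.P)

theorem Q_pos : (0 : ℝ) < d.Q := by
  have := d.hQ
  exact_mod_cast (by omega : 0 < d.Q)

theorem A_pos : (0 : ℝ) < d.A := by exact_mod_cast d.hA

theorem B_pos : (0 : ℝ) < d.B := by exact_mod_cast d.hB

theorem AB_pos : (0 : ℝ) < (d.A : ℝ) / d.B := div_pos d.A_pos d.B_pos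

theorem W_pos (i j k : ℕ) : 0 < d.W i j k := by
  have := d.P_pos
  have := d.Q_pos
  have := d.AB_pos
  unfold W
  positivity

theorem log_W (i j k : ℕ) : Real.log (d.W i j k) =
    i * Real.log d.P + j * Real.log d.Q + k * Real.log ((d.A : ℝ) / d.B) := by
  have h1 := d.P_pos
  have h2 := d.Q_pos
  have h3 := d.AB_pos
  unfold W
  rw [Real.log_mul (by positivity) (by positivity), Real.log_mul (by positivity) (by positivity),
    Real.log_pow, Real.log_pow, Real.log_pow]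

theorem om_eq (i j k : ℕ) : d.om i j k = Real.log (d.W i j k) - k * (d.Lam / d.b) := by
  have hb : (d.b : ℝ) ≠ 0 := by exact_mod_cast d.hb
  rw [log_W]
  unfold om m1 m2 Lam
  push_cast
  field_simp
  ring

theorem exp_log_W (i j k n : ℕ) : d.W i j k ^ n = Real.exp (n * Real.log (d.W i j k)) := by
  rw [Real.exp_nat_mul, Real.exp_log (d.W_pos i j k)]

/-- Comparison of the two exponentials. -/
theorem exp_diff {i j k : ℕ} {w ρ Ω : ℝ} {m : ℕ} (hw0 : 0 ≤ w) (hw : w ≤ ρ) (hk : k ≤ m)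
    (hΩ : |d.om i j k| ≤ Ω) (hsm : ρ * m * |d.Lam| ≤ 1) :
    |Real.exp (w * d.om i j k) - Real.exp (w * Real.log (d.W i j k))| ≤
      Real.exp (ρ * Ω) * (2 * (ρ * m * |d.Lam|)) := by
  have hb : (1 : ℝ) ≤ |(d.b : ℝ)| := by exact_mod_cast Int.one_le_abs d.hb
  have hρ : 0 ≤ ρ := hw0.trans hw
  have hk' : (k : ℝ) ≤ m := by exact_mod_cast hk
  have hk0 : (0 : ℝ) ≤ k := Nat.cast_nonneg k
  set s : ℝ := w * (k * (d.Lam / d.b)) with hs
  have h1 : w * Real.log (d.W i j k) = w * d.om i j k + s := by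
    rw [om_eq, hs]
    ring
  have h2 : |s| ≤ ρ * m * |d.Lam| := by
    rw [hs, abs_mul, abs_mul, abs_div, abs_of_nonneg hw0, abs_of_nonneg hk0]
    have h3 : |d.Lam| / |(d.b : ℝ)| ≤ |d.Lam| := div_le_self (abs_nonneg _) hb
    calc w * (k * (|d.Lam| / |(d.b : ℝ)|)) ≤ ρ * (m * |d.Lam|) := by
          refine mul_le_mul hw (mul_le_mul hk' h3 (by positivity) (by positivity))
            (by positivity) hρ
      _ = ρ * m * |d.Lam| := by ring
  rw [h1, Real.exp_add]
  have h4 : Real.exp (w * d.om i j k) - Real.exp (w * d.om i j k) * Real.exp s =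
      -(Real.exp (w * d.om i j k) * (Real.exp s - 1)) := by ring
  rw [h4, abs_neg, abs_mul, abs_of_pos (Real.exp_pos _)]
  refine mul_le_mul ?_ ?_ (abs_nonneg _) (Real.exp_pos _).le
  · apply Real.exp_le_exp.2
    calc w * d.om i j k ≤ w * Ω := mul_le_mul_of_nonneg_left ((le_abs_self _).trans hΩ) hw0
      _ ≤ ρ * Ω := mul_le_mul_of_nonneg_right hw ((abs_nonneg _).trans hΩ)
  · refine (Real.abs_exp_sub_one_le (h2.trans hsm)).trans ?_
    linarith

theorem om_V (t : ℕ) : (fun u v : ℝ => ((u * Real.log d.P + v * Real.log d.Q) / d.b) ^ t) ∈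
    V t := by
  have h := V_pow (V_lin (Real.log d.P / d.b) (Real.log d.Q / d.b) 0) t
  have : (fun u v : ℝ => ((u * Real.log d.P + v * Real.log d.Q) / d.b) ^ t) =
      fun u v => (Real.log d.P / d.b * u + Real.log d.Q / d.b * v + 0) ^ t := by
    funext u v
    ring
  rw [this]
  exact h

/-- The values at half integers. -/
noncomputable def cc (l : ℕ) (e₁ e₂ e₃ : ℕ) : ℝ :=
  ((d.P : ℝ) ^ l * √(d.P : ℝ)) ^ e₁ * ((d.Q : ℝ) ^ l * √(d.Q : ℝ)) ^ e₂ *
    (((d.A * d.B : ℕ) : ℝ) ^ l * √((d.A * d.B : ℕ) : ℝ) / (d.B : ℝ) ^ (2 * l + 1)) ^ e₃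

theorem cc_nonneg (l e₁ e₂ e₃ : ℕ) : 0 ≤ d.cc l e₁ e₂ e₃ := by
  have h1 := d.P_pos
  have h2 := d.Q_pos
  have h3 := d.B_pos
  unfold cc
  positivity

theorem half_pow (l i j k e₁ e₂ e₃ : ℕ) :
    Real.exp ((2 * l + 1) / 2 * Real.log (d.W (2 * i + e₁) (2 * j + e₂) (2 * k + e₃))) =
      d.cc l e₁ e₂ e₃ * d.W i j k ^ (2 * l + 1) := by
  have h1 := d.P_pos
  have h2 := d.Q_pos
  have h3 := d.B_pos
  have h4 := d.A_pos
  have h5 := d.AB_pos
  have sP : √(d.P : ℝ) ^ 2 = d.P := Real.sq_sqrt h1.le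
  have sQ : √(d.Q : ℝ) ^ 2 = d.Q := Real.sq_sqrt h2.le
  have hAB : (((d.A * d.B : ℕ) : ℝ)) = (d.A : ℝ) * d.B := by push_cast; ring
  have sAB : √((d.A * d.B : ℕ) : ℝ) ^ 2 = (d.A : ℝ) * d.B := by
    rw [Real.sq_sqrt (Nat.cast_nonneg _), hAB]
  set g := √(d.P : ℝ)
  set h := √(d.Q : ℝ)
  set s := √((d.A * d.B : ℕ) : ℝ)
  have hg : 0 < g := Real.sqrt_pos.2 h1
  have hh : 0 < h := Real.sqrt_pos.2 h2
  have hs : 0 < s := Real.sqrt_pos.2 (by rw [hAB]; positivity)
  set X := d.W (2 * i + e₁) (2 * j + e₂) (2 * k + e₃) with hX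
  have hXpos : 0 < X := d.W_pos _ _ _
  set Z := d.W i j k * (g ^ e₁ * h ^ e₂ * (s / d.B) ^ e₃) with hZ
  have hZpos : 0 < Z := by
    have := d.W_pos i j k
    positivity
  have hsB : (s / d.B) ^ 2 = (d.A : ℝ) / d.B := by
    rw [div_pow, sAB]
    field_simp
  have hZX : Z ^ 2 = X := by
    rw [hZ, hX]
    unfold W
    have e1 : ((g ^ e₁ * h ^ e₂ * (s / d.B) ^ e₃)) ^ 2 =
        (g ^ 2) ^ e₁ * (h ^ 2) ^ e₂ * ((s / d.B) ^ 2) ^ e₃ := by
      rw [mul_pow, mul_pow, ← pow_mul, ← pow_mul, ← pow_mul, ← pow_mul, ← pow_mul, ← pow_mul,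
        mul_comm e₁, mul_comm e₂, mul_comm e₃]
    rw [mul_pow, e1, sP, sQ, hsB]
    ring
  have h6 : Real.log X = 2 * Real.log Z := by
    rw [← hZX, Real.log_pow]
    norm_num
  have h7 : Real.exp ((2 * l + 1) / 2 * Real.log X) = Z ^ (2 * l + 1) := by
    rw [h6, show (2 * (l : ℝ) + 1) / 2 * (2 * Real.log Z) = ((2 * l + 1 : ℕ) : ℝ) * Real.log Z by
      push_cast; ring, Real.exp_nat_mul, Real.exp_log hZpos]
  rw [h7, hZ, mul_pow, mul_comm]
  congr 1
  unfold cc
  have e2 : ∀ r : ℝ, r ^ (2 * l + 1) = (r ^ 2) ^ l * r := fun r => by rw [pow_succ, pow_mul]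
  rw [mul_pow, mul_pow, ← pow_mul, ← pow_mul, ← pow_mul, mul_comm e₁, mul_comm e₂, mul_comm e₃,
    pow_mul, pow_mul, pow_mul, e2 g, e2 h, sP, sQ, div_pow, e2 s, sAB, ← hAB]

end Dat

end BK21
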