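import Pool.Agent.BK21.Basic

/-!
# One step of the descent
-/

set_option autoImplicit false

namespace BK21

open Finset

namespace Dat

variable (d : Dat)

theorem cc_pos (l e₁ e₂ e₃ : ℕ) : 0 < d.cc l e₁ e₂ e₃ := by
  have h1 := d.P_pos
  have h2 := d.Q_pos
  have h3 := d.B_pos
  have h4 := d.A_pos
  have h5 : (0 : ℝ) < ((d.A * d.B : ℕ) : ℝ) := by
    push_cast
    positivity
  unfold cc
  have := Real.sqrt_pos.2 h1
  have := Real.sqrt_pos.2 h2
  have := Real.sqrt_pos.2 h5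
  positivity

/-- Integers attached to the parity classes. -/
def Nz (n m l : ℕ) (g : ℕ → ℕ → ℕ → ℤ) (e₁ e₂ e₃ : Fin 2) : ℤ :=
  ((d.P : ℤ) ^ l) ^ (e₁ : ℕ) * ((d.Q : ℤ) ^ l) ^ (e₂ : ℕ) *
    (((d.A * d.B : ℕ) : ℤ) ^ l) ^ (e₃ : ℕ) *
    bs n m (fun i j k => g (2 * i + e₁) (2 * j + e₂) (2 * k + e₃) *
      ((d.P : ℤ) ^ ((2 * l + 1) * i) * (d.Q : ℤ) ^ ((2 * l + 1) * j) *
        (d.A : ℤ) ^ ((2 * l + 1) * k) * (d.B : ℤ) ^ ((2 * l + 1) * (m - e₃ - k))))

theorem cast_bs (n m : ℕ) (g : ℕ → ℕ → ℕ → ℤ) :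
    ((bs n m g : ℤ) : ℝ) = bs n m (fun i j k => (g i j k : ℝ)) := by
  simp only [bs, Int.cast_sum]

theorem Nz_cast (n m l : ℕ) (g : ℕ → ℕ → ℕ → ℤ) (e₁ e₂ e₃ : Fin 2) :
    (d.Nz n m l g e₁ e₂ e₃ : ℝ) * √(d.P : ℝ) ^ (e₁ : ℕ) * √(d.Q : ℝ) ^ (e₂ : ℕ) *
      √((d.A * d.B : ℕ) : ℝ) ^ (e₃ : ℕ) = (d.B : ℝ) ^ ((2 * l + 1) * m) *
      (d.cc l e₁ e₂ e₃ * bs n m (fun i j k => (g (2 * i + e₁) (2 * j + e₂) (2 * k + e₃) : ℝ) *
        d.W i j k ^ (2 * l + 1))) := by
  have hB := d.B_pos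
  have hBq : (0 : ℝ) < (d.B : ℝ) ^ (2 * l + 1) := by positivity
  have h1 : ((bs n m (fun i j k => g (2 * i + e₁) (2 * j + e₂) (2 * k + e₃) *
      ((d.P : ℤ) ^ ((2 * l + 1) * i) * (d.Q : ℤ) ^ ((2 * l + 1) * j) *
        (d.A : ℤ) ^ ((2 * l + 1) * k) * (d.B : ℤ) ^ ((2 * l + 1) * (m - e₃ - k)))) : ℤ) : ℝ) *
      ((d.B : ℝ) ^ (2 * l + 1)) ^ (e₃ : ℕ) = (d.B : ℝ) ^ ((2 * l + 1) * m) *
      bs n m (fun i j k => (g (2 * i + e₁) (2 * j + e₂) (2 * k + e₃) : ℝ) *
        d.W i j k ^ (2 * l + 1)) := by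
    rw [cast_bs, mul_comm, ← bs_mul_left, ← bs_mul_left]
    refine bs_congr fun i _ j _ k hk => ?_
    have he : (e₃ : ℕ) ≤ 1 := by omega
    have hm : m = (m - e₃ - k) + e₃ + k := by omega
    have h2 : (d.B : ℝ) ^ ((2 * l + 1) * m) = (d.B : ℝ) ^ ((2 * l + 1) * (m - e₃ - k)) *
        ((d.B : ℝ) ^ (2 * l + 1)) ^ (e₃ : ℕ) * ((d.B : ℝ) ^ k) ^ (2 * l + 1) := by
      rw [← pow_mul, ← pow_mul, ← pow_add, ← pow_add]
      congr 1
      conv_lhs => rw [hm]
      ring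
    rw [h2]
    unfold W
    push_cast
    rw [mul_pow, mul_pow, div_pow, div_pow, ← pow_mul, ← pow_mul]
    have h3 : ((d.B : ℝ) ^ k) ^ (2 * l + 1) ≠ 0 := by positivity
    field_simp
    ring
  unfold Nz cc
  rw [div_pow]
  have h4 : ((d.B : ℝ) ^ (2 * l + 1)) ^ (e₃ : ℕ) ≠ 0 := by positivity
  have h5 : ((bs n m (fun i j k => g (2 * i + e₁) (2 * j + e₂) (2 * k + e₃) *
      ((d.P : ℤ) ^ ((2 * l + 1) * i) * (d.Q : ℤ) ^ ((2 * l + 1) * j) *
        (d.A : ℤ) ^ ((2 * l + 1) * k) * (d.B : ℤ) ^ ((2 * l + 1) * (m - e₃ - k)))) : ℤ) : ℝ) =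
      (d.B : ℝ) ^ ((2 * l + 1) * m) *
      bs n m (fun i j k => (g (2 * i + e₁) (2 * j + e₂) (2 * k + e₃) : ℝ) *
        d.W i j k ^ (2 * l + 1)) / ((d.B : ℝ) ^ (2 * l + 1)) ^ (e₃ : ℕ) := by
    rw [← h1, mul_div_assoc, div_self h4, mul_one]
  rw [Int.cast_mul, h5]
  push_cast
  rw [mul_pow, mul_pow, mul_pow]
  ring

theorem core {n m M T R : ℕ} (p : ℕ → ℕ → ℕ → ℤ) (hR : 0 < R) (hMT : M ≤ T)
    {H μ S Y Ω Ω₁ : ℝ} (hμ : 1 ≤ μ)
    (hvan : ∀ f ∈ V T, ∀ l < R, bs (2 * n) (2 * m) (fun i j k =>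
      (p i j k : ℝ) * f (d.m1 i k) (d.m2 j k) * d.W i j k ^ (2 * l + 1)) = 0)
    (hp : ∀ i < 2 * n, ∀ j < 2 * n, ∀ k < 2 * m, |(p i j k : ℝ)| ≤ H)
    (h1 : ∀ i < 2 * n, ∀ k < 2 * m, |(d.m1 i k : ℝ)| ≤ μ)
    (h2 : ∀ j < 2 * n, ∀ k < 2 * m, |(d.m2 j k : ℝ)| ≤ μ)
    (hom : ∀ i < 2 * n, ∀ j < 2 * n, ∀ k < 2 * m, |d.om i j k| ≤ Ω)
    (hlW : ∀ i < 2 * n, ∀ j < 2 * n, ∀ k < 2 * m, |Real.log (d.W i j k)| ≤ Ω)
    (hΩ₁ : 1 ≤ Ω₁) (hΩΩ : Ω ≤ Ω₁) (hΩ0 : 0 ≤ Ω)
    (hS : ((2 * n) * (2 * n) * (2 * m) : ℕ) * (H * μ ^ T) ≤ Real.exp S)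
    (hY : 2 * R * Ω ≤ Y)
    (hB : (d.B : ℝ) ^ (4 * R * m) ≤ Real.exp Y)
    (hsm : (2 * R : ℝ) * (2 * m : ℕ) * |d.Lam| ≤ 1)
    (hsmall : Real.exp (8 * S + 15 * Y) * (Y ^ (R * M) / (R * M).factorial * Real.exp Y +
      ((R * M : ℕ) * (2 * R) ^ (R * M) * Ω₁ ^ M + 1) *
        (Real.exp Y * (2 * ((2 * R : ℝ) * (2 * m : ℕ) * |d.Lam|)))) < 1)
    {i0 j0 l : ℕ} (hij : i0 + j0 ≤ T - M) (hl : l < 2 * R) (e₁ e₂ e₃ : Fin 2) :
    bs n m (fun i j k => (p (2 * i + e₁) (2 * j + e₂) (2 * k + e₃) : ℝ) *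
      ((d.m1 (2 * i + e₁) (2 * k + e₃) : ℝ) ^ i0 * (d.m2 (2 * j + e₂) (2 * k + e₃) : ℝ) ^ j0) *
        d.W i j k ^ (2 * l + 1)) = 0 := by
  classical
  set g : ℕ → ℕ → ℕ → ℤ := fun i j k => p i j k * (d.m1 i k ^ i0 * d.m2 j k ^ j0) with hg
  set G : ℕ → ℕ → ℕ → ℝ := fun i j k => (g i j k : ℝ) with hG
  have hGe : ∀ i j k, G i j k = (p i j k : ℝ) * ((d.m1 i k : ℝ) ^ i0 * (d.m2 j k : ℝ) ^ j0) := by
    intro i j k
    simp only [hG, hg]
    push_cast
    ring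
  have hcard0 : (0 : ℝ) ≤ ((2 * n) * (2 * n) * (2 * m) : ℕ) := Nat.cast_nonneg _
  have hY0 : 0 ≤ Y := le_trans (by positivity) hY
  have hGb : ∀ i < 2 * n, ∀ j < 2 * n, ∀ k < 2 * m, |G i j k| ≤ H * μ ^ T := by
    intro i hi j hj k hk
    have hH : 0 ≤ H := (abs_nonneg _).trans (hp i hi j hj k hk)
    rw [hGe, abs_mul, abs_mul, abs_pow, abs_pow]
    refine mul_le_mul (hp i hi j hj k hk) ?_ (by positivity) hH
    calc |(d.m1 i k : ℝ)| ^ i0 * |(d.m2 j k : ℝ)| ^ j0 ≤ μ ^ i0 * μ ^ j0 :=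
          mul_le_mul (pow_le_pow_left₀ (abs_nonneg _) (h1 i hi k hk) _)
            (pow_le_pow_left₀ (abs_nonneg _) (h2 j hj k hk) _) (by positivity) (by positivity)
      _ = μ ^ (i0 + j0) := (pow_add _ _ _).symm
      _ ≤ μ ^ T := pow_le_pow_right₀ hμ (by omega)
  have hsumle : ∀ (E : ℕ → ℕ → ℕ → ℝ) (C : ℝ), 0 ≤ C →
      (∀ i < 2 * n, ∀ j < 2 * n, ∀ k < 2 * m, |E i j k| ≤ C) →
      |bs (2 * n) (2 * m) (fun i j k => G i j k * E i j k)| ≤ Real.exp S * C := by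
    intro E C hC hE
    refine (abs_bs_le_card (c := H * μ ^ T * C) fun i hi j hj k hk => ?_).trans ?_
    · rw [abs_mul]
      exact mul_le_mul (hGb i hi j hj k hk) (hE i hi j hj k hk) (abs_nonneg _)
        ((abs_nonneg _).trans (hGb i hi j hj k hk))
    · calc ((2 * n) * (2 * n) * (2 * m) : ℕ) * (H * μ ^ T * C)
          = ((2 * n) * (2 * n) * (2 * m) : ℕ) * (H * μ ^ T) * C := by ring
        _ ≤ Real.exp S * C := mul_le_mul_of_nonneg_right hS hC
  set q : ℕ := 2 * l + 1 with hq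
  set w : ℝ := (2 * l + 1) / 2 with hw
  have hw0 : 0 ≤ w := by positivity
  have hwR : w ≤ 2 * R := by
    rw [hw]
    have : (l : ℝ) + 1 ≤ 2 * R := by exact_mod_cast hl
    linarith
  obtain ⟨c, hc1, hc2⟩ := interp (n := R) (M := M) hR hw0 hwR
  set N : ℕ := R * M with hN
  set δ : ℝ := 2 * ((2 * R : ℝ) * (2 * m : ℕ) * |d.Lam|) with hδ
  have hδ0 : 0 ≤ δ := by positivity
  have hYe : ∀ i < 2 * n, ∀ j < 2 * n, ∀ k < 2 * m, 2 * R * |d.om i j k| ≤ Y := by
    intro i hi j hj k hk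
    exact (mul_le_mul_of_nonneg_left (hom i hi j hj k hk) (by positivity)).trans hY
  have hexpY : Real.exp (2 * R * Ω) ≤ Real.exp Y := Real.exp_le_exp.2 hY
  -- first estimate
  have A1 : |bs (2 * n) (2 * m) (fun i j k => G i j k * Real.exp (w * d.om i j k)) -
      ∑ a ∈ range R, ∑ t ∈ range M, c a t * bs (2 * n) (2 * m) (fun i j k =>
        G i j k * (d.om i j k ^ t * Real.exp (node a * d.om i j k)))| ≤
      Real.exp S * (Y ^ N / N.factorial * Real.exp Y) := by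
    have e1 : ∑ a ∈ range R, ∑ t ∈ range M, c a t * bs (2 * n) (2 * m) (fun i j k =>
        G i j k * (d.om i j k ^ t * Real.exp (node a * d.om i j k))) =
        bs (2 * n) (2 * m) (fun i j k => G i j k * ∑ a ∈ range R, ∑ t ∈ range M,
          c a t * (d.om i j k ^ t * Real.exp (node a * d.om i j k))) := by
      have e2 : (fun i j k => G i j k * ∑ a ∈ range R, ∑ t ∈ range M,
          c a t * (d.om i j k ^ t * Real.exp (node a * d.om i j k))) =
          fun i j k => ∑ a ∈ range R, ∑ t ∈ range M,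
          c a t * (G i j k * (d.om i j k ^ t * Real.exp (node a * d.om i j k))) := by
        funext i j k
        rw [mul_sum]
        refine sum_congr rfl fun a _ => ?_
        rw [mul_sum]
        exact sum_congr rfl fun t _ => by ring
      rw [e2, bs_sum]
      refine sum_congr rfl fun a _ => ?_
      rw [bs_sum]
      refine sum_congr rfl fun t _ => ?_
      rw [bs_mul_left]
    rw [e1, ← bs_sub]
    have e3 : (fun i j k => G i j k * Real.exp (w * d.om i j k) - G i j k *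
        ∑ a ∈ range R, ∑ t ∈ range M, c a t * (d.om i j k ^ t * Real.exp (node a * d.om i j k))) =
        fun i j k => G i j k * (Real.exp (w * d.om i j k) - ∑ a ∈ range R, ∑ t ∈ range M,
          c a t * (d.om i j k ^ t * Real.exp (node a * d.om i j k))) := by
      funext i j k
      ring
    rw [e3]
    refine hsumle _ _ (by positivity) fun i hi j hj k hk => ?_
    refine (hc1 _).trans ?_
    have h3 := hYe i hi j hj k hk
    have h4 : 0 ≤ 2 * (R : ℝ) * |d.om i j k| := by positivity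
    refine mul_le_mul ?_ (Real.exp_le_exp.2 h3) (Real.exp_pos _).le (by positivity)
    exact div_le_div_of_nonneg_right (pow_le_pow_left₀ h4 h3 _) (by positivity)
  -- second estimate
  have A2 : ∀ a < R, ∀ t < M, |bs (2 * n) (2 * m) (fun i j k =>
      G i j k * (d.om i j k ^ t * Real.exp (node a * d.om i j k)))| ≤
      Real.exp S * (Ω₁ ^ M * (Real.exp Y * δ)) := by
    intro a ha t ht
    have hz : bs (2 * n) (2 * m) (fun i j k => G i j k * (d.om i j k ^ t *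
        Real.exp (node a * Real.log (d.W i j k)))) = 0 := by
      have hf := V_mono (show (i0 + j0) + t ≤ T by omega)
        (V_mul (mono_mem_V (T := i0 + j0) (le_refl (i0 + j0))) (d.om_V t))
      rw [← hvan _ hf a ha]
      refine bs_congr fun i _ j _ k _ => ?_
      rw [hGe, exp_log_W]
      unfold om node
      push_cast
      ring
    have e1 : bs (2 * n) (2 * m) (fun i j k => G i j k * (d.om i j k ^ t *
        Real.exp (node a * d.om i j k))) = bs (2 * n) (2 * m) (fun i j k => G i j k *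
          (d.om i j k ^ t * (Real.exp (node a * d.om i j k) -
            Real.exp (node a * Real.log (d.W i j k))))) := by
      rw [← sub_zero (bs _ _ _), ← hz, ← bs_sub]
      refine bs_congr fun i _ j _ k _ => ?_
      ring
    rw [e1]
    refine hsumle _ _ (by positivity) fun i hi j hj k hk => ?_
    rw [abs_mul, abs_pow]
    have hn0 : (0 : ℝ) ≤ node a := by
      unfold node
      positivity
    have hnR : node a ≤ 2 * R := by
      have := abs_node ha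
      rwa [abs_of_nonneg hn0] at this
    have h3 := d.exp_diff (i := i) (j := j) (k := k) hn0 hnR hk.le (hom i hi j hj k hk) hsm
    have h4 : |d.om i j k| ^ t ≤ Ω₁ ^ M := by
      calc |d.om i j k| ^ t ≤ Ω₁ ^ t :=
            pow_le_pow_left₀ (abs_nonneg _) ((hom i hi j hj k hk).trans hΩΩ) _
        _ ≤ Ω₁ ^ M := pow_le_pow_right₀ hΩ₁ ht.le
    refine mul_le_mul h4 (h3.trans ?_) (abs_nonneg _) (by positivity)
    exact mul_le_mul_of_nonneg_right hexpY hδ0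
  -- third estimate
  have A3 : |∑ a ∈ range R, ∑ t ∈ range M, c a t * bs (2 * n) (2 * m) (fun i j k =>
        G i j k * (d.om i j k ^ t * Real.exp (node a * d.om i j k)))| ≤
      ((N : ℕ) * (2 * R) ^ N) * (Real.exp S * (Ω₁ ^ M * (Real.exp Y * δ))) := by
    refine le_trans ?_ (mul_le_mul_of_nonneg_right hc2 (by positivity))
    rw [sum_mul]
    refine (abs_sum_le_sum_abs _ _).trans (sum_le_sum fun a ha => ?_)
    rw [sum_mul]
    refine (abs_sum_le_sum_abs _ _).trans (sum_le_sum fun t ht => ?_)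
    rw [abs_mul]
    exact mul_le_mul_of_nonneg_left (A2 a (mem_range.1 ha) t (mem_range.1 ht)) (abs_nonneg _)
  -- fourth estimate
  have A4 : |bs (2 * n) (2 * m) (fun i j k => G i j k * Real.exp (w * d.om i j k)) -
      bs (2 * n) (2 * m) (fun i j k => G i j k * Real.exp (w * Real.log (d.W i j k)))| ≤
      Real.exp S * (Real.exp Y * δ) := by
    rw [← bs_sub]
    have e3 : (fun i j k => G i j k * Real.exp (w * d.om i j k) -
        G i j k * Real.exp (w * Real.log (d.W i j k))) =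
        fun i j k => G i j k * (Real.exp (w * d.om i j k) -
          Real.exp (w * Real.log (d.W i j k))) := by
      funext i j k
      ring
    rw [e3]
    refine hsumle _ _ (by positivity) fun i hi j hj k hk => ?_
    refine (d.exp_diff (i := i) (j := j) (k := k) hw0 hwR hk.le (hom i hi j hj k hk) hsm).trans ?_
    exact mul_le_mul_of_nonneg_right hexpY hδ0
  set α : ℝ := bs (2 * n) (2 * m) (fun i j k =>
    G i j k * Real.exp (w * Real.log (d.W i j k))) with hα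
  set Θ : ℝ := Y ^ N / N.factorial * Real.exp Y +
    ((N : ℕ) * (2 * R) ^ N * Ω₁ ^ M + 1) * (Real.exp Y * δ) with hΘ
  have hαb : |α| ≤ Real.exp S * Θ := by
    have t1 := abs_sub_abs_le_abs_sub α
      (bs (2 * n) (2 * m) (fun i j k => G i j k * Real.exp (w * d.om i j k)))
    rw [abs_sub_comm] at t1
    have t2 := abs_sub_abs_le_abs_sub
      (bs (2 * n) (2 * m) (fun i j k => G i j k * Real.exp (w * d.om i j k)))
      (∑ a ∈ range R, ∑ t ∈ range M, c a t * bs (2 * n) (2 * m) (fun i j k =>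
        G i j k * (d.om i j k ^ t * Real.exp (node a * d.om i j k))))
    have e : Real.exp S * Θ = Real.exp S * (Y ^ N / N.factorial * Real.exp Y) +
        ((N : ℕ) * (2 * R) ^ N) * (Real.exp S * (Ω₁ ^ M * (Real.exp Y * δ))) +
        Real.exp S * (Real.exp Y * δ) := by
      rw [hΘ]
      ring
    rw [e]
    linarith
  -- parity classes
  have hαsum : α = ∑ a₁ : Fin 2, ∑ a₂ : Fin 2, ∑ a₃ : Fin 2, d.cc l a₁ a₂ a₃ *
      bs n m (fun i j k => G (2 * i + a₁) (2 * j + a₂) (2 * k + a₃) * d.W i j k ^ q) := by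
    rw [hα, bs_two]
    refine sum_congr rfl fun a₁ _ => sum_congr rfl fun a₂ _ => sum_congr rfl fun a₃ _ => ?_
    rw [← bs_mul_left]
    refine bs_congr fun i _ j _ k _ => ?_
    rw [hw, d.half_pow]
    ring
  have hBq : (d.B : ℝ) ^ (q * m) ≤ Real.exp Y := by
    refine le_trans (pow_le_pow_right₀ (by exact_mod_cast d.hB) ?_) hB
    exact Nat.mul_le_mul_right _ (by omega)
  have hBq0 : 0 < (d.B : ℝ) ^ (q * m) := by
    have := d.B_pos
    positivity
  have hF : F (d.Nz n m l g) √(d.P : ℝ) √(d.Q : ℝ) √((d.A * d.B : ℕ) : ℝ) =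
      (d.B : ℝ) ^ (q * m) * α := by
    rw [hαsum, mul_sum]
    unfold F
    refine sum_congr rfl fun a₁ _ => ?_
    rw [mul_sum]
    refine sum_congr rfl fun a₂ _ => ?_
    rw [mul_sum]
    refine sum_congr rfl fun a₃ _ => ?_
    exact d.Nz_cast n m l g a₁ a₂ a₃
  have hM : ∑ a₁, ∑ a₂, ∑ a₃, |(d.Nz n m l g a₁ a₂ a₃ : ℝ)| * √(d.P : ℝ) ^ (a₁ : ℕ) *
      √(d.Q : ℝ) ^ (a₂ : ℕ) * √((d.A * d.B : ℕ) : ℝ) ^ (a₃ : ℕ) ≤ Real.exp (S + 2 * Y) := by
    have s1 : ∀ a₁ a₂ a₃ : Fin 2, |(d.Nz n m l g a₁ a₂ a₃ : ℝ)| * √(d.P : ℝ) ^ (a₁ : ℕ) *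
        √(d.Q : ℝ) ^ (a₂ : ℕ) * √((d.A * d.B : ℕ) : ℝ) ^ (a₃ : ℕ) ≤
        (d.B : ℝ) ^ (q * m) * (d.cc l a₁ a₂ a₃ *
          bs n m (fun i j k => |G (2 * i + a₁) (2 * j + a₂) (2 * k + a₃)| *
            d.W i j k ^ q)) := by
      intro a₁ a₂ a₃
      have t1 := congrArg abs (d.Nz_cast n m l g a₁ a₂ a₃)
      rw [abs_mul, abs_mul, abs_mul, abs_of_nonneg (pow_nonneg (Real.sqrt_nonneg _) _),
        abs_of_nonneg (pow_nonneg (Real.sqrt_nonneg _) _),
        abs_of_nonneg (pow_nonneg (Real.sqrt_nonneg _) _), abs_mul, abs_mul,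
        abs_of_pos hBq0, abs_of_pos (d.cc_pos _ _ _ _)] at t1
      rw [t1]
      refine mul_le_mul_of_nonneg_left (mul_le_mul_of_nonneg_left ?_ (d.cc_nonneg _ _ _ _))
        hBq0.le
      refine (abs_bs_le _ _ _).trans (bs_mono fun i _ j _ k _ => ?_)
      rw [abs_mul, abs_of_pos (pow_pos (d.W_pos i j k) _)]
    have s2 : ∑ a₁ : Fin 2, ∑ a₂ : Fin 2, ∑ a₃ : Fin 2, (d.B : ℝ) ^ (q * m) *
        (d.cc l a₁ a₂ a₃ * bs n m (fun i j k =>
          |G (2 * i + a₁) (2 * j + a₂) (2 * k + a₃)| * d.W i j k ^ q)) =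
        (d.B : ℝ) ^ (q * m) * bs (2 * n) (2 * m) (fun i j k => |G i j k| *
          Real.exp (w * Real.log (d.W i j k))) := by
      rw [bs_two, mul_sum]
      refine sum_congr rfl fun a₁ _ => ?_
      rw [mul_sum]
      refine sum_congr rfl fun a₂ _ => ?_
      rw [mul_sum]
      refine sum_congr rfl fun a₃ _ => ?_
      congr 1
      rw [← bs_mul_left]
      refine bs_congr fun i _ j _ k _ => ?_
      rw [hw, d.half_pow]
      ring
    refine (sum_le_sum fun a₁ _ => sum_le_sum fun a₂ _ => sum_le_sum fun a₃ _ =>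
      s1 a₁ a₂ a₃).trans ?_
    rw [s2]
    have s3 : bs (2 * n) (2 * m) (fun i j k => |G i j k| *
        Real.exp (w * Real.log (d.W i j k))) ≤ Real.exp S * Real.exp Y := by
      refine (bs_mono (G := fun _ _ _ => H * μ ^ T * Real.exp Y) fun i hi j hj k hk => ?_).trans ?_
      · refine mul_le_mul (hGb i hi j hj k hk) (Real.exp_le_exp.2 ?_) (Real.exp_pos _).le
          ((abs_nonneg _).trans (hGb i hi j hj k hk))
        calc w * Real.log (d.W i j k) ≤ w * Ω :=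
              mul_le_mul_of_nonneg_left ((le_abs_self _).trans (hlW i hi j hj k hk)) hw0
          _ ≤ 2 * R * Ω := mul_le_mul_of_nonneg_right hwR hΩ0
          _ ≤ Y := hY
      · rw [bs_const, ← mul_assoc]
        exact mul_le_mul_of_nonneg_right hS (Real.exp_pos _).le
    calc (d.B : ℝ) ^ (q * m) * bs (2 * n) (2 * m) (fun i j k => |G i j k| *
          Real.exp (w * Real.log (d.W i j k))) ≤ Real.exp Y * (Real.exp S * Real.exp Y) := by
          refine mul_le_mul hBq s3 ?_ (Real.exp_pos _).le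
          exact le_trans (abs_nonneg (bs (2 * n) (2 * m) (fun i j k => |G i j k| *
            Real.exp (w * Real.log (d.W i j k))))) (le_trans (abs_bs_le _ _ _) (le_of_eq
              (bs_congr fun i _ j _ k _ => by
                rw [abs_mul, abs_abs, abs_of_pos (Real.exp_pos _)])))
      _ = Real.exp (S + 2 * Y) := by
          rw [← Real.exp_add, ← Real.exp_add]
          congr 1
          ring
  have hNz : d.Nz n m l g = 0 := by
    by_contra hne
    have t1 := liou d.hind (d.Nz n m l g) hne hM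
    rw [hF, abs_mul, abs_of_pos hBq0] at t1
    have t2 : (d.B : ℝ) ^ (q * m) * |α| * Real.exp (S + 2 * Y) ^ 7 ≤
        Real.exp (8 * S + 15 * Y) * Θ := by
      calc (d.B : ℝ) ^ (q * m) * |α| * Real.exp (S + 2 * Y) ^ 7
          ≤ Real.exp Y * (Real.exp S * Θ) * Real.exp (S + 2 * Y) ^ 7 := by
            refine mul_le_mul_of_nonneg_right ?_ (by positivity)
            exact mul_le_mul hBq hαb (abs_nonneg _) (Real.exp_pos _).le
        _ = Real.exp (8 * S + 15 * Y) * Θ := by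
            rw [← Real.exp_nat_mul]
            have : Real.exp (8 * S + 15 * Y) = Real.exp Y * Real.exp S *
                Real.exp ((7 : ℕ) * (S + 2 * Y)) := by
              rw [← Real.exp_add, ← Real.exp_add]
              congr 1
              push_cast
              ring
            rw [this]
            ring
    exact absurd hsmall (not_lt.2 (t1.trans t2))
  have h5 := d.Nz_cast n m l g e₁ e₂ e₃
  rw [hNz] at h5
  simp only [Pi.zero_apply, Int.cast_zero, zero_mul] at h5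
  have h6 := mul_eq_zero.1 h5.symm
  have h7 := h6.resolve_left hBq0.ne'
  have h8 := (mul_eq_zero.1 h7).resolve_left (d.cc_pos l e₁ e₂ e₃).ne'
  rw [← h8]
  refine bs_congr fun i _ j _ k _ => ?_
  rw [← hGe]

end Dat

end BK21
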