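import Pool.Agent.BK21.Baker

/-!
# Start and end of the descent
-/

set_option autoImplicit false

namespace BK21

open Finset

theorem bs_fin {α : Type} [AddCommMonoid α] (n m : ℕ) (F : ℕ → ℕ → ℕ → α) :
    bs n m F = ∑ x : Fin n × Fin n × Fin m, F x.1 x.2.1 x.2.2 := by
  unfold bs
  simp only [Fintype.sum_prod_type, Finset.sum_range]

namespace Par

variable {d : Dat} (q : Par d)

/-- Coefficients of the linear system. -/
def mat (d : Dat) (m a b l i j k : ℕ) : ℤ := d.m1 i k ^ a * d.m2 j k ^ b *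
  ((d.P : ℤ) ^ ((2 * l + 1) * i) * (d.Q : ℤ) ^ ((2 * l + 1) * j) *
    ((d.A : ℤ) ^ ((2 * l + 1) * k) * (d.B : ℤ) ^ ((2 * l + 1) * (m - k))))

theorem mat_cast (d : Dat) {m a b l i j k : ℕ} (hk : k < m) :
    (mat d m a b l i j k : ℝ) = (d.B : ℝ) ^ ((2 * l + 1) * m) *
      ((d.m1 i k : ℝ) ^ a * (d.m2 j k : ℝ) ^ b * d.W i j k ^ (2 * l + 1)) := by
  have hB := d.B_pos
  have h2 : (d.B : ℝ) ^ ((2 * l + 1) * m) = (d.B : ℝ) ^ ((2 * l + 1) * (m - k)) *
      ((d.B : ℝ) ^ k) ^ (2 * l + 1) := by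
    rw [← pow_mul, ← pow_add]
    congr 1
    have : m = (m - k) + k := by omega
    conv_lhs => rw [this]
    ring
  rw [h2]
  unfold mat Dat.W
  push_cast
  rw [mul_pow, mul_pow, div_pow, div_pow, ← pow_mul, ← pow_mul]
  have h3 : ((d.B : ℝ) ^ k) ^ (2 * l + 1) ≠ 0 := by positivity
  field_simp
  ring

theorem pow_exp {a : ℝ} (ha : 0 < a) (n : ℕ) : a ^ n = Real.exp (n * Real.log a) := by
  rw [Real.exp_nat_mul, Real.exp_log ha]

theorem mat_le {a b l i j k : ℕ} (ha : a ≤ q.T q.J) (hb : b ≤ q.T q.J) (hl : l < 2 ^ q.r)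
    (hi : i < q.h * 2 ^ q.J) (hj : j < q.h * 2 ^ q.J) (hk : k < 2 ^ q.J) :
    |(mat d (2 ^ q.J) a b l i j k : ℝ)| ≤ Real.exp (10 * q.Z) := by
  have hP := d.P_pos
  have hQ := d.Q_pos
  have hA := d.A_pos
  have hB := d.B_pos
  have hmu : (1 : ℝ) ≤ Real.exp q.L := Real.one_le_exp (by linarith [q.hL])
  have hZ : (q.Z : ℝ) = 2 ^ q.r * (q.h * 2 ^ q.J) := by
    have := q.Z_eq (s := 0) (u := q.J) (by omega)
    rw [add_zero] at this
    rw [this]
    push_cast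
    ring
  have e1 : |(d.m1 i k : ℝ)| ^ a ≤ Real.exp q.Z := by
    calc |(d.m1 i k : ℝ)| ^ a ≤ Real.exp q.L ^ a :=
          pow_le_pow_left₀ (abs_nonneg _) (q.m1_le le_rfl hi hk) _
      _ ≤ Real.exp q.L ^ q.T q.J := pow_le_pow_right₀ hmu ha
      _ ≤ _ := q.expT le_rfl
  have e2 : |(d.m2 j k : ℝ)| ^ b ≤ Real.exp q.Z := by
    calc |(d.m2 j k : ℝ)| ^ b ≤ Real.exp q.L ^ b :=
          pow_le_pow_left₀ (abs_nonneg _) (q.m2_le le_rfl hj hk) _
      _ ≤ Real.exp q.L ^ q.T q.J := pow_le_pow_right₀ hmu hb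
      _ ≤ _ := q.expT le_rfl
  have hlp := log_P_nonneg (d := d)
  have hlq := log_Q_nonneg (d := d)
  have hpq := log_PQ q
  have hl2 : ((2 * l + 1 : ℕ) : ℝ) ≤ 2 * 2 ^ q.r := by
    have : 2 * l + 1 ≤ 2 * 2 ^ q.r := by omega
    exact_mod_cast this
  have hi' : (i : ℝ) ≤ q.h * 2 ^ q.J := by exact_mod_cast hi.le
  have hj' : (j : ℝ) ≤ q.h * 2 ^ q.J := by exact_mod_cast hj.le
  have hh0 : (0 : ℝ) ≤ q.h := Nat.cast_nonneg _
  have hJ0 : (0 : ℝ) ≤ 2 ^ q.J := pow_nonneg (by norm_num) _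
  have hr0 : (0 : ℝ) ≤ 2 * 2 ^ q.r := mul_nonneg (by norm_num) (pow_nonneg (by norm_num) _)
  have e3 : (d.P : ℝ) ^ ((2 * l + 1) * i) * (d.Q : ℝ) ^ ((2 * l + 1) * j) ≤
      Real.exp (6 * q.Z) := by
    rw [pow_exp hP, pow_exp hQ, ← Real.exp_add]
    apply Real.exp_le_exp.2
    rw [Nat.cast_mul, Nat.cast_mul]
    have f1 : ((2 * l + 1 : ℕ) : ℝ) * i ≤ 2 * q.Z := by
      rw [hZ]
      calc ((2 * l + 1 : ℕ) : ℝ) * i ≤ (2 * 2 ^ q.r) * (q.h * 2 ^ q.J) :=
            mul_le_mul hl2 hi' (Nat.cast_nonneg _) hr0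
        _ = _ := by ring
    have f2 : ((2 * l + 1 : ℕ) : ℝ) * j ≤ 2 * q.Z := by
      rw [hZ]
      calc ((2 * l + 1 : ℕ) : ℝ) * j ≤ (2 * 2 ^ q.r) * (q.h * 2 ^ q.J) :=
            mul_le_mul hl2 hj' (Nat.cast_nonneg _) hr0
        _ = _ := by ring
    have g1 := mul_le_mul_of_nonneg_right f1 hlp
    have g2 := mul_le_mul_of_nonneg_right f2 hlq
    have g3 : (2 * (q.Z : ℝ)) * (Real.log d.P + Real.log d.Q) ≤ (2 * q.Z) * 3 :=
      mul_le_mul_of_nonneg_left hpq (by linarith [Nat.cast_nonneg (α := ℝ) q.Z])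
    linarith
  have e4 : (d.A : ℝ) ^ ((2 * l + 1) * k) * (d.B : ℝ) ^ ((2 * l + 1) * (2 ^ q.J - k)) ≤
      Real.exp (2 * q.Z) := by
    rw [pow_exp hA, pow_exp hB, ← Real.exp_add]
    apply Real.exp_le_exp.2
    rw [Nat.cast_mul, Nat.cast_mul, Nat.cast_sub hk.le]
    have hlA := q.hlA
    have hlB := q.hlB
    have hk0 : (0 : ℝ) ≤ k := Nat.cast_nonneg _
    have hk1 : (0 : ℝ) ≤ ((2 ^ q.J : ℕ) : ℝ) - k := by
      rw [sub_nonneg]
      exact_mod_cast hk.le
    have hl0 : (0 : ℝ) ≤ ((2 * l + 1 : ℕ) : ℝ) := Nat.cast_nonneg _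
    have g1 := mul_le_mul_of_nonneg_left hlA (mul_nonneg hl0 hk0)
    have g2 := mul_le_mul_of_nonneg_left hlB (mul_nonneg hl0 hk1)
    have g3 : ((2 * l + 1 : ℕ) : ℝ) * (((2 ^ q.J : ℕ) : ℝ) * q.h) ≤
        (2 * 2 ^ q.r) * (((2 ^ q.J : ℕ) : ℝ) * q.h) :=
      mul_le_mul_of_nonneg_right hl2 (mul_nonneg (Nat.cast_nonneg _) hh0)
    have g4 : (2 * (2 : ℝ) ^ q.r) * (((2 ^ q.J : ℕ) : ℝ) * q.h) = 2 * q.Z := by
      rw [hZ]
      push_cast
      ring
    rw [g4] at g3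
    linarith
  unfold mat
  push_cast
  rw [abs_mul, abs_mul, abs_mul, abs_mul, abs_mul]
  simp only [abs_pow, Nat.abs_cast]
  calc |(d.m1 i k : ℝ)| ^ a * |(d.m2 j k : ℝ)| ^ b *
      ((d.P : ℝ) ^ ((2 * l + 1) * i) * (d.Q : ℝ) ^ ((2 * l + 1) * j) *
        ((d.A : ℝ) ^ ((2 * l + 1) * k) * (d.B : ℝ) ^ ((2 * l + 1) * (2 ^ q.J - k)))) ≤
      (Real.exp q.Z * Real.exp q.Z) * (Real.exp (6 * q.Z) * Real.exp (2 * q.Z)) := by
        refine mul_le_mul (mul_le_mul e1 e2 (by positivity) (Real.exp_pos _).le)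
          (mul_le_mul e3 e4 (by positivity) (Real.exp_pos _).le) (by positivity)
          (mul_pos (Real.exp_pos _) (Real.exp_pos _)).le
    _ = Real.exp (10 * q.Z) := by
        rw [← Real.exp_add, ← Real.exp_add, ← Real.exp_add]
        congr 1
        ring

theorem cards : 2 * ((q.T q.J + 1) * ((q.T q.J + 1) * 2 ^ q.r)) ≤
    (q.h * 2 ^ q.J) * ((q.h * 2 ^ q.J) * 2 ^ q.J) := by
  rw [q.T_top]
  have h1 := q.hh
  have h2 : 1 ≤ q.h * 2 ^ (q.J + 10) := Nat.mul_pos h1 (Nat.pow_pos (by norm_num))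
  have h3 : q.h * 2 ^ (q.J + 10) + 1 ≤ 2 * (q.h * 2 ^ (q.J + 10)) := by omega
  calc 2 * ((q.h * 2 ^ (q.J + 10) + 1) * ((q.h * 2 ^ (q.J + 10) + 1) * 2 ^ q.r)) ≤
      2 * ((2 * (q.h * 2 ^ (q.J + 10))) * ((2 * (q.h * 2 ^ (q.J + 10))) * 2 ^ q.r)) :=
        Nat.mul_le_mul_left _ (Nat.mul_le_mul h3 (Nat.mul_le_mul_right _ h3))
    _ = (q.h * 2 ^ q.J) * ((q.h * 2 ^ q.J) * 2 ^ (q.r + 23)) := by
        rw [pow_add 2 q.J 10, pow_add 2 q.r 23]
        ring
    _ = _ := by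
        congr 3
        unfold J
        rfl

theorem inv_zero : q.Inv 0 q.J := by
  classical
  set n : ℕ := q.h * 2 ^ q.J with hn
  set m : ℕ := 2 ^ q.J with hm
  set T : ℕ := q.T q.J with hT
  let A : Matrix (Fin (T + 1) × Fin (T + 1) × Fin (2 ^ q.r)) (Fin n × Fin n × Fin m) ℤ :=
    fun e x => mat d m e.1 e.2.1 e.2.2 x.1 x.2.1 x.2.2
  have hA : ∀ e x, |(A e x : ℝ)| ≤ Real.exp (10 * q.Z) := fun e x =>
    q.mat_le (by omega) (by omega) e.2.2.2 x.1.2 x.2.1.2 x.2.2.2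
  have hc : 2 * Fintype.card (Fin (T + 1) × Fin (T + 1) × Fin (2 ^ q.r)) ≤
      Fintype.card (Fin n × Fin n × Fin m) := by
    simp only [Fintype.card_prod, Fintype.card_fin]
    exact q.cards
  have hc0 : 0 < Fintype.card (Fin (T + 1) × Fin (T + 1) × Fin (2 ^ q.r)) := by
    simp only [Fintype.card_prod, Fintype.card_fin]
    exact Nat.mul_pos (by omega) (Nat.mul_pos (by omega) (Nat.pow_pos (by norm_num)))
  obtain ⟨t, ht0, htA, htb⟩ := siegel A (Real.one_le_exp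
    (by linarith [Nat.cast_nonneg (α := ℝ) q.Z])) hA hc hc0
  let p : ℕ → ℕ → ℕ → ℤ := fun i j k => if h : i < n ∧ j < n ∧ k < m then
    t (⟨i, h.1⟩, ⟨j, h.2.1⟩, ⟨k, h.2.2⟩) else 0
  have hpt : ∀ x : Fin n × Fin n × Fin m, p x.1 x.2.1 x.2.2 = t x := fun x => by
    have : (x.1 : ℕ) < n ∧ (x.2.1 : ℕ) < n ∧ (x.2.2 : ℕ) < m := ⟨x.1.2, x.2.1.2, x.2.2.2⟩
    simp only [p, this, and_self, dif_pos]
  refine ⟨p, ?_, ?_, ?_⟩
  · obtain ⟨x, hx⟩ := Function.ne_iff.1 ht0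
    refine ⟨x.1, x.1.2, x.2.1, x.2.1.2, x.2.2, x.2.2.2, ?_⟩
    rw [hpt]
    exact hx
  · intro i hi j hj k hk
    have h1 := htb (⟨i, hi⟩, ⟨j, hj⟩, ⟨k, hk⟩)
    rw [← hpt] at h1
    refine h1.trans ?_
    have h2 : (Fintype.card (Fin n × Fin n × Fin m) : ℝ) ≤ Real.exp (3 * q.Z) := by
      simp only [Fintype.card_prod, Fintype.card_fin]
      have f0 := q.hJ
      have f1 : Real.exp q.L ≤ Real.exp q.Z := by
        apply Real.exp_le_exp.2
        linarith [q.hL6, q.hL]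
      have f2 : (n : ℝ) ≤ Real.exp q.Z := by
        have e : (n : ℝ) = q.h * 2 ^ q.J := by
          rw [hn, hm]
          push_cast
          ring
        rw [e]
        exact f0.trans f1
      have f3 : (m : ℝ) ≤ Real.exp q.Z := by
        refine le_trans ?_ f2
        have : m ≤ n := by
          rw [hn, hm]
          exact Nat.le_mul_of_pos_left _ q.hh
        exact_mod_cast this
      have f4 : Real.exp (3 * q.Z) = Real.exp q.Z * (Real.exp q.Z * Real.exp q.Z) := by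
        rw [← Real.exp_add, ← Real.exp_add]
        congr 1
        ring
      rw [f4]
      push_cast
      exact mul_le_mul f2 (mul_le_mul f2 f3 (Nat.cast_nonneg _) (Real.exp_pos _).le)
        (by positivity) (Real.exp_pos _).le
    calc (Fintype.card (Fin n × Fin n × Fin m) : ℝ) * Real.exp (10 * q.Z) ≤
        Real.exp (3 * q.Z) * Real.exp (10 * q.Z) :=
          mul_le_mul_of_nonneg_right h2 (Real.exp_pos _).le
      _ = Real.exp (13 * q.Z) := by
          rw [← Real.exp_add]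
          congr 1
          ring
  · intro f hf l hl
    rw [add_zero] at hl
    induction hf using Submodule.span_induction with
    | mem g hg =>
      obtain ⟨a, b, hab, rfl⟩ := hg
      have h1 := congrFun htA (⟨a, by omega⟩, ⟨b, by omega⟩, ⟨l, hl⟩)
      have h2 : (∑ x : Fin n × Fin n × Fin m, mat d m a b l x.1 x.2.1 x.2.2 * t x) = 0 := h1
      have h3 : (∑ x : Fin n × Fin n × Fin m,
          (mat d m a b l x.1 x.2.1 x.2.2 : ℝ) * (t x : ℝ)) = 0 := by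
        exact_mod_cast congrArg (fun z : ℤ => (z : ℝ)) h2
      have hB : (d.B : ℝ) ^ ((2 * l + 1) * m) ≠ 0 := pow_ne_zero _ d.B_pos.ne'
      have h4 : (d.B : ℝ) ^ ((2 * l + 1) * m) * bs n m (fun i j k =>
          (p i j k : ℝ) * ((d.m1 i k : ℝ) ^ a * (d.m2 j k : ℝ) ^ b) *
            d.W i j k ^ (2 * l + 1)) = 0 := by
        rw [← h3, bs_fin, mul_sum]
        refine sum_congr rfl fun x _ => ?_
        rw [mat_cast d x.2.2.2, hpt]
        ring
      exact (mul_eq_zero.1 h4).resolve_left hB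
    | zero => simp [bs]
    | add g g' _ _ h1 h2 =>
      have h3 := congrArg₂ (· + ·) h1 h2
      simp only [add_zero, ← bs_add] at h3
      rw [← h3]
      refine bs_congr fun i _ j _ k _ => ?_
      simp only [Pi.add_apply]
      ring
    | smul c g _ h1 =>
      rw [← mul_zero c, ← h1, ← bs_mul_left]
      refine bs_congr fun i _ j _ k _ => ?_
      simp only [Pi.smul_apply, smul_eq_mul]
      ring

theorem inv_all {s u : ℕ} (hsu : s + u = q.J) : q.Inv s u := by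
  induction s generalizing u with
  | zero =>
    have : u = q.J := by omega
    rw [this]
    exact q.inv_zero
  | succ s ih => exact q.inv_step (by omega) (ih (by omega))

theorem prod1 (s : Finset ℕ) (c : ℝ) :
    (fun u _ : ℝ => ∏ i ∈ s, (u - c * (i : ℝ))) ∈ V s.card := by
  refine V_prod s (fun (i : ℕ) (u _ : ℝ) => u - c * (i : ℝ)) fun i _ => ?_
  have := V_lin 1 0 (-(c * i))
  have e : (fun u _ : ℝ => u - c * (i : ℝ)) = fun u v => 1 * u + 0 * v + -(c * i) := by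
    funext u v
    ring
  rw [e]
  exact this

theorem prod2 (s : Finset ℕ) (c : ℝ) :
    (fun _ v : ℝ => ∏ i ∈ s, (v - c * (i : ℝ))) ∈ V s.card := by
  refine V_prod s (fun (i : ℕ) (_ v : ℝ) => v - c * (i : ℝ)) fun i _ => ?_
  have := V_lin 0 1 (-(c * i))
  have e : (fun _ v : ℝ => v - c * (i : ℝ)) = fun u v => 0 * u + 1 * v + -(c * i) := by
    funext u v
    ring
  rw [e]
  exact this

theorem inv_last : ¬ q.Inv q.J 0 := by
  classical
  rintro ⟨p, ⟨i₁, hi₁, j₁, hj₁, k₁, hk₁, hp₁⟩, -, hpv⟩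
  have hb : (d.b : ℝ) ≠ 0 := by exact_mod_cast d.hb
  have hk0 : k₁ = 0 := by
    rw [pow_zero] at hk₁
    omega
  rw [pow_zero, mul_one] at hi₁ hj₁
  rw [pow_zero, mul_one] at hpv
  set f : ℝ → ℝ → ℝ := fun u v => (∏ i ∈ (range q.h).erase i₁, (u - d.b * i)) *
    ∏ j ∈ (range q.h).erase j₁, (v - d.b * j) with hf
  have hc1 : ((range q.h).erase i₁).card ≤ q.h :=
    (card_le_card (erase_subset _ _)).trans (card_range _).le
  have hc2 : ((range q.h).erase j₁).card ≤ q.h :=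
    (card_le_card (erase_subset _ _)).trans (card_range _).le
  have hf1 := V_mono hc1 (prod1 ((range q.h).erase i₁) d.b)
  have hf2 := V_mono hc2 (prod2 ((range q.h).erase j₁) d.b)
  have hT : q.h + q.h ≤ q.T 0 := by
    unfold T
    have h9 : 2 ≤ 2 ^ (q.J + 9) + 2 ^ (0 + 9) := by
      have h8 : 0 < 2 ^ (q.J + 9) := Nat.pow_pos (by norm_num)
      have h7 : 2 ^ (0 + 9) = 512 := by norm_num
      rw [h7]
      generalize 2 ^ (q.J + 9) = z at h8
      omega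
    calc q.h + q.h = q.h * 2 := by ring
      _ ≤ _ := Nat.mul_le_mul_left _ h9
  have hfV : f ∈ V (q.T 0) := V_mono hT (V_mul hf1 hf2)
  have h1 := hpv f hfV 0 (Nat.pow_pos (by norm_num))
  have h2 : bs q.h 1 (fun i j k => (p i j k : ℝ) * f (d.m1 i k) (d.m2 j k) *
      d.W i j k ^ (2 * 0 + 1)) = (p i₁ j₁ 0 : ℝ) * f (d.m1 i₁ 0) (d.m2 j₁ 0) *
      d.W i₁ j₁ 0 ^ (2 * 0 + 1) := by
    unfold bs
    simp only [sum_range_one]
    rw [sum_eq_single i₁]
    · rw [sum_eq_single j₁]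
      · intro j hj hne
        have : f (d.m1 i₁ 0) (d.m2 j 0) = 0 := by
          simp only [hf]
          apply mul_eq_zero_of_right
          apply prod_eq_zero (mem_erase.2 ⟨hne, hj⟩)
          unfold Dat.m2
          push_cast
          ring
        rw [this]
        ring
      · intro h
        exact absurd (mem_range.2 hj₁) h
    · intro i hi hne
      refine sum_eq_zero fun j _ => ?_
      have : f (d.m1 i 0) (d.m2 j 0) = 0 := by
        simp only [hf]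
        apply mul_eq_zero_of_left
        apply prod_eq_zero (mem_erase.2 ⟨hne, hi⟩)
        unfold Dat.m1
        push_cast
        ring
      rw [this]
      ring
    · intro h
      exact absurd (mem_range.2 hi₁) h
  rw [h2] at h1
  have h3 : f (d.m1 i₁ 0) (d.m2 j₁ 0) ≠ 0 := by
    simp only [hf]
    apply mul_ne_zero
    · rw [prod_ne_zero_iff]
      intro i hi
      have hne := (mem_erase.1 hi).1
      unfold Dat.m1
      push_cast
      have : (d.b : ℝ) * i₁ - d.x * 0 - d.b * i = d.b * ((i₁ : ℝ) - i) := by ring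
      rw [this]
      apply mul_ne_zero hb
      rw [sub_ne_zero]
      exact_mod_cast hne.symm
    · rw [prod_ne_zero_iff]
      intro j hj
      have hne := (mem_erase.1 hj).1
      unfold Dat.m2
      push_cast
      have : (d.b : ℝ) * j₁ - d.y * 0 - d.b * j = d.b * ((j₁ : ℝ) - j) := by ring
      rw [this]
      apply mul_ne_zero hb
      rw [sub_ne_zero]
      exact_mod_cast hne.symm
  have h4 : (p i₁ j₁ 0 : ℝ) ≠ 0 := by
    rw [hk0] at hp₁
    exact_mod_cast hp₁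
  have h5 : d.W i₁ j₁ 0 ^ (2 * 0 + 1) ≠ 0 := pow_ne_zero _ (d.W_pos _ _ _).ne'
  exact mul_ne_zero (mul_ne_zero h4 h3) h5 h1

include q in
theorem absurd_par : False := q.inv_last (q.inv_all (by omega))

end Par

end BK21
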