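import Pool.Agent.BK21.Lower

/-!
# Sums of powers of two and three that are small
-/

set_option autoImplicit false

namespace BK21

open Finset

theorem part {ι : Type} (T : Finset ι) (s : ι → ℤ) (e : ι → ℕ) (p x : ℕ) (hp : 1 ≤ p) {D : ℝ}
    (hs : ∀ i ∈ T, |s i| ≤ 1) (hx : ∀ i ∈ T, x ≤ e i)
    (hD : ∀ i ∈ T, (e i : ℝ) * Real.log p ≤ x * Real.log p + D) :
    ∃ A : ℤ, ∑ i ∈ T, s i * (p : ℤ) ^ e i = A * (p : ℤ) ^ x ∧
      |(A : ℝ)| ≤ T.card * Real.exp D := by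
  refine ⟨∑ i ∈ T, s i * (p : ℤ) ^ (e i - x), ?_, ?_⟩
  · rw [sum_mul]
    refine sum_congr rfl fun i hi => ?_
    rw [mul_assoc, ← pow_add, Nat.sub_add_cancel (hx i hi)]
  · push_cast
    refine (abs_sum_le_sum_abs _ _).trans ?_
    rw [← nsmul_eq_mul, ← sum_const]
    refine sum_le_sum fun i hi => ?_
    have hp0 : (0 : ℝ) < p := by exact_mod_cast hp
    have h1 : |(s i : ℝ)| ≤ 1 := by exact_mod_cast hs i hi
    rw [abs_mul, abs_of_pos (pow_pos hp0 _), Par.pow_exp hp0, Nat.cast_sub (hx i hi)]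
    calc |(s i : ℝ)| * Real.exp ((e i - x : ℝ) * Real.log p) ≤
        1 * Real.exp ((e i - x : ℝ) * Real.log p) :=
          mul_le_mul_of_nonneg_right h1 (Real.exp_pos _).le
      _ ≤ Real.exp D := by
          rw [one_mul]
          apply Real.exp_le_exp.2
          have := hD i hi
          linarith

theorem core_gap {A B : ℤ} {x y lam h : ℕ} {m : ℝ} (hlam : 1 ≤ lam) (hh : 2 ≤ h)
    (hh2 : h ≤ 2 ^ lam) (hA : |(A : ℝ)| ≤ Real.exp h) (hB : |(B : ℝ)| ≤ Real.exp h)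
    (hx : x ≤ 2 ^ lam) (hy : y ≤ 2 ^ lam) (h2 : m ≤ 2 ^ x) (h3 : m ≤ 3 ^ y) (hm : 0 < m)
    (hbig : Real.exp h < m) (hne : ¬ (A = 0 ∧ B = 0)) :
    m * Real.exp (-(2 ^ 73 * h * lam ^ 3)) ≤ |(A : ℝ) * 2 ^ x + B * 3 ^ y| := by
  have hexp : Real.exp (-(2 ^ 73 * h * lam ^ 3)) ≤ 1 := by
    rw [Real.exp_le_one_iff, neg_nonpos]
    positivity
  have hone : m * Real.exp (-(2 ^ 73 * h * lam ^ 3)) ≤ m := by
    have := mul_le_mul_of_nonneg_left hexp hm.le
    rwa [mul_one] at this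
  have p2 : (0 : ℝ) < 2 ^ x := by positivity
  have p3 : (0 : ℝ) < 3 ^ y := by positivity
  by_cases hA0 : A = 0
  · have hB0 : B ≠ 0 := fun h => hne ⟨hA0, h⟩
    have h1 : (1 : ℝ) ≤ |(B : ℝ)| := by exact_mod_cast Int.one_le_abs hB0
    rw [hA0, Int.cast_zero, zero_mul, zero_add, abs_mul, abs_of_pos p3]
    nlinarith
  by_cases hB0 : B = 0
  · have h1 : (1 : ℝ) ≤ |(A : ℝ)| := by exact_mod_cast Int.one_le_abs hA0
    rw [hB0, Int.cast_zero, zero_mul, add_zero, abs_mul, abs_of_pos p2]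
    nlinarith
  -- both different from zero
  have hA1 : (1 : ℝ) ≤ |(A : ℝ)| := by exact_mod_cast Int.one_le_abs hA0
  have hB1 : (1 : ℝ) ≤ |(B : ℝ)| := by exact_mod_cast Int.one_le_abs hB0
  have nA : ((A.natAbs : ℕ) : ℝ) = |(A : ℝ)| := by rw [Nat.cast_natAbs, Int.cast_abs]
  have nB : ((B.natAbs : ℕ) : ℝ) = |(B : ℝ)| := by rw [Nat.cast_natAbs, Int.cast_abs]
  have key : ∀ u v : ℕ, 1 ≤ u → 1 ≤ v → (u : ℝ) ≤ Real.exp h → (v : ℝ) ≤ Real.exp h →
      m * Real.exp (-(2 ^ 73 * h * lam ^ 3)) ≤ |(u : ℝ) * 2 ^ x - v * 3 ^ y| := by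
    intro u v hu hv hu' hv'
    have hu0 : (0 : ℝ) < u := by exact_mod_cast hu
    have hv0 : (0 : ℝ) < v := by exact_mod_cast hv
    have hu1 : (1 : ℝ) ≤ u := by exact_mod_cast hu
    have hv1 : (1 : ℝ) ≤ v := by exact_mod_cast hv
    have hneq : u * 2 ^ x ≠ v * 3 ^ y := by
      intro h0
      have hd : 3 ^ y ∣ u * 2 ^ x := ⟨v, by rw [h0]; ring⟩
      have hcop : Nat.Coprime (3 ^ y) (2 ^ x) := Nat.Coprime.pow _ _ (by norm_num)
      have hd' : 3 ^ y ∣ u := hcop.dvd_of_dvd_mul_right hd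
      have h4 : 3 ^ y ≤ u := Nat.le_of_dvd hu hd'
      have h5 : (3 : ℝ) ^ y ≤ u := by exact_mod_cast h4
      linarith
    have h6 := sep hlam hh hh2 hu hv ((Real.log_le_iff_le_exp hu0).2 hu')
      ((Real.log_le_iff_le_exp hv0).2 hv') hx hy hneq
    refine le_trans (mul_le_mul_of_nonneg_right (le_min ?_ ?_) (Real.exp_pos _).le) h6
    · nlinarith
    · nlinarith
  have hAn : 1 ≤ A.natAbs := Int.natAbs_pos.2 hA0
  have hBn : 1 ≤ B.natAbs := Int.natAbs_pos.2 hB0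
  have key' := key A.natAbs B.natAbs hAn hBn (by rw [nA]; exact hA) (by rw [nB]; exact hB)
  rw [nA, nB] at key'
  rcases lt_or_gt_of_ne hA0 with sA | sA <;> rcases lt_or_gt_of_ne hB0 with sB | sB
  · have sA' : (A : ℝ) < 0 := by exact_mod_cast sA
    have sB' : (B : ℝ) < 0 := by exact_mod_cast sB
    rw [abs_of_neg sA'] at hA1
    rw [abs_of_neg sB'] at hB1
    rw [abs_of_neg (by nlinarith)]
    nlinarith
  · have sA' : (A : ℝ) < 0 := by exact_mod_cast sA
    have sB' : (0 : ℝ) < B := by exact_mod_cast sB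
    rw [abs_of_neg sA', abs_of_pos sB'] at key'
    rw [abs_sub_comm] at key'
    have e : (B : ℝ) * 3 ^ y - -A * 2 ^ x = A * 2 ^ x + B * 3 ^ y := by ring
    rwa [e] at key'
  · have sA' : (0 : ℝ) < A := by exact_mod_cast sA
    have sB' : (B : ℝ) < 0 := by exact_mod_cast sB
    rw [abs_of_pos sA', abs_of_neg sB'] at key'
    have e : (A : ℝ) * 2 ^ x - -B * 3 ^ y = A * 2 ^ x + B * 3 ^ y := by ring
    rwa [e] at key'
  · have sA' : (0 : ℝ) < A := by exact_mod_cast sA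
    have sB' : (0 : ℝ) < B := by exact_mod_cast sB
    rw [abs_of_pos sA'] at hA1
    rw [abs_of_pos sB'] at hB1
    rw [abs_of_pos (by positivity)]
    nlinarith

/-- The base of a power. -/
def bas : Bool → ℕ
  | false => 2
  | true => 3

theorem chain {k : ℕ} (c : ℕ → ℕ) (hmono : ∀ r, c r ≤ c (r + 1)) (h0 : 1 ≤ c 0) (hk : c k ≤ k) :
    ∃ r < k, c r = c (r + 1) := by
  by_contra hcon
  push Not at hcon
  have : ∀ r ≤ k, r + 1 ≤ c r := by
    intro r
    induction r with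
    | zero => intro _; omega
    | succ r ih =>
      intro hr
      have h1 := ih (by omega)
      have h2 := hcon r (by omega)
      have h3 := hmono r
      omega
  have := this k le_rfl
  omega

theorem log2_bounds : (0.69 : ℝ) < Real.log 2 ∧ Real.log 2 < 0.7 := by
  constructor <;> linarith [Real.log_two_gt_d9, Real.log_two_lt_d9]

theorem log3_bounds : (1 : ℝ) ≤ Real.log 3 ∧ Real.log 3 ≤ 1.4 := by
  constructor
  · rw [Real.le_log_iff_exp_le (by norm_num)]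
    linarith [Real.exp_one_lt_d9]
  · have h : (3 : ℝ) ≤ 2 ^ 2 := by norm_num
    have h1 := Real.log_le_log (by norm_num : (0 : ℝ) < 3) h
    rw [Real.log_pow] at h1
    have := log2_bounds.2
    push_cast at h1
    linarith

/-- Weight of a term. -/
noncomputable def wt (t : Bool) (e : ℕ) : ℝ := e * Real.log (bas t)

theorem wt_le (t : Bool) (e : ℕ) : wt t e ≤ 1.4 * e := by
  unfold wt
  have h1 := log3_bounds.2
  have h2 := log2_bounds.2
  have h0 : (0 : ℝ) ≤ e := Nat.cast_nonneg _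
  cases t <;> simp only [bas] <;> push_cast <;> nlinarith

theorem le_wt (t : Bool) (e : ℕ) : 0.69 * e ≤ wt t e := by
  unfold wt
  have h1 := log3_bounds.1
  have h2 := log2_bounds.1
  have h0 : (0 : ℝ) ≤ e := Nat.cast_nonneg _
  cases t <;> simp only [bas] <;> push_cast <;> nlinarith

theorem exp_wt (t : Bool) (e : ℕ) : Real.exp (wt t e) = (bas t : ℝ) ^ e := by
  unfold wt
  have : (0 : ℝ) < bas t := by cases t <;> norm_num [bas]
  rw [Par.pow_exp this]

/-- A relation with one large exponent contains a relation of the special kind. -/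
theorem gap_step {ι : Type} [DecidableEq ι] (I : Finset ι) (s : ι → ℤ) (t : ι → Bool) (e : ι → ℕ)
    {k G lam₀ : ℕ} (hk : 1 ≤ k) (hcard : I.card ≤ k) (hs : ∀ i ∈ I, |s i| ≤ 1)
    (hbig : ∀ lam ≥ lam₀, 16 * ((k + G + 10) * (2 ^ 84 * lam ^ 3) ^ k) ≤ 2 ^ lam)
    (hc : |∑ i ∈ I, s i * (bas (t i) : ℤ) ^ e i| ≤ G) {i₀ : ι} (hi₀ : i₀ ∈ I)
    (he : 2 ^ lam₀ ≤ e i₀) :
    ∃ T ⊆ I, T.Nonempty ∧ ∑ i ∈ T with t i = false, s i * (2 : ℤ) ^ e i = 0 ∧
      ∑ i ∈ T with t i = true, s i * (3 : ℤ) ^ e i = 0 := by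
  -- the largest exponent and the largest weight
  obtain ⟨i₁, hi₁, hmaxe⟩ := exists_max_image I e ⟨i₀, hi₀⟩
  obtain ⟨i₂, hi₂, hmaxw⟩ := exists_max_image I (fun i => wt (t i) (e i)) ⟨i₀, hi₀⟩
  obtain ⟨lam, hlamdef⟩ : ∃ lam, lam = Nat.size (e i₁) := ⟨_, rfl⟩
  have he1 : 2 ^ lam₀ ≤ e i₁ := he.trans (hmaxe i₀ hi₀)
  have hlt : e i₁ < 2 ^ lam := by
    rw [hlamdef]
    exact Nat.lt_size_self _
  have hlam0 : lam₀ < lam := by
    rw [hlamdef]
    exact Nat.lt_size.2 he1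
  have hlam1 : 1 ≤ lam := by omega
  have hge : 2 ^ (lam - 1) ≤ e i₁ := by
    apply Nat.lt_size.1
    rw [← hlamdef]
    omega
  obtain ⟨g, hg⟩ : ∃ g, g = k + G + 10 := ⟨_, rfl⟩
  obtain ⟨E, hE⟩ : ∃ E, E = 2 ^ 84 * lam ^ 3 := ⟨_, rfl⟩
  have hb := hbig lam (by omega)
  rw [← hg, ← hE] at hb
  have hE1 : 2 ^ 84 ≤ E := by
    rw [hE]
    exact Nat.le_mul_of_pos_right _ (by positivity)
  set w : ι → ℝ := fun i => wt (t i) (e i) with hw
  set M : ℝ := w i₂ with hM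
  have hMge : 0.345 * (2 : ℝ) ^ lam ≤ M := by
    have h1 : w i₁ ≤ M := hmaxw i₁ hi₁
    have h2 := le_wt (t i₁) (e i₁)
    have h3 : (2 : ℝ) ^ (lam - 1) ≤ e i₁ := by exact_mod_cast hge
    have h4 : (2 : ℝ) ^ lam = 2 * 2 ^ (lam - 1) := by
      rw [← pow_succ']
      congr 1
      omega
    have h5 : w i₁ = wt (t i₁) (e i₁) := rfl
    rw [h4]
    linarith
  have hMle : M ≤ 1.4 * 2 ^ lam := by
    have h1 := wt_le (t i₂) (e i₂)
    have h2 : e i₂ < 2 ^ lam := (hmaxe i₂ hi₂).trans_lt hlt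
    have h3 : (e i₂ : ℝ) ≤ 2 ^ lam := by exact_mod_cast h2.le
    have h5 : M = wt (t i₂) (e i₂) := rfl
    linarith
  -- the scales
  set δ : ℕ → ℕ := fun r => g * E ^ r with hδ
  have hδmono : ∀ r, δ r ≤ δ (r + 1) := by
    intro r
    simp only [hδ]
    exact Nat.mul_le_mul_left _ (Nat.pow_le_pow_right (by omega) (by omega))
  have hδle : ∀ r ≤ k, δ r ≤ δ k := fun r hr => Nat.mul_le_mul_left _
    (Nat.pow_le_pow_right (by omega) hr)
  have hδk : 16 * δ k ≤ 2 ^ lam := hb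
  have hgδ : ∀ r, g ≤ δ r := fun r => Nat.le_mul_of_pos_right _ (Nat.pow_pos (by omega))
  set S : ℕ → Finset ι := fun r => I.filter (fun i => M - δ r ≤ w i) with hS
  have hSmono : ∀ r, S r ⊆ S (r + 1) := by
    intro r i hi
    rw [mem_filter] at hi ⊢
    refine ⟨hi.1, le_trans ?_ hi.2⟩
    have : (δ r : ℝ) ≤ δ (r + 1) := by exact_mod_cast hδmono r
    linarith
  obtain ⟨r, hrk, hr⟩ := chain (k := k) (fun r => (S r).card) (fun r => card_le_card (hSmono r))
    (by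
      apply card_pos.2
      refine ⟨i₂, mem_filter.2 ⟨hi₂, ?_⟩⟩
      have : (0 : ℝ) ≤ δ 0 := Nat.cast_nonneg _
      linarith)
    ((card_le_card (filter_subset _ _)).trans hcard)
  have hSS : S r = S (r + 1) := eq_of_subset_of_card_le (hSmono r) hr.symm.le
  have hTI : S r ⊆ I := filter_subset _ _
  have hrest : ∀ i ∈ I \ S r, w i ≤ M - δ (r + 1) := by
    intro i hi
    rw [mem_sdiff] at hi
    have h1 : i ∉ S (r + 1) := hSS ▸ hi.2
    by_contra hc
    exact h1 (mem_filter.2 ⟨hi.1, (not_le.1 hc).le⟩)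
  refine ⟨S r, hTI, ⟨i₂, mem_filter.2 ⟨hi₂, ?_⟩⟩, ?_⟩
  · have : (0 : ℝ) ≤ δ r := Nat.cast_nonneg _
    linarith
  -- real inequalities between the scales
  have hlamR : (1 : ℝ) ≤ lam := by exact_mod_cast hlam1
  have dg : (g : ℝ) ≤ δ r := by exact_mod_cast hgδ r
  have dk : (δ r : ℝ) ≤ δ k := by exact_mod_cast hδle r hrk.le
  have dk1 : (δ (r + 1) : ℝ) ≤ δ k := by exact_mod_cast hδle (r + 1) hrk
  have dk2 : 16 * (δ k : ℝ) ≤ 2 ^ lam := by exact_mod_cast hδk
  have gk : (g : ℝ) = k + G + 10 := by rw [hg]; push_cast; ring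
  have k1 : (1 : ℝ) ≤ k := by exact_mod_cast hk
  have G0 : (0 : ℝ) ≤ G := Nat.cast_nonneg _
  have dsucc : (δ (r + 1) : ℝ) = (2 ^ 84 * (lam : ℝ) ^ 3) * δ r := by
    simp only [hδ]
    rw [pow_succ, hE]
    push_cast
    ring
  -- exponents of the common factors
  have hc0 : 0 ≤ M - δ r := by
    have : (0 : ℝ) < 2 ^ lam := by positivity
    linarith
  set x : ℕ := ⌈(M - δ r) / Real.log 2⌉₊ with hx
  set y : ℕ := ⌈(M - δ r) / Real.log 3⌉₊ with hy
  have l2 := log2_bounds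
  have l3 := log3_bounds
  have l2p : (0 : ℝ) < Real.log 2 := by linarith
  have l3p : (0 : ℝ) < Real.log 3 := by linarith
  have hx1 : M - δ r ≤ x * Real.log 2 := by
    rw [← div_le_iff₀ l2p]
    exact Nat.le_ceil _
  have hy1 : M - δ r ≤ y * Real.log 3 := by
    rw [← div_le_iff₀ l3p]
    exact Nat.le_ceil _
  have hx2 : x ≤ 2 ^ (lam + 1 + 1) := by
    have h1 : (x : ℝ) < (M - δ r) / Real.log 2 + 1 :=
      Nat.ceil_lt_add_one (div_nonneg hc0 l2p.le)
    have h2 : (M - δ r) / Real.log 2 ≤ 1.4 * 2 ^ lam / 0.69 :=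
      div_le_div₀ (by positivity) (by linarith [Nat.cast_nonneg (α := ℝ) (δ r)])
        (by norm_num) l2.1.le
    have h3 : (1 : ℝ) ≤ 2 ^ lam := one_le_pow₀ (by norm_num)
    have h4 : (1.4 : ℝ) * 2 ^ lam / 0.69 ≤ 2.1 * 2 ^ lam := by
      rw [div_le_iff₀ (by norm_num)]
      nlinarith
    have h5 : (x : ℝ) ≤ ((2 ^ (lam + 1 + 1) : ℕ) : ℝ) := by
      push_cast
      rw [pow_succ, pow_succ]
      linarith
    exact_mod_cast h5
  have hy2 : y ≤ 2 ^ (lam + 1 + 1) := by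
    have h1 : (y : ℝ) < (M - δ r) / Real.log 3 + 1 :=
      Nat.ceil_lt_add_one (div_nonneg hc0 l3p.le)
    have h2 : (M - δ r) / Real.log 3 ≤ 1.4 * 2 ^ lam / 1 :=
      div_le_div₀ (by positivity) (by linarith [Nat.cast_nonneg (α := ℝ) (δ r)])
        (by norm_num) l3.1
    have h3 : (1 : ℝ) ≤ 2 ^ lam := one_le_pow₀ (by norm_num)
    rw [div_one] at h2
    have h5 : (y : ℝ) ≤ ((2 ^ (lam + 1 + 1) : ℕ) : ℝ) := by
      push_cast
      rw [pow_succ, pow_succ]
      linarith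
    exact_mod_cast h5
  have hle2 : ∀ i ∈ (S r).filter (fun i => t i = false), x ≤ e i := by
    intro i hi
    rw [mem_filter] at hi
    have h1 := (mem_filter.1 hi.1).2
    apply Nat.ceil_le.2
    rw [div_le_iff₀ l2p]
    refine h1.trans (le_of_eq ?_)
    simp only [hw, wt, hi.2, bas]
    norm_num
  have hle3 : ∀ i ∈ (S r).filter (fun i => t i = true), y ≤ e i := by
    intro i hi
    rw [mem_filter] at hi
    have h1 := (mem_filter.1 hi.1).2
    apply Nat.ceil_le.2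
    rw [div_le_iff₀ l3p]
    refine h1.trans (le_of_eq ?_)
    simp only [hw, wt, hi.2, bas]
    norm_num
  obtain ⟨A, hA, hAb⟩ := part ((S r).filter (fun i => t i = false)) s e 2 x (by norm_num)
    (D := δ r) (fun i hi => hs i (hTI (mem_filter.1 hi).1)) hle2 (by
      intro i hi
      rw [mem_filter] at hi
      have h1 : w i ≤ M := hmaxw i (hTI hi.1)
      have h2 : w i = e i * Real.log ((2 : ℕ) : ℝ) := by
        simp only [hw, wt, hi.2, bas]
      have h3 : Real.log ((2 : ℕ) : ℝ) = Real.log 2 := by norm_num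
      rw [← h2, h3]
      linarith)
  obtain ⟨B, hB, hBb⟩ := part ((S r).filter (fun i => t i = true)) s e 3 y (by norm_num)
    (D := δ r) (fun i hi => hs i (hTI (mem_filter.1 hi).1)) hle3 (by
      intro i hi
      rw [mem_filter] at hi
      have h1 : w i ≤ M := hmaxw i (hTI hi.1)
      have h2 : w i = e i * Real.log ((3 : ℕ) : ℝ) := by
        simp only [hw, wt, hi.2, bas]
      have h3 : Real.log ((3 : ℕ) : ℝ) = Real.log 3 := by norm_num
      rw [← h2, h3]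
      linarith)
  have hA' : ∑ i ∈ S r with t i = false, s i * (2 : ℤ) ^ e i = A * 2 ^ x := by
    exact_mod_cast hA
  have hB' : ∑ i ∈ S r with t i = true, s i * (3 : ℤ) ^ e i = B * 3 ^ y := by
    exact_mod_cast hB
  rw [hA', hB']
  by_cases hne : A = 0 ∧ B = 0
  · rw [hne.1, hne.2]
    simp
  exfalso
  -- lower bound
  have hcT : ((S r).card : ℝ) ≤ k := by exact_mod_cast (card_le_card hTI).trans hcard
  have hkexp : (k : ℝ) ≤ Real.exp k := by linarith [Real.add_one_le_exp (k : ℝ)]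
  have hABexp : ∀ T' ⊆ S r, (T'.card : ℝ) * Real.exp (δ r) ≤ Real.exp ((k + δ r : ℕ) : ℝ) := by
    intro T' hT'
    have h1 : (T'.card : ℝ) ≤ k := le_trans (by exact_mod_cast card_le_card hT') hcT
    push_cast
    rw [Real.exp_add]
    exact mul_le_mul_of_nonneg_right (h1.trans hkexp) (Real.exp_pos _).le
  have hm2 : Real.exp (M - δ r) ≤ 2 ^ x := by
    rw [Par.pow_exp (by norm_num)]
    exact Real.exp_le_exp.2 hx1
  have hm3 : Real.exp (M - δ r) ≤ 3 ^ y := by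
    rw [Par.pow_exp (by norm_num)]
    exact Real.exp_le_exp.2 hy1
  have hkδ : k + δ r ≤ 2 ^ (lam + 1 + 1) := by
    have h1 : k ≤ g := by omega
    have h2 := hgδ r
    have h3 := hδle r hrk.le
    have h4 : 2 ^ (lam + 1 + 1) = 4 * 2 ^ lam := by
      rw [pow_succ, pow_succ]
      ring
    omega
  have low := core_gap (A := A) (B := B) (x := x) (y := y) (lam := lam + 1 + 1) (h := k + δ r)
    (m := Real.exp (M - δ r)) (by omega)
    (by have := hgδ r; omega) hkδ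
    (hAb.trans (hABexp _ (filter_subset _ _))) (hBb.trans (hABexp _ (filter_subset _ _)))
    hx2 hy2 hm2 hm3 (Real.exp_pos _)
    (by
      apply Real.exp_lt_exp.2
      push_cast
      have : (0 : ℝ) < 2 ^ lam := by positivity
      linarith)
    hne
  -- upper bound
  have hsplit : ∑ i ∈ I, s i * (bas (t i) : ℤ) ^ e i = (A * 2 ^ x + B * 3 ^ y) +
      ∑ i ∈ I \ S r, s i * (bas (t i) : ℤ) ^ e i := by
    rw [← sum_sdiff hTI, add_comm]
    congr 1
    rw [← hA', ← hB']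
    rw [← sum_filter_add_sum_filter_not (S r) (fun i => t i = false)]
    congr 1
    · refine sum_congr rfl fun i hi => ?_
      rw [(mem_filter.1 hi).2]
      rfl
    · have : (S r).filter (fun i => ¬ t i = false) = (S r).filter (fun i => t i = true) := by
        ext i
        simp
      rw [this]
      refine sum_congr rfl fun i hi => ?_
      rw [(mem_filter.1 hi).2]
      rfl
  have hup : |(A : ℝ) * 2 ^ x + B * 3 ^ y| ≤ G + k * Real.exp (M - δ (r + 1)) := by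
    have h1 : |((∑ i ∈ I, s i * (bas (t i) : ℤ) ^ e i : ℤ) : ℝ)| ≤ G := by exact_mod_cast hc
    have h2 : |((∑ i ∈ I \ S r, s i * (bas (t i) : ℤ) ^ e i : ℤ) : ℝ)| ≤
        k * Real.exp (M - δ (r + 1)) := by
      push_cast
      refine (abs_sum_le_sum_abs _ _).trans ?_
      have h3 : ∀ i ∈ I \ S r, |(s i : ℝ) * (bas (t i) : ℝ) ^ e i| ≤
          Real.exp (M - δ (r + 1)) := by
        intro i hi
        have h4 : |(s i : ℝ)| ≤ 1 := by exact_mod_cast hs i (mem_sdiff.1 hi).1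
        rw [abs_mul, ← exp_wt, abs_of_pos (Real.exp_pos _)]
        calc |(s i : ℝ)| * Real.exp (wt (t i) (e i)) ≤ 1 * Real.exp (wt (t i) (e i)) :=
              mul_le_mul_of_nonneg_right h4 (Real.exp_pos _).le
          _ ≤ _ := by
              rw [one_mul]
              exact Real.exp_le_exp.2 (hrest i hi)
      refine (sum_le_sum h3).trans ?_
      rw [sum_const, nsmul_eq_mul]
      refine mul_le_mul_of_nonneg_right ?_ (Real.exp_pos _).le
      exact_mod_cast (card_le_card sdiff_subset).trans hcard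
    have h5 : (A : ℝ) * 2 ^ x + B * 3 ^ y = ((∑ i ∈ I, s i * (bas (t i) : ℤ) ^ e i : ℤ) : ℝ) -
        ((∑ i ∈ I \ S r, s i * (bas (t i) : ℤ) ^ e i : ℤ) : ℝ) := by
      rw [hsplit]
      push_cast
      ring
    rw [h5]
    exact (abs_sub _ _).trans (add_le_add h1 h2)
  -- comparison
  set Q : ℝ := 2 ^ 73 * ((k + δ r : ℕ) : ℝ) * ((lam + 1 + 1 : ℕ) : ℝ) ^ 3 with hQ
  have hQle : Q + δ r + 2 * k ≤ δ (r + 1) := by
    have h1 : ((k + δ r : ℕ) : ℝ) ≤ 2 * δ r := by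
      push_cast
      linarith
    have h2 : ((lam + 1 + 1 : ℕ) : ℝ) ^ 3 ≤ 27 * (lam : ℝ) ^ 3 := by
      have h3 : ((lam + 1 + 1 : ℕ) : ℝ) ≤ 3 * lam := by
        push_cast
        linarith
      calc ((lam + 1 + 1 : ℕ) : ℝ) ^ 3 ≤ (3 * (lam : ℝ)) ^ 3 :=
            pow_le_pow_left₀ (Nat.cast_nonneg _) h3 _
        _ = 27 * (lam : ℝ) ^ 3 := by ring
    have h4 : Q ≤ 2 ^ 73 * (2 * δ r) * (27 * (lam : ℝ) ^ 3) := by
      rw [hQ]
      exact mul_le_mul (mul_le_mul_of_nonneg_left h1 (by norm_num)) h2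
        (pow_nonneg (Nat.cast_nonneg _) _)
        (mul_nonneg (by norm_num) (mul_nonneg (by norm_num) (Nat.cast_nonneg _)))
    have h5 : (1 : ℝ) ≤ (lam : ℝ) ^ 3 := one_le_pow₀ hlamR
    have h6 : (δ r : ℝ) ≤ (lam : ℝ) ^ 3 * δ r := by
      have : (0 : ℝ) ≤ δ r := Nat.cast_nonneg _
      nlinarith
    rw [dsucc]
    have h7 : (2 : ℝ) ^ 73 * (2 * δ r) * (27 * (lam : ℝ) ^ 3) =
        (2 ^ 73 * 54) * ((lam : ℝ) ^ 3 * δ r) := by ring
    have h8 : (2 ^ 84 * (lam : ℝ) ^ 3) * δ r = 2 ^ 84 * ((lam : ℝ) ^ 3 * δ r) := by ring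
    have h9 : (0 : ℝ) ≤ (lam : ℝ) ^ 3 * δ r := by positivity
    rw [h8]
    have h10 : ((2 : ℝ) ^ 73 * 54 + 3) * ((lam : ℝ) ^ 3 * δ r) ≤
        2 ^ 84 * ((lam : ℝ) ^ 3 * δ r) := mul_le_mul_of_nonneg_right (by norm_num) h9
    linarith
  have hlow' : Real.exp (M - δ r - Q) ≤ G + k * Real.exp (M - δ (r + 1)) := by
    have h1 : Real.exp (M - δ r - Q) = Real.exp (M - δ r) * Real.exp (-Q) := by
      rw [← Real.exp_add, ← sub_eq_add_neg]
    rw [h1]
    exact low.trans hup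
  have t1 : (2 * k + 1) * Real.exp (M - δ (r + 1)) ≤ Real.exp (M - δ r - Q) := by
    have h1 : (2 * (k : ℝ) + 1) ≤ Real.exp (2 * k) := Real.add_one_le_exp _
    calc (2 * (k : ℝ) + 1) * Real.exp (M - δ (r + 1)) ≤
        Real.exp (2 * k) * Real.exp (M - δ (r + 1)) :=
          mul_le_mul_of_nonneg_right h1 (Real.exp_pos _).le
      _ = Real.exp (2 * k + (M - δ (r + 1))) := (Real.exp_add _ _).symm
      _ ≤ _ := by
          apply Real.exp_le_exp.2
          linarith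
  have t2 : (G : ℝ) < Real.exp (M - δ (r + 1)) := by
    have h1 := Real.add_one_le_exp (M - δ (r + 1))
    linarith
  have t3 : (0 : ℝ) < Real.exp (M - δ (r + 1)) := Real.exp_pos _
  nlinarith

/-- All exponents outside a special relation are small. -/
theorem gap {ι : Type} [DecidableEq ι] (s : ι → ℤ) (t : ι → Bool) (e : ι → ℕ)
    {k G lam₀ : ℕ} (hk : 1 ≤ k)
    (hbig : ∀ lam ≥ lam₀, 16 * ((k + G + 10) * (2 ^ 84 * lam ^ 3) ^ k) ≤ 2 ^ lam) :
    ∀ (n : ℕ) (I : Finset ι), I.card ≤ n → I.card ≤ k → (∀ i ∈ I, |s i| ≤ 1) →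
    |∑ i ∈ I, s i * (bas (t i) : ℤ) ^ e i| ≤ G →
    ∃ T ⊆ I, ∑ i ∈ T with t i = false, s i * (2 : ℤ) ^ e i = 0 ∧
      ∑ i ∈ T with t i = true, s i * (3 : ℤ) ^ e i = 0 ∧ ∀ i ∈ I \ T, e i < 2 ^ lam₀ := by
  intro n
  induction n with
  | zero =>
    intro I hI _ _ _
    have : I = ∅ := card_eq_zero.1 (by omega)
    subst this
    exact ⟨∅, Subset.rfl, by simp, by simp, by simp⟩
  | succ n ih =>
    intro I hI hIk hs hc
    by_cases hall : ∀ i ∈ I, e i < 2 ^ lam₀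
    · exact ⟨∅, empty_subset _, by simp, by simp, fun i hi => hall i (mem_sdiff.1 hi).1⟩
    · push Not at hall
      obtain ⟨i₀, hi₀, he⟩ := hall
      obtain ⟨T, hTI, hTne, hT2, hT3⟩ := gap_step I s t e hk hIk hs hbig hc hi₀ he
      have hlt : (I \ T).card < I.card := by
        apply card_lt_card
        rw [ssubset_iff_subset_ne]
        refine ⟨sdiff_subset, fun h => ?_⟩
        obtain ⟨i, hi⟩ := hTne
        have : i ∈ I \ T := by
          rw [h]
          exact hTI hi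
        exact (mem_sdiff.1 this).2 hi
      have hzero : ∑ i ∈ T, s i * (bas (t i) : ℤ) ^ e i = 0 := by
        rw [← sum_filter_add_sum_filter_not T (fun i => t i = false)]
        have h1 : ∑ i ∈ T with t i = false, s i * (bas (t i) : ℤ) ^ e i = 0 := by
          rw [← hT2]
          refine sum_congr rfl fun i hi => ?_
          rw [(mem_filter.1 hi).2]
          rfl
        have h2 : ∑ i ∈ T with ¬ t i = false, s i * (bas (t i) : ℤ) ^ e i = 0 := by
          rw [← hT3]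
          have : T.filter (fun i => ¬ t i = false) = T.filter (fun i => t i = true) := by
            ext i
            simp
          rw [this]
          refine sum_congr rfl fun i hi => ?_
          rw [(mem_filter.1 hi).2]
          rfl
        rw [h1, h2, add_zero]
      have hsum : ∑ i ∈ I \ T, s i * (bas (t i) : ℤ) ^ e i =
          ∑ i ∈ I, s i * (bas (t i) : ℤ) ^ e i := by
        rw [← sum_sdiff hTI, hzero, add_zero]
      obtain ⟨T', hT'I, hT'2, hT'3, hT's⟩ := ih (I \ T) (by omega) (by omega)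
        (fun i hi => hs i (mem_sdiff.1 hi).1) (by rw [hsum]; exact hc)
      have hdis : Disjoint T T' := by
        rw [disjoint_left]
        intro i hi hi'
        exact (mem_sdiff.1 (hT'I hi')).2 hi
      refine ⟨T ∪ T', union_subset hTI (hT'I.trans sdiff_subset), ?_, ?_, ?_⟩
      · rw [filter_union, sum_union (disjoint_filter_filter hdis), hT2, hT'2, add_zero]
      · rw [filter_union, sum_union (disjoint_filter_filter hdis), hT3, hT'3, add_zero]
      · intro i hi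
        rw [mem_sdiff, mem_union, not_or] at hi
        exact hT's i (mem_sdiff.2 ⟨mem_sdiff.2 ⟨hi.1, hi.2.1⟩, hi.2.2⟩)

/-- An admissible bound. -/
theorem bound_ok {m k G : ℕ} (hm : 1 ≤ m) (hk : k ≤ m) (hG : G ≤ 2 ^ m) :
    ∀ lam ≥ 10000 * m ^ 2, 16 * ((k + G + 10) * (2 ^ 84 * lam ^ 3) ^ k) ≤ 2 ^ lam := by
  intro lam hlam
  obtain ⟨u, hu⟩ : ∃ u, u = Nat.sqrt lam := ⟨_, rfl⟩
  have hu1 : u * u ≤ lam := by
    rw [hu]
    exact Nat.sqrt_le lam
  have hu2 : lam < (u + 1) * (u + 1) := by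
    rw [hu]
    exact Nat.lt_succ_sqrt lam
  have hum : 100 * m ≤ u := by
    rw [hu, Nat.le_sqrt]
    nlinarith
  have h1 : lam ≤ 2 ^ (2 * u) := by
    have h2 : u + 1 ≤ 2 ^ u := Nat.lt_two_pow_self
    calc lam ≤ (u + 1) * (u + 1) := hu2.le
      _ ≤ 2 ^ u * 2 ^ u := Nat.mul_le_mul h2 h2
      _ = 2 ^ (2 * u) := by
          rw [two_mul, pow_add]
  have h2 : (2 ^ 84 * lam ^ 3) ^ k ≤ 2 ^ ((84 + 6 * u) * m) := by
    have h3 : 2 ^ 84 * lam ^ 3 ≤ 2 ^ (84 + 6 * u) := by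
      rw [pow_add]
      refine Nat.mul_le_mul_left _ ?_
      calc lam ^ 3 ≤ (2 ^ (2 * u)) ^ 3 := Nat.pow_le_pow_left h1 3
        _ = 2 ^ (6 * u) := by
            rw [← pow_mul]
            congr 1
            ring
    calc (2 ^ 84 * lam ^ 3) ^ k ≤ (2 ^ (84 + 6 * u)) ^ k := Nat.pow_le_pow_left h3 k
      _ = 2 ^ ((84 + 6 * u) * k) := (pow_mul _ _ _).symm
      _ ≤ 2 ^ ((84 + 6 * u) * m) :=
          Nat.pow_le_pow_right (by norm_num) (Nat.mul_le_mul_left _ hk)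
  have h4 : k + G + 10 ≤ 2 ^ (m + 4) := by
    have h5 : m < 2 ^ m := Nat.lt_two_pow_self
    have h6 : 2 ^ (m + 4) = 16 * 2 ^ m := by
      rw [pow_add]
      ring
    omega
  have h7 : 4 + (m + 4) + (84 + 6 * u) * m ≤ lam := by
    have h8 : (84 + 6 * u) * m = 84 * m + 6 * (u * m) := by ring
    have h9 : 100 * (u * m) ≤ u * u := by nlinarith
    have h10 : 100 * m ≤ u * m := by nlinarith
    nlinarith
  calc 16 * ((k + G + 10) * (2 ^ 84 * lam ^ 3) ^ k) ≤
      2 ^ 4 * (2 ^ (m + 4) * 2 ^ ((84 + 6 * u) * m)) :=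
        Nat.mul_le_mul (by norm_num) (Nat.mul_le_mul h4 h2)
    _ = 2 ^ (4 + (m + 4) + (84 + 6 * u) * m) := by
        rw [pow_add 2 (4 + (m + 4)) _, pow_add 2 4 (m + 4)]
        ring
    _ ≤ 2 ^ lam := Nat.pow_le_pow_right (by norm_num) h7

end BK21
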