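import Mathlib

/-!
# Interpolation of exponentials at nodes with multiplicities
-/

set_option autoImplicit false

namespace BK21

open Finset

/-- Geometric series. -/
noncomputable def geo (y : ℝ) : PowerSeries ℝ := PowerSeries.mk fun n => y ^ n

theorem geo_mul (y : ℝ) : (1 - PowerSeries.C y * PowerSeries.X) * geo y = 1 := by
  ext n
  cases n with
  | zero => simp [geo]
  | succ n =>
    rw [sub_mul, one_mul, map_sub, mul_assoc, PowerSeries.coeff_C_mul,
      PowerSeries.coeff_succ_X_mul]
    simp [geo, pow_succ, PowerSeries.coeff_one]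
    ring

theorem geo_sub (y y' : ℝ) : geo y - geo y' =
    PowerSeries.C (y - y') * PowerSeries.X * (geo y * geo y') := by
  rw [map_sub]
  linear_combination (-(geo y)) * geo_mul y' + geo y' * geo_mul y

/-- Bound for coefficients. -/
def Bd (k : ℕ) (ρ : ℝ) (g : PowerSeries ℝ) : Prop :=
  ∀ n, |PowerSeries.coeff n g| ≤ ((n + k).choose k : ℕ) * ρ ^ n

/-- Divided differences of exponentials. -/
noncomputable def dd (k : ℕ) (g : PowerSeries ℝ) (u : ℝ) : ℝ :=
  ∑' n, PowerSeries.coeff n g * (u ^ (n + k) / (n + k).factorial)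

theorem exp_hasSum (x : ℝ) : HasSum (fun n : ℕ => x ^ n / n.factorial) (Real.exp x) := by
  rw [Real.exp_eq_exp_ℝ]
  exact NormedSpace.expSeries_div_hasSum_exp x

theorem term_eq (k n : ℕ) (ρ u : ℝ) : ((n + k).choose k : ℕ) * ρ ^ n *
    (u ^ (n + k) / (n + k).factorial) = u ^ k / k.factorial * ((ρ * u) ^ n / n.factorial) := by
  have h := Nat.add_choose_mul_factorial_mul_factorial n k
  have h1 : ((n + k).choose k : ℝ) * n.factorial * k.factorial = (n + k).factorial := by
    have h0 : (n + k).choose n = (n + k).choose k := Nat.choose_symm_add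
    try rw [h0] at h
    exact_mod_cast h
  have h2 : ((n + k).factorial : ℝ) ≠ 0 := by positivity
  have h3 : (n.factorial : ℝ) ≠ 0 := by positivity
  have h4 : (k.factorial : ℝ) ≠ 0 := by positivity
  rw [mul_pow, pow_add]
  field_simp
  rw [← h1]
  ring

theorem Bd.bound {k : ℕ} {ρ : ℝ} {g : PowerSeries ℝ} (h : Bd k ρ g) (u : ℝ) (n : ℕ) :
    |PowerSeries.coeff n g * (u ^ (n + k) / (n + k).factorial)| ≤
      |u| ^ k / k.factorial * ((ρ * |u|) ^ n / n.factorial) := by
  rw [← term_eq, abs_mul, abs_div, abs_pow, Nat.abs_cast]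
  exact mul_le_mul_of_nonneg_right (h n) (by positivity)

theorem Bd.summable {k : ℕ} {ρ : ℝ} {g : PowerSeries ℝ} (h : Bd k ρ g) (u : ℝ) :
    Summable fun n => PowerSeries.coeff n g * (u ^ (n + k) / (n + k).factorial) := by
  refine Summable.of_norm_bounded ((exp_hasSum (ρ * |u|)).summable.mul_left
    (|u| ^ k / k.factorial)) fun n => ?_
  rw [Real.norm_eq_abs]
  exact h.bound u n

theorem Bd.dd_le {k : ℕ} {ρ : ℝ} {g : PowerSeries ℝ} (h : Bd k ρ g) (u : ℝ) :
    |dd k g u| ≤ |u| ^ k / k.factorial * Real.exp (ρ * |u|) := by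
  have h1 := ((exp_hasSum (ρ * |u|)).mul_left (|u| ^ k / k.factorial))
  rw [← Real.norm_eq_abs, ← h1.tsum_eq]
  refine (norm_tsum_le_tsum_norm ?_).trans ?_
  · exact (h.summable u).norm
  · refine (h.summable u).norm.tsum_le_tsum (fun n => ?_) h1.summable
    rw [Real.norm_eq_abs]
    exact h.bound u n

theorem bd_geo {ρ y : ℝ} (hy : |y| ≤ ρ) : Bd 0 ρ (geo y) := by
  intro n
  simp only [geo, PowerSeries.coeff_mk, add_zero, Nat.choose_zero_right, Nat.cast_one, one_mul]
  rw [abs_pow]
  exact pow_le_pow_left₀ (abs_nonneg _) hy n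

theorem Bd.geo_mul {k : ℕ} {ρ y : ℝ} {g : PowerSeries ℝ} (h : Bd k ρ g) (hy : |y| ≤ ρ) :
    Bd (k + 1) ρ (geo y * g) := by
  have hρ : 0 ≤ ρ := (abs_nonneg y).trans hy
  intro n
  rw [PowerSeries.coeff_mul]
  refine (abs_sum_le_sum_abs _ _).trans ?_
  have h1 : ∀ ij ∈ antidiagonal n, |PowerSeries.coeff ij.1 (geo y) * PowerSeries.coeff ij.2 g| ≤
      ((k + ij.2).choose k : ℕ) * ρ ^ n := by
    intro ij hij
    rw [HasAntidiagonal.mem_antidiagonal] at hij
    have h2 := bd_geo hy ij.1
    simp only [add_zero, Nat.choose_zero_right, Nat.cast_one, one_mul] at h2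
    rw [abs_mul]
    calc |PowerSeries.coeff ij.1 (geo y)| * |PowerSeries.coeff ij.2 g|
        ≤ ρ ^ ij.1 * (((ij.2 + k).choose k : ℕ) * ρ ^ ij.2) :=
          mul_le_mul h2 (h _) (abs_nonneg _) (by positivity)
      _ = ((k + ij.2).choose k : ℕ) * ρ ^ n := by
          rw [← hij, pow_add, add_comm k]
          ring
  refine (sum_le_sum h1).trans ?_
  rw [← sum_mul]
  apply le_of_eq
  congr 1
  rw [← Nat.cast_sum, sum_antidiagonal_choose_add]
  rw [show k + n + 1 = n + (k + 1) by ring]

theorem dd_sub {k : ℕ} {g g' : PowerSeries ℝ} {ρ : ℝ} (h : Bd k ρ g) (h' : Bd k ρ g') (u : ℝ) :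
    dd k (g - g') u = dd k g u - dd k g' u := by
  unfold dd
  rw [← (h.summable u).tsum_sub (h'.summable u)]
  congr 1
  funext n
  rw [map_sub, sub_mul]

theorem dd_rec {k : ℕ} {y y' ρ : ℝ} {g : PowerSeries ℝ} (h : Bd k ρ (geo y * g))
    (h' : Bd k ρ (geo y' * g)) (h2 : Bd (k + 1) ρ (geo y * geo y' * g)) (u : ℝ) :
    (y - y') * dd (k + 1) (geo y * geo y' * g) u =
      dd k (geo y * g) u - dd k (geo y' * g) u := by
  rw [← dd_sub h h' u, ← sub_mul, geo_sub]
  unfold dd
  have hs : Summable fun n => PowerSeries.coeff n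
      (PowerSeries.C (y - y') * PowerSeries.X * (geo y * geo y') * g) *
        (u ^ (n + k) / (n + k).factorial) := by
    have := (h.summable u).sub (h'.summable u)
    refine this.congr fun n => ?_
    rw [← geo_sub, sub_mul, map_sub, sub_mul]
  rw [hs.tsum_eq_zero_add, ← tsum_mul_left]
  have h0 : PowerSeries.coeff 0 (PowerSeries.C (y - y') * PowerSeries.X * (geo y * geo y') * g) =
      0 := by
    simp
  rw [h0, zero_mul, zero_add]
  congr 1
  funext n
  have h1 : PowerSeries.C (y - y') * PowerSeries.X * (geo y * geo y') * g =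
      PowerSeries.C (y - y') * (PowerSeries.X * (geo y * geo y' * g)) := by ring
  rw [h1, PowerSeries.coeff_C_mul, PowerSeries.coeff_succ_X_mul,
    show n + 1 + k = n + (k + 1) by ring]
  ring

theorem coeff_geo_pow (k n : ℕ) (y : ℝ) : PowerSeries.coeff n (geo y ^ (k + 1)) =
    ((n + k).choose k : ℕ) * y ^ n := by
  induction k generalizing n with
  | zero => simp [geo]
  | succ k ih =>
    rw [pow_succ', PowerSeries.coeff_mul]
    have h1 : ∀ ij ∈ antidiagonal n, PowerSeries.coeff ij.1 (geo y) *
        PowerSeries.coeff ij.2 (geo y ^ (k + 1)) = ((k + ij.2).choose k : ℕ) * y ^ n := by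
      intro ij hij
      rw [HasAntidiagonal.mem_antidiagonal] at hij
      rw [ih, ← hij, pow_add, add_comm k, geo, PowerSeries.coeff_mk]
      ring
    rw [sum_congr rfl h1, ← sum_mul, ← Nat.cast_sum, sum_antidiagonal_choose_add,
      show k + n + 1 = n + (k + 1) by ring]

theorem dd_geo_pow (k : ℕ) (y u : ℝ) :
    dd k (geo y ^ (k + 1)) u = u ^ k / k.factorial * Real.exp (y * u) := by
  unfold dd
  rw [← ((exp_hasSum (y * u)).mul_left (u ^ k / k.factorial)).tsum_eq]
  congr 1
  funext n
  rw [coeff_geo_pow, term_eq]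

/-- The node. -/
def node (l : ℕ) : ℝ := 2 * l + 1

/-- The product of the geometric series of the nodes. -/
noncomputable def gen (ls : List ℕ) : PowerSeries ℝ := (ls.map fun l => geo (node l)).prod

theorem gen_cons (l : ℕ) (ls : List ℕ) : gen (l :: ls) = geo (node l) * gen ls := by
  simp [gen]

theorem gen_perm {ls ls' : List ℕ} (h : ls.Perm ls') : gen ls = gen ls' :=
  (h.map _).prod_eq

theorem abs_node {n l : ℕ} (h : l < n) : |node l| ≤ 2 * n := by
  have h1 : (0 : ℝ) ≤ node l := by
    unfold node
    positivity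
  rw [abs_of_nonneg h1]
  unfold node
  have : (l : ℝ) + 1 ≤ n := by exact_mod_cast h
  linarith

theorem bd_gen {n : ℕ} : ∀ (ls : List ℕ) (l : ℕ), (∀ i ∈ l :: ls, i < n) →
    Bd ls.length (2 * n) (gen (l :: ls)) := by
  intro ls
  induction ls with
  | nil =>
    intro l hl
    rw [gen_cons]
    simpa [gen] using bd_geo (abs_node (hl l (by simp)))
  | cons l' ls ih =>
    intro l hl
    rw [gen_cons, List.length_cons]
    exact (ih l' fun i hi => hl i (List.mem_cons_of_mem _ hi)).geo_mul
      (abs_node (hl l (by simp)))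

/-- Combinations of `u ^ t * exp (node * u)`. -/
def Rep (n M : ℕ) (C : ℝ) (F : ℝ → ℝ) : Prop :=
  ∃ c : ℕ → ℕ → ℝ, (∀ u, F u = ∑ l ∈ range n, ∑ t ∈ range M,
    c l t * (u ^ t * Real.exp (node l * u))) ∧ ∑ l ∈ range n, ∑ t ∈ range M, |c l t| ≤ C

theorem Rep.add {n M : ℕ} {C C' : ℝ} {F F' : ℝ → ℝ} (h : Rep n M C F) (h' : Rep n M C' F') :
    Rep n M (C + C') (fun u => F u + F' u) := by
  obtain ⟨c, h1, h2⟩ := h
  obtain ⟨c', h1', h2'⟩ := h'
  refine ⟨fun l t => c l t + c' l t, fun u => ?_, ?_⟩
  · beta_reduce
    rw [h1, h1', ← sum_add_distrib]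
    refine sum_congr rfl fun l _ => ?_
    rw [← sum_add_distrib]
    exact sum_congr rfl fun t _ => by ring
  · refine le_trans ?_ (add_le_add h2 h2')
    rw [← sum_add_distrib]
    refine sum_le_sum fun l _ => ?_
    rw [← sum_add_distrib]
    exact sum_le_sum fun t _ => abs_add_le _ _

theorem Rep.smul {n M : ℕ} {C : ℝ} {F : ℝ → ℝ} (h : Rep n M C F) (a : ℝ) :
    Rep n M (|a| * C) (fun u => a * F u) := by
  obtain ⟨c, h1, h2⟩ := h
  refine ⟨fun l t => a * c l t, fun u => ?_, ?_⟩
  · beta_reduce
    rw [h1, mul_sum]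
    refine sum_congr rfl fun l _ => ?_
    rw [mul_sum]
    exact sum_congr rfl fun t _ => by ring
  · refine le_trans (le_of_eq ?_) (mul_le_mul_of_nonneg_left h2 (abs_nonneg a))
    rw [mul_sum]
    refine sum_congr rfl fun l _ => ?_
    rw [mul_sum]
    exact sum_congr rfl fun t _ => abs_mul _ _

theorem Rep.mono {n M : ℕ} {C C' : ℝ} {F : ℝ → ℝ} (h : Rep n M C F) (hC : C ≤ C') :
    Rep n M C' F := by
  obtain ⟨c, h1, h2⟩ := h
  exact ⟨c, h1, h2.trans hC⟩

theorem Rep.zero (n M : ℕ) : Rep n M 0 (fun _ => 0) :=
  ⟨fun _ _ => 0, fun u => by simp, by simp⟩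

theorem rep_gen {n M : ℕ} : ∀ (k : ℕ) (ls : List ℕ), ls.length = k + 1 → (∀ i ∈ ls, i < n) →
    (∀ i, ls.count i ≤ M) → Rep n M 1 (dd k (gen ls)) := by
  intro k
  induction k with
  | zero =>
    intro ls hlen hn hM
    obtain ⟨l, rfl⟩ := List.length_eq_one_iff.1 hlen
    have hl := hn l (by simp)
    have hM1 : 0 < M := by
      have := hM l
      simp at this
      omega
    refine ⟨fun i t => if i = l ∧ t = 0 then 1 else 0, fun u => ?_, ?_⟩
    · have h1 := dd_geo_pow 0 (node l) u
      simp only [zero_add, pow_one, pow_zero, Nat.factorial_zero, Nat.cast_one, div_one,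
        one_mul] at h1
      have h2 : gen [l] = geo (node l) := by simp [gen]
      rw [h2, h1, sum_eq_single l, sum_eq_single 0]
      · simp
      · intro t _ ht
        simp [ht]
      · intro h
        exact absurd (mem_range.2 hM1) h
      · intro i _ hi
        simp [hi]
      · intro h
        exact absurd (mem_range.2 hl) h
    · rw [sum_eq_single l, sum_eq_single 0]
      · simp
      · intro t _ ht
        simp [ht]
      · intro h
        exact absurd (mem_range.2 hM1) h
      · intro i _ hi
        simp [hi]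
      · intro h
        exact absurd (mem_range.2 hl) h
  | succ k ih =>
    intro ls hlen hn hM
    obtain ⟨l, rest, rfl⟩ : ∃ l rest, ls = l :: rest := by
      cases ls with
      | nil => simp at hlen
      | cons l rest => exact ⟨l, rest, rfl⟩
    have hl := hn l (by simp)
    by_cases hall : ∀ i ∈ rest, i = l
    · have hrest : rest = List.replicate (k + 1) l := by
        rw [List.eq_replicate_iff]
        exact ⟨by simpa using hlen, hall⟩
      have hcount := hM l
      have hgen : gen (l :: rest) = geo (node l) ^ (k + 1 + 1) := by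
        rw [gen_cons, hrest, gen, List.map_replicate, List.prod_replicate, ← pow_succ']
      have hkM : k + 1 < M := by
        rw [hrest, ← List.replicate_succ, List.count_replicate_self] at hcount
        omega
      refine ⟨fun i t => if i = l ∧ t = k + 1 then 1 / ((k + 1).factorial : ℝ) else 0,
        fun u => ?_, ?_⟩
      · rw [hgen, dd_geo_pow, sum_eq_single l, sum_eq_single (k + 1)]
        · simp
          ring
        · intro t _ ht
          simp [ht]
        · intro h
          exact absurd (mem_range.2 hkM) h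
        · intro i _ hi
          simp [hi]
        · intro h
          exact absurd (mem_range.2 hl) h
      · rw [sum_eq_single l, sum_eq_single (k + 1)]
        · have h1 : (1 : ℝ) ≤ (k + 1).factorial := by exact_mod_cast (k + 1).factorial_pos
          simp only [and_self, if_true]
          rw [abs_of_nonneg (by positivity), div_le_one (by positivity)]
          exact h1
        · intro t _ ht
          simp [ht]
        · intro h
          exact absurd (mem_range.2 hkM) h
        · intro i _ hi
          simp [hi]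
        · intro h
          exact absurd (mem_range.2 hl) h
    · push Not at hall
      obtain ⟨l', hl', hne⟩ := hall
      have hperm : rest.Perm (l' :: rest.erase l') := List.perm_cons_erase hl'
      have hlen' : rest.length = k + 1 := by simpa using hlen
      have hlene : (rest.erase l').length = k := by
        have := hperm.length_eq
        simp only [List.length_cons] at this
        omega
      have hl'n := hn l' (List.mem_cons_of_mem _ hl')
      have hsub : ∀ i ∈ rest.erase l', i < n := fun i hi =>
        hn i (List.mem_cons_of_mem _ (List.mem_of_mem_erase hi))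
      have hc1 : ∀ i, (l :: rest.erase l').count i ≤ M := by
        intro i
        refine le_trans ?_ (hM i)
        exact ((List.erase_sublist).cons_cons l).count_le i
      have hc2 : ∀ i, (l' :: rest.erase l').count i ≤ M := by
        intro i
        rw [← hperm.count_eq]
        refine le_trans ?_ (hM i)
        exact (List.sublist_cons_self l rest).count_le i
      have hm1 : ∀ i ∈ l :: rest.erase l', i < n := by
        intro i hi
        rcases List.mem_cons.1 hi with rfl | hi
        · exact hl
        · exact hsub i hi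
      have hm2 : ∀ i ∈ l' :: rest.erase l', i < n := by
        intro i hi
        rcases List.mem_cons.1 hi with rfl | hi
        · exact hl'n
        · exact hsub i hi
      have hm3 : ∀ i ∈ l :: l' :: rest.erase l', i < n := by
        intro i hi
        rcases List.mem_cons.1 hi with rfl | hi
        · exact hl
        · exact hm2 i hi
      have r1 := ih (l :: rest.erase l') (by simp [hlene]) hm1 hc1
      have r2 := ih (l' :: rest.erase l') (by simp [hlene]) hm2 hc2
      have b1 := bd_gen (n := n) _ _ hm1
      have b2 := bd_gen (n := n) _ _ hm2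
      have b3 := bd_gen (n := n) _ _ hm3
      rw [hlene, gen_cons] at b1 b2
      rw [List.length_cons, hlene, gen_cons, gen_cons, ← mul_assoc] at b3
      have hgen : gen (l :: rest) = geo (node l) * geo (node l') * gen (rest.erase l') := by
        rw [gen_cons, gen_perm hperm, gen_cons, mul_assoc]
      have hd : 2 ≤ |node l - node l'| := by
        have h1 : node l - node l' = 2 * ((l : ℝ) - l') := by
          unfold node
          ring
        have h2 : (1 : ℝ) ≤ |(l : ℝ) - l'| := by
          have : (1 : ℤ) ≤ |(l : ℤ) - l'| := Int.one_le_abs (by omega)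
          exact_mod_cast this
        rw [h1, abs_mul, abs_two]
        linarith
      have hd0 : node l - node l' ≠ 0 := by
        intro h
        rw [h] at hd
        norm_num at hd
      have hF : dd (k + 1) (gen (l :: rest)) = fun u => (node l - node l')⁻¹ *
          (dd k (gen (l :: rest.erase l')) u + (-1) * dd k (gen (l' :: rest.erase l')) u) := by
        funext u
        have := dd_rec b1 b2 b3 u
        rw [hgen, gen_cons, gen_cons, eq_inv_mul_iff_mul_eq₀ hd0, this]
        ring
      rw [hF]
      refine ((r1.add (r2.smul (-1))).smul _).mono ?_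
      rw [abs_inv, abs_neg, abs_one]
      rw [inv_mul_le_iff₀ (by linarith)]
      linarith

theorem newton {n M : ℕ} (hn : 0 < n) {w : ℝ} (hw0 : 0 ≤ w) (hw : w ≤ 2 * n) :
    ∀ (ls : List ℕ), (∀ i ∈ ls, i < n) → (∀ i, ls.count i ≤ M) →
      ∃ F : ℝ → ℝ, Rep n M (ls.length * (2 * n) ^ ls.length) F ∧ ∃ π : ℝ,
        |π| ≤ (2 * n) ^ ls.length ∧
        ∀ u, Real.exp (w * u) = F u + π * dd ls.length (geo w * gen ls) u := by
  have hn1 : (1 : ℝ) ≤ n := by exact_mod_cast hn
  have hwρ : |w| ≤ 2 * n := by rwa [abs_of_nonneg hw0]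
  intro ls
  induction ls with
  | nil =>
    intro _ _
    refine ⟨fun _ => 0, by simpa using Rep.zero n M, 1, by simp, fun u => ?_⟩
    have h1 := dd_geo_pow 0 w u
    simp only [zero_add, pow_one, pow_zero, Nat.factorial_zero, Nat.cast_one, div_one,
      one_mul] at h1
    simp [gen, h1]
  | cons l ls ih =>
    intro hl hM
    obtain ⟨F, hF, π, hπ, h⟩ := ih (fun i hi => hl i (List.mem_cons_of_mem _ hi)) fun i =>
      le_trans ((List.sublist_cons_self l ls).count_le i) (hM i)
    have hln := hl l (by simp)
    have r := rep_gen (n := n) (M := M) ls.length (l :: ls) (by simp) hl hM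
    have b1 := bd_gen (n := n) _ _ hl
    rw [gen_cons] at b1
    have b2 : Bd ls.length (2 * n) (geo w * gen ls) := by
      cases ls with
      | nil => simpa [gen] using bd_geo hwρ
      | cons l' ls =>
        exact (bd_gen (n := n) ls l' fun i hi => hl i (List.mem_cons_of_mem _ hi)).geo_mul hwρ
    have b3 : Bd (ls.length + 1) (2 * n) (geo w * geo (node l) * gen ls) := by
      have := b1.geo_mul hwρ
      rwa [← mul_assoc] at this
    have hρ : (1 : ℝ) ≤ 2 * n := by linarith
    refine ⟨fun u => F u + π * dd ls.length (gen (l :: ls)) u, (hF.add (r.smul π)).mono ?_,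
      π * (w - node l), ?_, fun u => ?_⟩
    · rw [mul_one, List.length_cons]
      have h1 : (2 * (n : ℝ)) ^ ls.length ≤ (2 * n) ^ (ls.length + 1) :=
        pow_le_pow_right₀ hρ (Nat.le_succ _)
      have h2 : (0 : ℝ) ≤ ls.length := Nat.cast_nonneg _
      push_cast
      nlinarith
    · rw [abs_mul, List.length_cons, pow_succ]
      refine mul_le_mul hπ ?_ (abs_nonneg _) (by positivity)
      have h1 : (0 : ℝ) ≤ node l := by
        unfold node
        positivity
      have h2 := abs_node hln
      rw [abs_of_nonneg h1] at h2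
      rw [abs_le]
      constructor <;> linarith
    · have h1 := dd_rec b2 b1 b3 u
      rw [List.length_cons, h u, gen_cons]
      have h2 : dd ls.length (geo w * gen ls) u = dd ls.length (geo (node l) * gen ls) u +
          (w - node l) * dd (ls.length + 1) (geo w * geo (node l) * gen ls) u := by
        rw [h1]
        ring
      rw [h2, mul_assoc (geo w)]
      ring

/-- Interpolation of `exp (w * u)` at the odd numbers below `2 * n`, with multiplicity `M`. -/
theorem interp {n M : ℕ} (hn : 0 < n) {w : ℝ} (hw0 : 0 ≤ w) (hw : w ≤ 2 * n) :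
    ∃ c : ℕ → ℕ → ℝ, (∀ u : ℝ, |Real.exp (w * u) - ∑ l ∈ range n, ∑ t ∈ range M,
        c l t * (u ^ t * Real.exp (node l * u))| ≤
      (2 * n * |u|) ^ (n * M) / (n * M).factorial * Real.exp (2 * n * |u|)) ∧
      ∑ l ∈ range n, ∑ t ∈ range M, |c l t| ≤ (n * M : ℕ) * (2 * n) ^ (n * M) := by
  have hwρ : |w| ≤ 2 * n := by rwa [abs_of_nonneg hw0]
  set ls : List ℕ := (List.range n).flatMap fun l => List.replicate M l with hls
  have hlen : ls.length = n * M := by
    rw [hls, List.length_flatMap]
    simp
  have hmem : ∀ i ∈ ls, i < n := by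
    intro i hi
    rw [hls, List.mem_flatMap] at hi
    obtain ⟨l, hl, hi⟩ := hi
    rw [List.eq_of_mem_replicate hi]
    exact List.mem_range.1 hl
  have hcount : ∀ i, ls.count i ≤ M := by
    intro i
    have key : ∀ m : ℕ, ((List.range m).flatMap fun l => List.replicate M l).count i =
        if i < m then M else 0 := by
      intro m
      induction m with
      | zero => simp
      | succ m ih =>
        rw [List.range_succ, List.flatMap_append, List.count_append, ih]
        simp only [List.flatMap_cons, List.flatMap_nil, List.append_nil, List.count_replicate]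
        by_cases h1 : i < m
        · have h2 : ¬ m = i := by omega
          simp [h1, h2, Nat.lt_succ_of_lt h1]
        · by_cases h2 : m = i
          · subst h2
            simp
          · have h3 : ¬ i < m + 1 := by omega
            simp [h1, h2, h3]
    rw [hls, key]
    split_ifs <;> omega
  obtain ⟨F, ⟨c, hc1, hc2⟩, π, hπ, h⟩ := newton (M := M) hn hw0 hw ls hmem hcount
  rw [hlen] at hc2 hπ h
  refine ⟨c, fun u => ?_, hc2⟩
  rw [← hc1 u, h u, add_sub_cancel_left, abs_mul]
  have b2 : Bd (n * M) (2 * n) (geo w * gen ls) := by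
    rw [← hlen]
    cases hls' : ls with
    | nil => simpa [gen] using bd_geo hwρ
    | cons l' ls' =>
      rw [hls'] at hmem
      exact (bd_gen (n := n) ls' l' hmem).geo_mul hwρ
  calc |π| * |dd (n * M) (geo w * gen ls) u|
      ≤ (2 * n) ^ (n * M) * (|u| ^ (n * M) / (n * M).factorial * Real.exp (2 * n * |u|)) :=
        mul_le_mul hπ (b2.dd_le u) (abs_nonneg _) (by positivity)
    _ = (2 * n * |u|) ^ (n * M) / (n * M).factorial * Real.exp (2 * n * |u|) := by
        rw [mul_pow (2 * (n : ℝ))]
        ring

end BK21
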