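import Pool.Agent.BK21.Final

/-!
# Distance between `A * 2 ^ x` and `B * 3 ^ y`
-/

set_option autoImplicit false

namespace BK21

theorem lower (d : Dat) {h lam : ℕ} (hh : 1 ≤ h) (hlam : 1 ≤ lam) (hPQ : d.P * d.Q ≤ 10)
    (hA : Real.log d.A ≤ h) (hB : Real.log d.B ≤ h) (hh2 : h ≤ 2 ^ lam)
    (hb : |(d.b : ℝ)| ≤ 8 * 2 ^ lam) (hx : |(d.x : ℝ)| ≤ 8 * 2 ^ lam)
    (hy : |(d.y : ℝ)| ≤ 8 * 2 ^ lam) :
    Real.exp (-(2 ^ 73 * h * lam ^ 3)) ≤ |d.Lam| := by
  by_contra hcon
  rw [not_le] at hcon
  have hlam' : (1 : ℝ) ≤ lam := by exact_mod_cast hlam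
  have hh' : (1 : ℝ) ≤ h := by exact_mod_cast hh
  obtain ⟨r, hr⟩ : ∃ r, r = Nat.size (51200 * lam) := ⟨_, rfl⟩
  have hr1 : 51200 * lam < 2 ^ r := by
    rw [hr]
    exact Nat.lt_size_self _
  have hr2 : 2 ^ r ≤ 102400 * lam := by
    have hpos : 0 < r := by
      rcases Nat.eq_zero_or_pos r with h0 | h0
      · rw [h0] at hr1
        omega
      · exact h0
    have h1 : r - 1 < Nat.size (51200 * lam) := by omega
    have h2 := Nat.lt_size.1 h1
    have h3 : 2 ^ r = 2 * 2 ^ (r - 1) := by
      rw [← pow_succ']
      congr 1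
      omega
    omega
  have hr1' : (51200 : ℝ) * lam ≤ 2 ^ r := by exact_mod_cast hr1.le
  have hr2' : (2 : ℝ) ^ r ≤ 102400 * lam := by exact_mod_cast hr2
  have hll : (lam : ℝ) ≤ 2 ^ lam := by exact_mod_cast Nat.lt_two_pow_self.le
  have hr3 : r ≤ 17 + lam := by
    by_contra hc
    have h1 : 2 ^ (17 + lam + 1) ≤ 2 ^ r := Nat.pow_le_pow_right (by norm_num) (by omega)
    have h2 : lam < 2 ^ lam := Nat.lt_two_pow_self
    have h3 : 2 ^ (17 + lam + 1) = 262144 * 2 ^ lam := by
      rw [show 17 + lam + 1 = 18 + lam by ring, pow_add]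
      norm_num
    omega
  have hr4 : (2 : ℝ) * r + 24 ≤ 60 * lam := by
    have h1 : (r : ℝ) ≤ 17 + lam := by exact_mod_cast hr3
    linarith
  have hZ : ((h : ℝ) * 2 ^ (2 * r + 23)) ≤ h * (2 ^ 57 * lam ^ 2) := by
    have h1 : (2 : ℝ) ^ (2 * r + 23) = 2 ^ r * 2 ^ r * 2 ^ 23 := by
      rw [pow_add, two_mul, pow_add]
    rw [h1]
    refine mul_le_mul_of_nonneg_left ?_ (by linarith)
    have h2 : (2 : ℝ) ^ r * 2 ^ r ≤ (102400 * lam) * (102400 * lam) :=
      mul_le_mul hr2' hr2' (by positivity) (by positivity)
    have h3 : (0 : ℝ) ≤ (lam : ℝ) ^ 2 := by positivity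
    calc (2 : ℝ) ^ r * 2 ^ r * 2 ^ 23 ≤ (102400 * lam) * (102400 * lam) * 2 ^ 23 :=
          mul_le_mul_of_nonneg_right h2 (by norm_num)
      _ = (102400 * 102400 * 2 ^ 23) * (lam : ℝ) ^ 2 := by ring
      _ ≤ 2 ^ 57 * (lam : ℝ) ^ 2 := mul_le_mul_of_nonneg_right (by norm_num) h3
  have hfin : (1000 : ℝ) * (2 * r + 24) * (h * 2 ^ (2 * r + 23)) ≤ 2 ^ 73 * h * lam ^ 3 := by
    have h1 : (1000 : ℝ) * (2 * r + 24) * (h * 2 ^ (2 * r + 23)) ≤
        (1000 * (60 * lam)) * (h * (2 ^ 57 * lam ^ 2)) :=
      mul_le_mul (mul_le_mul_of_nonneg_left hr4 (by norm_num)) hZ (by positivity) (by positivity)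
    have h3 : (0 : ℝ) ≤ h * (lam : ℝ) ^ 3 := by positivity
    calc (1000 : ℝ) * (2 * r + 24) * (h * 2 ^ (2 * r + 23)) ≤
          (1000 * (60 * lam)) * (h * (2 ^ 57 * lam ^ 2)) := h1
      _ = (1000 * 60 * 2 ^ 57) * (h * (lam : ℝ) ^ 3) := by ring
      _ ≤ 2 ^ 73 * (h * (lam : ℝ) ^ 3) := mul_le_mul_of_nonneg_right (by norm_num) h3
      _ = _ := by ring
  have hmu : 2 * (8 * 2 ^ lam) * (h * 2 ^ (r + 23)) ≤ Real.exp (50 * lam) := by
    have h0 : (h : ℝ) ≤ 2 ^ lam := by exact_mod_cast hh2
    have h1 : (2 : ℝ) ^ (r + 23) ≤ 2 ^ 17 * 2 ^ lam * 2 ^ 23 := by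
      rw [pow_add]
      refine mul_le_mul_of_nonneg_right ?_ (by norm_num)
      refine hr2'.trans ?_
      calc (102400 : ℝ) * lam ≤ 2 ^ 17 * lam :=
            mul_le_mul_of_nonneg_right (by norm_num) (by linarith)
        _ ≤ 2 ^ 17 * 2 ^ lam := mul_le_mul_of_nonneg_left hll (by norm_num)
    have h2 : (2 * (8 * 2 ^ lam) * (h * 2 ^ (r + 23)) : ℝ) ≤
        2 * (8 * 2 ^ lam) * (2 ^ lam * (2 ^ 17 * 2 ^ lam * 2 ^ 23)) :=
      mul_le_mul_of_nonneg_left (mul_le_mul h0 h1 (by positivity) (by positivity))
        (by positivity)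
    refine h2.trans ?_
    have h3 : (2 * (8 * 2 ^ lam) * (2 ^ lam * (2 ^ 17 * 2 ^ lam * 2 ^ 23)) : ℝ) =
        2 ^ (44 + 3 * lam) := by
      ring
    rw [h3]
    refine (two_pow_le _).trans (Real.exp_le_exp.2 ?_)
    push_cast
    linarith
  exact Par.absurd_par (d := d)
    { h := h
      r := r
      X := 8 * 2 ^ lam
      L := 50 * lam
      hh := hh
      hPQ := hPQ
      hlA := hA
      hlB := hB
      hX := by
        have : (1 : ℝ) ≤ 2 ^ lam := one_le_pow₀ (by norm_num)
        linarith
      hbX := hb
      hxX := hx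
      hyX := hy
      hL := by linarith
      hr := by linarith
      hμ := hmu
      hLam := hcon.le.trans (Real.exp_le_exp.2 (neg_le_neg hfin)) }

theorem not_isSquare_of_two {n : ℕ} (h : ¬ 2 ∣ n) : ¬ IsSquare (2 * n) := by
  rintro ⟨a, ha⟩
  have h2 : 2 ∣ a * a := ⟨n, ha.symm⟩
  have h3 : 2 ∣ a := by
    rcases (Nat.Prime.dvd_mul Nat.prime_two).1 h2 with h | h <;> exact h
  obtain ⟨c, rfl⟩ := h3
  exact h ⟨c * c, by nlinarith⟩

theorem not_isSquare_of_three {n : ℕ} (h : ¬ 3 ∣ n) : ¬ IsSquare (3 * n) := by
  rintro ⟨a, ha⟩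
  have h2 : 3 ∣ a * a := ⟨n, ha.symm⟩
  have h3 : 3 ∣ a := by
    rcases (Nat.Prime.dvd_mul Nat.prime_three).1 h2 with h | h <;> exact h
  obtain ⟨c, rfl⟩ := h3
  exact h ⟨c * c, by nlinarith⟩

theorem ind_of {c : ℕ} (h2 : ¬ 2 ∣ c) (h3 : ¬ 3 ∣ c) (hc : ¬ IsSquare c) : Ind 2 3 c := by
  have a2 : ¬ IsSquare (2 * 1) := not_isSquare_of_two (by norm_num)
  have a3 : ¬ IsSquare (3 * 1) := not_isSquare_of_three (by norm_num)
  have a6 : ¬ IsSquare (2 * 3) := not_isSquare_of_two (by norm_num)
  have h3c : ¬ 2 ∣ 3 * c := by omega
  refine ⟨by simpa using a2, by simpa using a3, hc, a6, not_isSquare_of_two h2,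
    not_isSquare_of_three h3, ?_⟩
  rw [mul_assoc]
  exact not_isSquare_of_two h3c

theorem ind_253 : Ind 2 5 (3 * 1) := by
  have a2 : ¬ IsSquare (2 * 1) := not_isSquare_of_two (by norm_num)
  have a3 : ¬ IsSquare (3 * 1) := not_isSquare_of_three (by norm_num)
  have a5 : ¬ IsSquare 5 := by
    rintro ⟨a, ha⟩
    have : a ≤ 2 := by nlinarith
    interval_cases a <;> omega
  have a10 : ¬ IsSquare (2 * 5) := not_isSquare_of_two (by norm_num)
  have a6 : ¬ IsSquare (2 * (3 * 1)) := not_isSquare_of_two (by norm_num)
  have a15 : ¬ IsSquare (3 * 5) := not_isSquare_of_three (by norm_num)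
  have a30 : ¬ IsSquare (2 * 15) := not_isSquare_of_two (by norm_num)
  exact ⟨by simpa using a2, a5, a3, a10, a6, by simpa using a15, by simpa using a30⟩

theorem sq_of_cop {a b c : ℕ} (h : Nat.Coprime a b) (hc : a * b = c ^ 2) : ∃ d, a = d ^ 2 :=
  exists_eq_pow_of_mul_eq_pow (a := a) (b := b) (Nat.isUnit_iff.2 h) hc

/-- The general lower bound, by reduction to the case of multiplicatively independent numbers. -/
theorem genLower {lam h : ℕ} (hlam : 1 ≤ lam) (hh : 2 ≤ h) (hh2 : h ≤ 2 ^ lam) :
    ∀ (n A B : ℕ), A + B ≤ n → 1 ≤ A → 1 ≤ B → ∀ (b : ℕ) (x y : ℤ), 1 ≤ b →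
    b * Real.log A ≤ h → b * Real.log B ≤ h →
    |(x : ℝ)| + 2 * b * (Real.log A + Real.log B) ≤ 8 * 2 ^ lam →
    |(y : ℝ)| + 2 * b * (Real.log A + Real.log B) ≤ 8 * 2 ^ lam →
    b * (Real.log A - Real.log B) + x * Real.log 2 + y * Real.log 3 ≠ 0 →
    Real.exp (-(2 ^ 73 * h * lam ^ 3)) ≤
      |b * (Real.log A - Real.log B) + x * Real.log 2 + y * Real.log 3| := by
  have hL2 : (0.69 : ℝ) < Real.log 2 := by linarith [Real.log_two_gt_d9]
  have hL3 : (1 : ℝ) ≤ Real.log 3 := by
    rw [Real.le_log_iff_exp_le (by norm_num)]
    linarith [Real.exp_one_lt_d9]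
  have hlam' : (1 : ℝ) ≤ lam := by exact_mod_cast hlam
  have hh' : (2 : ℝ) ≤ h := by exact_mod_cast hh
  intro n
  induction n with
  | zero =>
    intro A B hAB hA hB
    omega
  | succ n ih =>
    intro A B hAB hA hB b x y hb hbA hbB hx hy hne
    have hb' : (1 : ℝ) ≤ b := by exact_mod_cast hb
    have hlA : 0 ≤ Real.log A := Real.log_nonneg (by exact_mod_cast hA)
    have hlB : 0 ≤ Real.log B := Real.log_nonneg (by exact_mod_cast hB)
    -- removal of a common factor or of a factor 2, 3
    have red : ∀ (A' B' : ℕ) (u v : ℤ), 1 ≤ A' → 1 ≤ B' → A' + B' < A + B →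
        Real.log A' ≤ Real.log A → Real.log B' ≤ Real.log B →
        Real.log A - Real.log B = Real.log A' - Real.log B' + u * Real.log 2 + v * Real.log 3 →
        |(u : ℝ)| ≤ 2 * (Real.log A + Real.log B - Real.log A' - Real.log B') →
        |(v : ℝ)| ≤ 2 * (Real.log A + Real.log B - Real.log A' - Real.log B') →
        Real.exp (-(2 ^ 73 * h * lam ^ 3)) ≤
          |b * (Real.log A - Real.log B) + x * Real.log 2 + y * Real.log 3| := by
      intro A' B' u v hA' hB' hlt h1 h2 h3 h4 h5
      have e : b * (Real.log A - Real.log B) + x * Real.log 2 + y * Real.log 3 =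
          b * (Real.log A' - Real.log B') + ((x + b * u : ℤ) : ℝ) * Real.log 2 +
            ((y + b * v : ℤ) : ℝ) * Real.log 3 := by
        rw [h3]
        push_cast
        ring
      rw [e] at hne ⊢
      have t1 : |((x + b * u : ℤ) : ℝ)| ≤ |(x : ℝ)| + b * |(u : ℝ)| := by
        push_cast
        refine (abs_add_le _ _).trans ?_
        rw [abs_mul, Nat.abs_cast]
      have t2 : |((y + b * v : ℤ) : ℝ)| ≤ |(y : ℝ)| + b * |(v : ℝ)| := by
        push_cast
        refine (abs_add_le _ _).trans ?_
        rw [abs_mul, Nat.abs_cast]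
      have t3 := mul_le_mul_of_nonneg_left h4 (by linarith : (0 : ℝ) ≤ b)
      have t4 := mul_le_mul_of_nonneg_left h5 (by linarith : (0 : ℝ) ≤ b)
      refine ih A' B' (by omega) hA' hB' b _ _ hb ?_ ?_ ?_ ?_ hne
      · exact (mul_le_mul_of_nonneg_left h1 (by linarith)).trans hbA
      · exact (mul_le_mul_of_nonneg_left h2 (by linarith)).trans hbB
      · nlinarith
      · nlinarith
    have lmul : ∀ (p m : ℕ), 1 ≤ p → 1 ≤ m → Real.log ((p * m : ℕ) : ℝ) =
        Real.log p + Real.log m := by
      intro p m hp hm
      push_cast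
      rw [Real.log_mul (by positivity) (by positivity)]
    by_cases c2A : 2 ∣ A
    · obtain ⟨A', rfl⟩ := c2A
      have e := lmul 2 A' (by norm_num) (by omega)
      refine red A' B 1 0 (by omega) hB (by omega) ?_ le_rfl ?_ ?_ ?_
      · rw [e]
        push_cast
        linarith
      · rw [e]
        push_cast
        ring
      · rw [e]
        push_cast
        rw [abs_one]
        linarith
      · rw [e]
        push_cast
        rw [abs_zero]
        linarith
    by_cases c2B : 2 ∣ B
    · obtain ⟨B', rfl⟩ := c2B
      have e := lmul 2 B' (by norm_num) (by omega)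
      refine red A B' (-1) 0 hA (by omega) (by omega) le_rfl ?_ ?_ ?_ ?_
      · rw [e]
        push_cast
        linarith
      · rw [e]
        push_cast
        ring
      · rw [e]
        push_cast
        rw [abs_neg, abs_one]
        linarith
      · rw [e]
        push_cast
        rw [abs_zero]
        linarith
    by_cases c3A : 3 ∣ A
    · obtain ⟨A', rfl⟩ := c3A
      have e := lmul 3 A' (by norm_num) (by omega)
      refine red A' B 0 1 (by omega) hB (by omega) ?_ le_rfl ?_ ?_ ?_
      · rw [e]
        push_cast
        linarith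
      · rw [e]
        push_cast
        ring
      · rw [e]
        push_cast
        rw [abs_zero]
        linarith
      · rw [e]
        push_cast
        rw [abs_one]
        linarith
    by_cases c3B : 3 ∣ B
    · obtain ⟨B', rfl⟩ := c3B
      have e := lmul 3 B' (by norm_num) (by omega)
      refine red A B' 0 (-1) hA (by omega) (by omega) le_rfl ?_ ?_ ?_ ?_
      · rw [e]
        push_cast
        linarith
      · rw [e]
        push_cast
        ring
      · rw [e]
        push_cast
        rw [abs_zero]
        linarith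
      · rw [e]
        push_cast
        rw [abs_neg, abs_one]
        linarith
    by_cases hcop : Nat.Coprime A B
    · by_cases hsq : IsSquare (A * B)
      · -- squares
        obtain ⟨c, hc⟩ := hsq
        have hc2 : A * B = c ^ 2 := by rw [hc, sq]
        obtain ⟨a, ha⟩ := sq_of_cop hcop hc2
        obtain ⟨a', ha'⟩ := sq_of_cop hcop.symm (by rw [mul_comm]; exact hc2)
        by_cases h11 : A = 1 ∧ B = 1
        · obtain ⟨rfl, rfl⟩ := h11
          have e0 : (b : ℝ) * (Real.log ((1 : ℕ) : ℝ) - Real.log ((1 : ℕ) : ℝ)) +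
              x * Real.log 2 + y * Real.log 3 = x * Real.log 2 + y * Real.log 3 := by
            push_cast
            rw [Real.log_one]
            ring
          rw [e0] at hne ⊢
          by_cases hy0 : y = 0
          · subst hy0
            rw [Int.cast_zero, zero_mul, add_zero] at hne ⊢
            have hx0 : x ≠ 0 := by
              rintro rfl
              apply hne
              simp
            have h1 : (1 : ℝ) ≤ |(x : ℝ)| := by exact_mod_cast Int.one_le_abs hx0
            rw [abs_mul, abs_of_pos (by linarith : (0 : ℝ) < Real.log 2)]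
            have h2 : Real.exp (-(2 ^ 73 * h * lam ^ 3)) ≤ Real.exp (-1) := by
              apply Real.exp_le_exp.2
              have h3 : (1 : ℝ) ≤ lam ^ 3 := one_le_pow₀ hlam'
              have h4 : (1 : ℝ) ≤ h * lam ^ 3 := by nlinarith
              nlinarith
            have h5 : Real.exp (-1) ≤ 1 / 2.7 := by
              rw [Real.exp_neg, inv_le_comm₀ (Real.exp_pos _) (by norm_num)]
              refine le_trans ?_ Real.exp_one_gt_d9.le
              norm_num
            have h6 : (1 : ℝ) / 2.7 ≤ 0.4 := by norm_num
            nlinarith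
          · let d : Dat := { P := 2, Q := 5, A := 3, B := 1, b := y, x := x, y := 0
                             hP := by norm_num, hQ := by norm_num, hA := by norm_num
                             hB := by norm_num, hb := hy0, hind := ind_253 }
            have hl1 : (0 : ℝ) ≤ 2 * b * (Real.log ((1 : ℕ) : ℝ) + Real.log ((1 : ℕ) : ℝ)) := by
              push_cast
              rw [Real.log_one]
              simp
            have h1 := lower d (h := h) (lam := lam) (by omega) hlam (by norm_num [d]) ?_ ?_ hh2
              ?_ ?_ ?_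
            · refine h1.trans (le_of_eq ?_)
              congr 1
              simp only [Dat.Lam, d]
              push_cast
              rw [div_one]
              ring
            · simp only [d]
              push_cast
              have : Real.log 3 ≤ 2 := by
                rw [Real.log_le_iff_le_exp (by norm_num)]
                linarith [five_le]
              linarith
            · simp only [d]
              push_cast
              rw [Real.log_one]
              linarith
            · simp only [d]
              linarith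
            · simp only [d]
              linarith
            · simp only [d]
              push_cast
              rw [abs_zero]
              positivity
        · -- proper squares
          have ha0 : 1 ≤ a := by
            rcases Nat.eq_zero_or_pos a with h0 | h0
            · rw [h0] at ha
              omega
            · exact h0
          have ha0' : 1 ≤ a' := by
            rcases Nat.eq_zero_or_pos a' with h0 | h0
            · rw [h0] at ha'
              omega
            · exact h0
          have eA : Real.log A = 2 * Real.log a := by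
            rw [ha]
            push_cast
            rw [Real.log_pow]
            norm_num
          have eB : Real.log B = 2 * Real.log a' := by
            rw [ha']
            push_cast
            rw [Real.log_pow]
            norm_num
          have hlt : a + a' < A + B := by
            rw [ha, ha']
            have h1 : 1 < a ∨ 1 < a' := by
              by_contra hc
              push Not at hc
              apply h11
              have e1 : a = 1 := by omega
              have e2 : a' = 1 := by omega
              rw [ha, ha', e1, e2]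
              exact ⟨rfl, rfl⟩
            rcases h1 with h1 | h1 <;> nlinarith
          have e : b * (Real.log A - Real.log B) + x * Real.log 2 + y * Real.log 3 =
              ((2 * b : ℕ) : ℝ) * (Real.log a - Real.log a') + x * Real.log 2 +
                y * Real.log 3 := by
            rw [eA, eB]
            push_cast
            ring
          rw [e] at hne ⊢
          refine ih a a' (by omega) ha0 ha0' (2 * b) x y (by omega) ?_ ?_ ?_ ?_ hne
          · push_cast
            rw [eA] at hbA
            linarith
          · push_cast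
            rw [eB] at hbB
            linarith
          · push_cast
            rw [eA, eB] at hx
            linarith
          · push_cast
            rw [eA, eB] at hy
            linarith
      · -- base case
        have hAB2 : ¬ 2 ∣ A * B := by
          intro h2
          rcases (Nat.Prime.dvd_mul Nat.prime_two).1 h2 with h | h
          · exact c2A h
          · exact c2B h
        have hAB3 : ¬ 3 ∣ A * B := by
          intro h2
          rcases (Nat.Prime.dvd_mul Nat.prime_three).1 h2 with h | h
          · exact c3A h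
          · exact c3B h
        let d : Dat := { P := 2, Q := 3, A := A, B := B, b := b, x := x, y := y
                         hP := by norm_num, hQ := by norm_num, hA := hA
                         hB := hB, hb := by exact_mod_cast (by omega : b ≠ 0),
                         hind := ind_of hAB2 hAB3 hsq }
        have hbl : (b : ℝ) ≤ 2 * b * (Real.log A + Real.log B) := by
          have h5 : 5 ≤ A * B := by
            have h0 : 1 ≤ A * B := Nat.mul_pos hA hB
            have h1 : A * B ≠ 1 := by
              intro h1
              apply hsq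
              rw [h1]
              exact ⟨1, rfl⟩
            by_contra hc
            have h3 : A * B = 2 ∨ A * B = 3 ∨ A * B = 4 := by omega
            rcases h3 with h3 | h3 | h3
            · exact hAB2 (by rw [h3])
            · exact hAB3 (by rw [h3])
            · exact hAB2 (by rw [h3]; norm_num)
          have h6 : Real.log A + Real.log B = Real.log ((A * B : ℕ) : ℝ) :=
            (lmul A B hA hB).symm
          have h7 : Real.log 3 ≤ Real.log ((A * B : ℕ) : ℝ) := by
            apply Real.log_le_log (by norm_num)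
            have : (5 : ℝ) ≤ ((A * B : ℕ) : ℝ) := by exact_mod_cast h5
            linarith
          rw [h6]
          nlinarith
        have h1 := lower d (h := h) (lam := lam) (by omega) hlam (by norm_num [d]) ?_ ?_ hh2
          ?_ ?_ ?_
        · refine h1.trans (le_of_eq ?_)
          congr 1
          simp only [Dat.Lam, d]
          rw [Real.log_div (by positivity) (by positivity)]
          push_cast
          ring
        · simp only [d]
          nlinarith
        · simp only [d]
          nlinarith
        · simp only [d]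
          push_cast
          rw [Nat.abs_cast]
          have := abs_nonneg (x : ℝ)
          linarith
        · simp only [d]
          have : 0 ≤ 2 * (b : ℝ) * (Real.log A + Real.log B) := by positivity
          linarith
        · simp only [d]
          have : 0 ≤ 2 * (b : ℝ) * (Real.log A + Real.log B) := by positivity
          linarith
    · -- common factor
      obtain ⟨g, hg⟩ : ∃ g, g = Nat.gcd A B := ⟨_, rfl⟩
      have hg1 : 2 ≤ g := by
        have h0 : 0 < g := by
          rw [hg]
          exact Nat.gcd_pos_of_pos_left _ hA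
        have h1 : g ≠ 1 := by
          rw [hg]
          exact hcop
        omega
      obtain ⟨A', hA'⟩ : g ∣ A := by
        rw [hg]
        exact Nat.gcd_dvd_left _ _
      obtain ⟨B', hB'⟩ : g ∣ B := by
        rw [hg]
        exact Nat.gcd_dvd_right _ _
      have hA'0 : 1 ≤ A' := by
        rcases Nat.eq_zero_or_pos A' with h0 | h0
        · rw [h0] at hA'
          omega
        · exact h0
      have hB'0 : 1 ≤ B' := by
        rcases Nat.eq_zero_or_pos B' with h0 | h0
        · rw [h0] at hB'
          omega
        · exact h0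
      have hlg : 0 ≤ Real.log g := Real.log_nonneg (by exact_mod_cast (by omega : 1 ≤ g))
      have eA : Real.log A = Real.log g + Real.log A' := by
        rw [hA']
        exact lmul g A' (by omega) hA'0
      have eB : Real.log B = Real.log g + Real.log B' := by
        rw [hB']
        exact lmul g B' (by omega) hB'0
      refine red A' B' 0 0 hA'0 hB'0 ?_ ?_ ?_ ?_ ?_ ?_
      · nlinarith
      · linarith
      · linarith
      · rw [eA, eB]
        push_cast
        ring
      · rw [eA, eB]
        push_cast
        rw [abs_zero]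
        linarith
      · rw [eA, eB]
        push_cast
        rw [abs_zero]
        linarith

/-- Distance between `A * 2 ^ x` and `B * 3 ^ y`. -/
theorem sep {lam h A B x y : ℕ} (hlam : 1 ≤ lam) (hh : 2 ≤ h) (hh2 : h ≤ 2 ^ lam) (hA : 1 ≤ A)
    (hB : 1 ≤ B) (hlA : Real.log A ≤ h) (hlB : Real.log B ≤ h) (hx : x ≤ 2 ^ lam)
    (hy : y ≤ 2 ^ lam) (hne : A * 2 ^ x ≠ B * 3 ^ y) :
    min ((A : ℝ) * 2 ^ x) (B * 3 ^ y) * Real.exp (-(2 ^ 73 * h * lam ^ 3)) ≤
      |(A : ℝ) * 2 ^ x - B * 3 ^ y| := by
  have hA' : (0 : ℝ) < A := by exact_mod_cast hA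
  have hB' : (0 : ℝ) < B := by exact_mod_cast hB
  set u : ℝ := (A : ℝ) * 2 ^ x with hu
  set v : ℝ := (B : ℝ) * 3 ^ y with hv
  have hu0 : 0 < u := by positivity
  have hv0 : 0 < v := by positivity
  have huv : u ≠ v := by
    rw [hu, hv]
    exact_mod_cast hne
  have elu : Real.log u = Real.log A + x * Real.log 2 := by
    rw [hu, Real.log_mul (by positivity) (by positivity), Real.log_pow]
  have elv : Real.log v = Real.log B + y * Real.log 3 := by
    rw [hv, Real.log_mul (by positivity) (by positivity), Real.log_pow]
  have hlA0 : 0 ≤ Real.log A := Real.log_nonneg (by exact_mod_cast hA)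
  have hlB0 : 0 ≤ Real.log B := Real.log_nonneg (by exact_mod_cast hB)
  have hh2' : (h : ℝ) ≤ 2 ^ lam := by exact_mod_cast hh2
  have hx' : (x : ℝ) ≤ 2 ^ lam := by exact_mod_cast hx
  have hy' : (y : ℝ) ≤ 2 ^ lam := by exact_mod_cast hy
  have hlog : Real.log u ≠ Real.log v := fun h => huv (Real.log_injOn_pos hu0 hv0 h)
  have key := genLower hlam hh hh2 (A + B) A B le_rfl hA hB 1 (x : ℤ) (-(y : ℤ)) le_rfl
    (by push_cast; linarith) (by push_cast; linarith)
    (by push_cast; rw [Nat.abs_cast]; linarith)
    (by push_cast; rw [abs_neg, Nat.abs_cast]; linarith)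
    (by
      push_cast
      intro h0
      apply hlog
      rw [elu, elv]
      linarith)
  have e : ((1 : ℕ) : ℝ) * (Real.log A - Real.log B) + ((x : ℤ) : ℝ) * Real.log 2 +
      ((-(y : ℤ) : ℤ) : ℝ) * Real.log 3 = Real.log u - Real.log v := by
    rw [elu, elv]
    push_cast
    ring
  rw [e] at key
  have dist : ∀ {s t : ℝ}, 0 < s → 0 < t → t ≤ s → t * (Real.log s - Real.log t) ≤ s - t := by
    intro s t hs ht hts
    have h1 := Real.log_le_sub_one_of_pos (div_pos hs ht)
    rw [Real.log_div hs.ne' ht.ne'] at h1
    have h2 := mul_le_mul_of_nonneg_left h1 ht.le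
    have h3 : t * (s / t - 1) = s - t := by
      field_simp
    linarith
  rcases le_total u v with h | h
  · rw [min_eq_left h, abs_of_nonpos (by linarith : u - v ≤ 0)]
    have h1 := dist hv0 hu0 h
    have h2 : Real.log u ≤ Real.log v := Real.log_le_log hu0 h
    rw [abs_of_nonpos (by linarith)] at key
    have h3 := mul_le_mul_of_nonneg_left key hu0.le
    linarith
  · rw [min_eq_right h, abs_of_nonneg (by linarith : 0 ≤ u - v)]
    have h1 := dist hu0 hv0 h
    have h2 : Real.log v ≤ Real.log u := Real.log_le_log hv0 h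
    rw [abs_of_nonneg (by linarith)] at key
    have h3 := mul_le_mul_of_nonneg_left key hv0.le
    linarith

end BK21
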