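import Pool.Agent.BK21.Core

/-!
# The auxiliary polynomial and products of linear forms
-/

set_option autoImplicit false

namespace BK21

open Finset

section

attribute [local instance] Matrix.seminormedAddCommGroup

/-- Siegel's lemma. -/
theorem siegel {α β : Type} [Fintype α] [Fintype β] (A : Matrix α β ℤ) {C : ℝ} (hC : 1 ≤ C)
    (hA : ∀ i j, |(A i j : ℝ)| ≤ C) (h : 2 * Fintype.card α ≤ Fintype.card β)
    (hα : 0 < Fintype.card α) :
    ∃ t : β → ℤ, t ≠ 0 ∧ A.mulVec t = 0 ∧ ∀ j, |(t j : ℝ)| ≤ Fintype.card β * C := by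
  have hlt : Fintype.card α < Fintype.card β := by omega
  obtain ⟨t, ht0, htA, htn⟩ := Int.Matrix.exists_ne_zero_int_vec_norm_le A hlt hα
  refine ⟨t, ht0, htA, fun j => ?_⟩
  have h1 : |(t j : ℝ)| ≤ ‖t‖ := by
    have := norm_le_pi_norm t j
    rwa [Int.norm_eq_abs] at this
  refine h1.trans (htn.trans ?_)
  have h2 : ‖A‖ ≤ C := by
    rw [Matrix.norm_le_iff (by linarith)]
    intro i j
    rw [Int.norm_eq_abs]
    exact hA i j
  have h3 : max 1 ‖A‖ ≤ C := max_le hC h2
  have hβ : (1 : ℝ) ≤ Fintype.card β := by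
    have : 1 ≤ Fintype.card β := by omega
    exact_mod_cast this
  have h4 : (1 : ℝ) ≤ Fintype.card β * max 1 ‖A‖ := by
    have : (1 : ℝ) ≤ max 1 ‖A‖ := le_max_left _ _
    nlinarith
  have h5 : (Fintype.card α : ℝ) / (Fintype.card β - Fintype.card α) ≤ 1 := by
    have h6 : (2 : ℝ) * Fintype.card α ≤ Fintype.card β := by exact_mod_cast h
    have h7 : (0 : ℝ) < Fintype.card α := by exact_mod_cast hα
    rw [div_le_one (by linarith)]
    linarith
  calc ((Fintype.card β : ℝ) * max 1 ‖A‖) ^ ((Fintype.card α : ℝ) /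
        (Fintype.card β - Fintype.card α))
      ≤ ((Fintype.card β : ℝ) * max 1 ‖A‖) ^ (1 : ℝ) :=
        Real.rpow_le_rpow_of_exponent_le h4 h5
    _ = (Fintype.card β : ℝ) * max 1 ‖A‖ := Real.rpow_one _
    _ ≤ Fintype.card β * C := mul_le_mul_of_nonneg_left h3 (by linarith)

end

theorem V_prod {ι : Type} (s : Finset ι) (f : ι → ℝ → ℝ → ℝ) (h : ∀ a ∈ s, f a ∈ V 1) :
    (fun u v => ∏ a ∈ s, f a u v) ∈ V s.card := by
  classical
  induction s using Finset.induction_on with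
  | empty =>
    have := mono_mem_V (i := 0) (j := 0) (T := 0) le_rfl
    simpa using this
  | insert a s ha ih =>
    rw [card_insert_of_notMem ha]
    have : (fun u v => ∏ b ∈ insert a s, f b u v) =
        fun u v => (∏ b ∈ s, f b u v) * f a u v := by
      funext u v
      rw [prod_insert ha, mul_comm]
    rw [this]
    exact V_mul (ih fun b hb => h b (mem_insert_of_mem hb)) (h a (mem_insert_self a s))

namespace Dat

variable (d : Dat)

theorem m1_two (i k e₁ e₃ : ℕ) :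
    d.m1 (2 * i + e₁) (2 * k + e₃) = 2 * d.m1 i k + d.m1 e₁ e₃ := by
  unfold m1
  push_cast
  ring

theorem m2_two (j k e₂ e₃ : ℕ) :
    d.m2 (2 * j + e₂) (2 * k + e₃) = 2 * d.m2 j k + d.m2 e₂ e₃ := by
  unfold m2
  push_cast
  ring

/-- From monomials to all polynomials. -/
theorem span_van {n m T q e₁ e₂ e₃ : ℕ} (p : ℕ → ℕ → ℕ → ℤ)
    (h : ∀ i0 j0, i0 + j0 ≤ T → bs n m (fun i j k =>
      (p (2 * i + e₁) (2 * j + e₂) (2 * k + e₃) : ℝ) *
      ((d.m1 (2 * i + e₁) (2 * k + e₃) : ℝ) ^ i0 * (d.m2 (2 * j + e₂) (2 * k + e₃) : ℝ) ^ j0) *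
        d.W i j k ^ q) = 0) {f : ℝ → ℝ → ℝ} (hf : f ∈ V T) :
    bs n m (fun i j k => (p (2 * i + e₁) (2 * j + e₂) (2 * k + e₃) : ℝ) *
      f (d.m1 i k) (d.m2 j k) * d.W i j k ^ q) = 0 := by
  have key : ∀ g ∈ V T, bs n m (fun i j k => (p (2 * i + e₁) (2 * j + e₂) (2 * k + e₃) : ℝ) *
      g (d.m1 (2 * i + e₁) (2 * k + e₃)) (d.m2 (2 * j + e₂) (2 * k + e₃)) *
        d.W i j k ^ q) = 0 := by
    intro g hg
    induction hg using Submodule.span_induction with
    | mem g hg =>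
      obtain ⟨i0, j0, hij, rfl⟩ := hg
      exact h i0 j0 hij
    | zero => simp [bs]
    | add g g' _ _ h1 h2 =>
      have h3 := congrArg₂ (· + ·) h1 h2
      simp only [add_zero, ← bs_add] at h3
      rw [← h3]
      refine bs_congr fun i _ j _ k _ => ?_
      simp only [Pi.add_apply]
      ring
    | smul c g _ h1 =>
      rw [← mul_zero c, ← h1, ← bs_mul_left]
      refine bs_congr fun i _ j _ k _ => ?_
      simp only [Pi.smul_apply, smul_eq_mul]
      ring
  have h1 := key _ (V_comp hf (1 / 2) (-(1 / 2) * d.m1 e₁ e₃) (-(1 / 2) * d.m2 e₂ e₃))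
  rw [← h1]
  refine bs_congr fun i _ j _ k _ => ?_
  rw [m1_two, m2_two]
  push_cast
  congr 3
  · ring
  · ring

end Dat

end BK21
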